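import Pool.Agent.Work.MP_8f87b2_h61.JsT
import Pool.Agent.Work.MP_8f87b2_h58.InA0

/-!
# MP_8f87b2_co: rows I-A-J1, I-T-J1 (I-A0-J1: see `InJt`)

Inner words of the windows A, T against the twenty words of the gadget J1a at `(s, 3, 2)` (`TyJs`), `k ≥ 13`.
The inner words start with `111..` and end with `..00`; for the eight words `Y` of `TyJs` of this form the word
`T⁻¹ Y = 1^n' mid 0^N` has no local maximum below `n ≥ 7` and no local minimum below `3`, but the words of a window have a
light component.
-/

set_option autoImplicit false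

namespace Pool.OddHC

open Finset Equiv BinaryTree Pool.Agent.Work.MP_8f87b2_co

namespace J1

open H1

variable {k : ℕ} {F F' : Set (Cyc k)} {g g' : DG k}

/-- never more than `h` letters `0` ahead -/
def js74_gcr : ℕ → List Bool → Bool
  | _, [] => true
  | h, true :: l => js74_gcr (h + 1) l
  | 0, false :: _ => false
  | h + 1, false :: l => js74_gcr h l

theorem gcr_le : ∀ {l : List Bool} {h : ℕ}, js74_gcr h l = true → ∀ {c r : List Bool}, l = c ++ r →
    c.count false ≤ c.count true + h := by
  intro l
  induction l with
  | nil =>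
    intro h _ c r e
    obtain ⟨rfl, -⟩ : c = [] ∧ r = [] := by simpa using e.symm
    simp
  | cons x l ih =>
    intro h hg c r e
    cases c with
    | nil => simp
    | cons y c =>
      rw [List.cons_append, List.cons.injEq] at e
      obtain ⟨rfl, e⟩ := e
      cases x with
      | true =>
        have := ih (h := h + 1) hg e
        rw [List.count_cons, List.count_cons]
        simp
        omega
      | false =>
        cases h with
        | zero => simp [js74_gcr] at hg
        | succ h =>
          have := ih (h := h) hg e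
          rw [List.count_cons, List.count_cons]
          simp
          omega

/-- the cut of `T w` at its last maximum -/
theorem js74_cut {N H n' : ℕ} {z1 z2 u v : List Bool}
    (e : u ++ false :: v = (z1 ++ List.replicate N true) ++ false :: (List.replicate n' false ++ z2))
    (hu : u.count true = u.count false + H) (hN : N ≤ H) (hz : z1.count true = z1.count false)
    (h1 : z1.count true < N) (h2 : z2.count true ≤ n') :
    u = z1 ++ List.replicate N true ∧ v = List.replicate n' false ++ z2 := by
  rcases List.append_eq_append_iff.1 e with ⟨c, k1, k2⟩ | ⟨c, k1, k2⟩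
  · cases c with
    | nil =>
      rw [List.append_nil] at k1
      rw [List.nil_append, List.cons.injEq] at k2
      exact ⟨k1.symm, k2.2⟩
    | cons x c =>
      exfalso
      rw [List.cons_append, List.cons.injEq] at k2
      obtain ⟨rfl, -⟩ := k2
      rcases List.append_eq_append_iff.1 k1 with ⟨d, m1, m2⟩ | ⟨d, m1, m2⟩
      · have : false ∈ List.replicate N true := by rw [m2]; simp
        rw [List.mem_replicate] at this
        exact absurd this.2 (by simp)
      · rw [m1, List.count_append] at h1
        omega
  · cases c with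
    | nil =>
      rw [List.append_nil] at k1
      rw [List.nil_append, List.cons.injEq] at k2
      exact ⟨k1, k2.2.symm⟩
    | cons x c =>
      exfalso
      rw [List.cons_append, List.cons.injEq] at k2
      obtain ⟨rfl, k2⟩ := k2
      rw [k1] at hu
      simp only [List.count_append, List.count_cons, List.count_replicate] at hu
      simp at hu
      rcases List.append_eq_append_iff.1 k2 with ⟨d, m1, m2⟩ | ⟨d, m1, m2⟩
      · rw [m1] at hu
        simp only [List.count_append, List.count_replicate] at hu
        rw [m2, List.count_append] at h2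
        simp at hu
        omega
      · have : c.count true = 0 := by
          rw [List.count_eq_zero]
          intro h
          have h3 : true ∈ List.replicate n' false := by rw [m1]; exact List.mem_append_left _ h
          rw [List.mem_replicate] at h3
          exact absurd h3.2 (by simp)
        omega

/-- the words of `TyJs` with long runs -/
def JL (n : ℕ) (L : List Bool) : Prop :=
  ∃ (z1 z2 : List Bool) (N n' : ℕ), n ≤ n' ∧ n < N ∧ z1.count true = z1.count false ∧ z1.count true ≤ 5 ∧
    z2.count true ≤ 5 ∧ js74_gcr 4 (z2.map not ++ true :: z1.map not) = true ∧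
    L = (z1 ++ List.replicate N true) ++ false :: (List.replicate n' false ++ z2)

theorem js74_htT (x : X k) : Tsq.ht (TT x).1 = Tsq.ht x.1 := by
  rw [H1.ht_eq, H1.ht_eq, OddHC.ht_eq, OddHC.ht_eq, H1.cont_TT]

theorem JL_word {x : X k} {a b : List Bool} (h : FM x.1 a b) {n : ℕ} (hn : 7 ≤ n)
    (hL : JL n (wd (TT x).1)) : ∃ (mid : List Bool) (N n' : ℕ), n ≤ n' ∧ n < N ∧ js74_gcr 4 mid = true ∧
      wd x.1 = List.replicate n' true ++ (mid ++ List.replicate N false) := by
  obtain ⟨z1, z2, N, n', c1, c2, c3, c4, c5, c6, c7⟩ := hL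
  have e := h.wdT
  have hb : (b.map not).count true = (b.map not).count false + Tsq.ht x.1 := by
    have h1 := wd_counts x.1
    rw [h.eq, List.count_append, List.count_append, List.count_cons, List.count_cons] at h1
    have h2 := h.top
    rw [Tsq.count_not_true, Tsq.count_not_false]
    simp at h1
    omega
  have hN : N ≤ Tsq.ht x.1 := by
    have h1 := Tsq.ht_take (TT x).1 (z1 ++ List.replicate N true).length
    rw [c7, List.take_left' rfl, List.count_append, List.count_append, List.count_replicate_self,
      List.count_replicate, js74_htT] at h1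
    simp at h1
    omega
  rw [e] at c7
  obtain ⟨e1, e2⟩ := js74_cut c7 hb hN c3 (by omega) (by omega)
  have e3 : b = z1.map not ++ List.replicate N false := by
    have := congrArg (List.map not) e1
    simpa [Function.comp_def] using this
  have e4 : a = List.replicate n' true ++ z2.map not := by
    have := congrArg (List.map not) e2
    simpa [Function.comp_def] using this
  refine ⟨z2.map not ++ true :: z1.map not, N, n', c1, c2, c6, ?_⟩
  rw [h.eq, e3, e4]
  simp

/-- a word `1^n' mid 0^N` has no low letter `1` after its start -/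
theorem js74_low {n' N d : ℕ} {mid p r : List Bool} (hn : 7 ≤ n') (hd : d ≤ 2) (hm : js74_gcr 4 mid = true)
    (e : p ++ true :: r = List.replicate n' true ++ (mid ++ List.replicate N false))
    (hp : p.count true = p.count false + d) : p.count false = 0 := by
  rcases List.append_eq_append_iff.1 e with ⟨c, k1, -⟩ | ⟨c, k1, k2⟩
  · rw [List.count_eq_zero]
    intro h
    have h3 : false ∈ List.replicate n' true := by rw [k1]; exact List.mem_append_left _ h
    rw [List.mem_replicate] at h3
    exact absurd h3.2 (by simp)
  · exfalso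
    rcases List.append_eq_append_iff.1 k2 with ⟨c2, m1, m2⟩ | ⟨c2, m1, m2⟩
    · have h3 : true ∈ List.replicate N false := by rw [m2]; simp
      rw [List.mem_replicate] at h3
      exact absurd h3.2 (by simp)
    · have h4 := gcr_le hm m1
      rw [k1, List.count_append, List.count_append, List.count_replicate_self, List.count_replicate] at hp
      simp at hp
      omega

/-- no window word: `1^d P 1 1^e 0 ..` -/
theorem js74_nowin {n' N d e : ℕ} {mid r : List Bool} {P : BinaryTree Unit} (hn : 7 ≤ n') (hd : d ≤ 2) (he : e ≤ 2)
    (hm : js74_gcr 4 mid = true)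
    (h : List.replicate n' true ++ (mid ++ List.replicate N false) =
      (List.replicate d true ++ wd P) ++ true :: (List.replicate e true ++ false :: r)) : False := by
  have cP := wd_counts P
  have h1 := js74_low hn hd hm h.symm (by
    rw [List.count_append, List.count_append, List.count_replicate_self, List.count_replicate, cP.1, cP.2]
    simp
    omega)
  rw [List.count_append, List.count_replicate, cP.2] at h1
  have h2 : P.numNodes = 0 := by
    simp at h1
    exact h1
  have h3 : P = .nil := by
    cases hP : P with
    | nil => rfl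
    | node _ A C =>
      exfalso
      rw [hP] at h2
      change A.numNodes + C.numNodes + 1 = 0 at h2
      omega
  subst h3
  obtain ⟨m, rfl⟩ : ∃ m, n' = (d + (e + 1)) + (m + 1) := ⟨n' - (d + e + 2), by omega⟩
  have h4 : (List.replicate d true ++ wd .nil) ++ true :: (List.replicate e true ++ false :: r) =
      List.replicate (d + (e + 1)) true ++ false :: r := by
    rw [List.replicate_add, List.replicate_succ]
    simp [wd]
  rw [h4, List.replicate_add, List.append_assoc, List.replicate_succ] at h
  have h5 := List.append_cancel_left h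
  simp at h5

/-- `R` of a window: `B1 1 1^e 0 ..` -/
theorem gR_wd {B1 H s B : BinaryTree Unit} (hl : bl H = true) (h0 : H ≠ .nil) : ∃ (e : ℕ) (r : List Bool), e ≤ 2 ∧
    wd (gR B1 H s B) = wd B1 ++ true :: (List.replicate e true ++ false :: r) := by
  rcases bl_cases hl with rfl | ⟨H1, -, rfl⟩ | ⟨H1, -, rfl⟩
  · exact absurd rfl h0
  · refine ⟨1, wd (app H1 s) ++ false :: wd B, by norm_num, ?_⟩
    unfold gR
    simp [wd_app, wd, app]
  · refine ⟨2, false :: (wd (app H1 s) ++ false :: wd B), by norm_num, ?_⟩
    unfold gR
    simp [wd_app, wd, app]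

/-- no word of a window of type A is of the form `1^n' mid 0^N` -/
theorem NodeG_no {q : ℕ} {B1 H s B : BinaryTree Unit} (h : NodeG k q B1 H s B) {i : ℕ} (hi : i ∈ [0, 1, 3, 6, 8, 9])
    {n' N : ℕ} {mid : List Bool} (hn : 7 ≤ n') (hm : js74_gcr 4 mid = true) {S : BinaryTree Unit}
    (e : wd (W (gR B1 H s B) (ch (q + 1)) B S i) = List.replicate n' true ++ (mid ++ List.replicate N false)) :
    False := by
  obtain ⟨f, r, hf, hR⟩ := gR_wd (B1 := B1) (s := s) (B := B) h.light h.H0
  simp only [List.mem_cons, List.not_mem_nil, or_false] at hi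
  rcases hi with rfl | rfl | rfl | rfl | rfl | rfl
  · refine js74_nowin (N := N) (P := B1) (d := 0) hn (by norm_num) hf hm (r := r ++ wd ((ch (q + 1) △ .nil) △ .nil)) ?_
    rw [← e]
    change wd (app (gR B1 H s B) ((ch (q + 1) △ .nil) △ .nil)) = _
    rw [wd_app, hR]
    simp
  · refine js74_nowin (N := N) (P := B1) (d := 0) hn (by norm_num) hf hm
      (r := r ++ wd (.nil △ app (ch (q + 1)) (.nil △ .nil))) ?_
    rw [← e]
    change wd (app (gR B1 H s B) (.nil △ app (ch (q + 1)) (.nil △ .nil))) = _
    rw [wd_app, hR]
    simp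
  · refine js74_nowin (N := N) (P := B1) (d := 1) hn (by norm_num) hf hm
      (r := r ++ wd (.nil △ ch (q + 1)) ++ [false]) ?_
    rw [← e]
    change wd (app (gR B1 H s B) (.nil △ ch (q + 1)) △ .nil) = _
    rw [wd_node, wd_app, hR]
    simp [wd]
  · refine js74_nowin (N := N) (P := B1) (d := 1) hn (by norm_num) hf hm
      (r := r ++ false :: wd (ch (q + 1) △ .nil)) ?_
    rw [← e]
    change wd (gR B1 H s B △ (ch (q + 1) △ .nil)) = _
    rw [wd_node, hR]
    simp
  · have cP := wd_counts (ch (q + 1))
    have h1 := js74_low (d := 0) (p := wd (ch (q + 1))) (r := false :: wd (gR B1 H s B △ .nil)) hn (by norm_num) hm (by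
      rw [← e]
      change _ = wd (app (ch (q + 1)) (.nil △ (gR B1 H s B △ .nil)))
      rw [wd_app, wd_node]
      simp [wd]) (by rw [cP.1, cP.2]; rfl)
    rw [cP.2, ch_num] at h1
    omega
  · refine js74_nowin (N := N) (P := B1) (d := 2) hn (by norm_num) hf hm
      (r := r ++ false :: false :: wd (ch (q + 1))) ?_
    rw [← e]
    change wd ((gR B1 H s B △ .nil) △ ch (q + 1)) = _
    rw [wd_node, wd_node, hR]
    simp [wd, List.replicate_succ]

theorem js74_rsw (n : ℕ) (l : List Bool) : List.replicate n false ++ false :: l =
    false :: (List.replicate n false ++ l) := by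
  induction n with
  | zero => rfl
  | succ n ih => rw [List.replicate_succ, List.cons_append, ih, List.cons_append]

theorem js74_tsw (n : ℕ) (l : List Bool) : List.replicate n true ++ true :: l =
    true :: (List.replicate n true ++ l) := by
  induction n with
  | zero => rfl
  | succ n ih => rw [List.replicate_succ, List.cons_append, ih, List.cons_append]

/-- the twenty words: start, end, or long runs -/
theorem jl_word {n j : ℕ} (hj : j < 20) {t : BinaryTree Unit} (e : comps t = jl n j) :
    (∃ Y, t = .nil △ Y) ∨ (∃ Y, t = app Y (.nil △ .nil)) ∨ (∃ Y Z, t = (.nil △ Y) △ Z) ∨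
      (JL n (wd t) ∧ (j = 0 ∨ j = 3 ∨ j = 9 ∨ j = 10 ∨ j = 11 ∨ j = 13 ∨ j = 17 ∨ j = 19)) := by
  have key : ∀ t' : BinaryTree Unit, comps t' = jl n j → t = t' := fun t' h => comps_inj (e.trans h.symm)
  have w1 : wd (ch 1) = [true, false] := rfl
  have w2 : wd (ch 2) = [true, true, false, false] := rfl
  have w3 : wd (ch 3) = [true, true, true, false, false, false] := rfl
  interval_cases j
  · right; right; right
    rw [key (ch n △ (ch 2 △ (ch 1 △ .nil))) rfl]
    refine ⟨⟨[], [true, true, true, false, false, false, true, true, false, false], n + 1, n, le_rfl, by omega,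
      by decide, by decide, by decide, by decide, ?_⟩, by simp⟩
    simp only [wd_ch, w1, w2, wd, List.replicate_succ, List.nil_append, List.append_assoc, js74_rsw,
      List.cons_append]
  · right; left
    exact ⟨ch n △ (ch 2 △ (.nil △ .nil)), key _ rfl⟩
  · left
    exact ⟨ch n △ (ch 2 △ (.nil △ .nil)), key _ rfl⟩
  · right; right; right
    rw [key ((ch n △ (ch 2 △ (.nil △ .nil))) △ .nil) rfl]
    refine ⟨⟨[], [true, true, true, false, false, false, true, false, false], n + 2, n, le_rfl, by omega,
      by decide, by decide, by decide, by decide, ?_⟩, by simp⟩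
    simp only [wd_ch, w1, w2, wd, List.replicate_succ, List.nil_append, List.append_assoc, js74_rsw,
      List.cons_append]
  · right; right; left
    exact ⟨.nil, ch n △ (ch 2 △ .nil), key _ rfl⟩
  · left
    exact ⟨.nil △ (ch n △ (ch 2 △ .nil)), key _ rfl⟩
  · right; left
    exact ⟨RR n △ .nil, key _ rfl⟩
  · right; right; left
    exact ⟨RR n, .nil, key _ rfl⟩
  · left
    exact ⟨RR n △ .nil, key _ rfl⟩
  · right; right; right
    rw [key ((RR n △ .nil) △ .nil) rfl]
    refine ⟨⟨[], [true, true, true, false, false, false, false, false], n + 3, n, le_rfl, by omega,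
      by decide, by decide, by decide, by decide, ?_⟩, by simp⟩
    simp only [RR, wd_ch n, w3, wd, List.replicate_succ, List.nil_append, List.append_assoc, js74_rsw,
      List.cons_append]
  · right; right; right
    rw [key (ch 2 △ (ch 1 △ (ch n △ .nil))) rfl]
    refine ⟨⟨[true, true, true, false, false, false, true, true, false, false], [], n + 1, n, le_rfl, by omega,
      by decide, by decide, by decide, by decide, ?_⟩, by simp⟩
    simp only [wd_ch n, w1, w2, wd, List.replicate_succ, List.nil_append, List.append_assoc, js74_rsw,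
      List.cons_append, List.append_nil]
  · right; right; right
    rw [key (ch 2 △ (.nil △ (.nil △ (ch n △ .nil)))) rfl]
    refine ⟨⟨[true, true, true, false, false, false, true, false, true, false], [], n + 1, n, le_rfl, by omega,
      by decide, by decide, by decide, by decide, ?_⟩, by simp⟩
    simp only [wd_ch n, w1, w2, wd, List.replicate_succ, List.nil_append, List.append_assoc, js74_rsw,
      List.cons_append, List.append_nil]
  · right; left
    exact ⟨ch (n + 1) △ (ch 2 △ .nil), key _ rfl⟩
  · right; right; right
    rw [key (ch n △ ((ch 2 △ (.nil △ .nil)) △ .nil)) rfl]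
    refine ⟨⟨[], [true, true, true, true, false, false, false, true, false, false], n + 1, n, le_rfl, by omega,
      by decide, by decide, by decide, by decide, ?_⟩, by simp⟩
    simp only [wd_ch n, w1, w2, wd, List.replicate_succ, List.nil_append, List.append_assoc, js74_rsw,
      List.cons_append]
  · right; right; left
    exact ⟨ch (n + 1), ch 2 △ .nil, key _ rfl⟩
  · left
    exact ⟨ch (n + 1) △ (ch 2 △ .nil), key _ rfl⟩
  · right; left
    exact ⟨ch n △ (ch 3 △ .nil), key _ rfl⟩
  · right; right; right
    rw [key ((ch (n + 1) △ ch 3) △ .nil) rfl]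
    refine ⟨⟨[], [true, true, true, false, false, false, false], n + 3, n + 1, by omega, by omega,
      by decide, by decide, by decide, by decide, ?_⟩, by simp⟩
    simp only [wd_ch (n + 1), w3, wd, List.replicate_succ, List.nil_append, List.append_assoc, js74_rsw,
      List.cons_append]
  · left
    exact ⟨ch n △ (ch 3 △ .nil), key _ rfl⟩
  · right; right; right
    rw [key ((ch n △ (ch 3 △ .nil)) △ .nil) rfl]
    refine ⟨⟨[], [true, true, true, true, false, false, false, false, false], n + 2, n, le_rfl, by omega,
      by decide, by decide, by decide, by decide, ?_⟩, by simp⟩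
    simp only [wd_ch n, w3, wd, List.replicate_succ, List.nil_append, List.append_assoc, js74_rsw,
      List.cons_append]

/-- the words of `TyJs` and an inner word which starts with `111` and ends with `00` -/
theorem js_inn {x : X k} {a b : List Bool} (h : FM x.1 a b) (hs : Sta 3 (wd (TT x).1))
    (he : ∃ l, wd (TT x).1 = l ++ List.replicate 2 false) {n j : ℕ} (hn : 7 ≤ n) (hj : j < 20)
    (e : comps (TT x).1 = jl n j) : ∃ (mid : List Bool) (N n' : ℕ), n ≤ n' ∧ n < N ∧ js74_gcr 4 mid = true ∧
      wd x.1 = List.replicate n' true ++ (mid ++ List.replicate N false) := by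
  obtain ⟨v, hv⟩ := hs.ttt (le_refl 3)
  obtain ⟨l, hl⟩ := he
  rcases jl_word hj e with ⟨Y, hY⟩ | ⟨Y, hY⟩ | ⟨Y, Z, hY⟩ | ⟨h1, -⟩
  · exfalso
    rw [hY, wd_node] at hv
    simp [wd] at hv
  · exfalso
    have h2 : wd (TT x).1 = (wd Y ++ [true]) ++ [false] := by
      rw [hY, wd_app]
      simp [wd]
    have h3 : wd (TT x).1 = (l ++ [false]) ++ [false] := by
      rw [hl]
      simp
    rw [h2] at h3
    have h4 := List.append_cancel_right h3
    have h5 := List.append_inj_right' h4 rfl
    simp at h5
  · exfalso
    rw [hY, wd_node, wd_node] at hv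
    simp [wd] at hv
  · exact JL_word h hn h1

end J1

open J1 H1 HM

variable {k : ℕ} {F F' : Set (Cyc k)} {g g' : DG k}

/-- **I-A-J1** -/
theorem TyA.inner_Js (h : TyA F g) (h' : TyJs F' g') (hk : 13 ≤ k) : ∀ p ∈ g.arcs, ∀ w ∈ innA p, w ∉ g'.B := by
  obtain ⟨q, B1, H, s, B, w0, hG, rfl, rfl⟩ := h
  obtain ⟨n, h1, h2, h3, -⟩ := h'.words
  have hn : 7 ≤ n := by omega
  intro p hp w hw hw'
  have key : ∀ i ∈ [0, 1, 3, 6, 8, 9], w = TT (gX q B1 H s B w0 i) → False := by
    rintro i hi rfl
    obtain ⟨j, hj, e⟩ := h3 _ hw'
    obtain ⟨u, v, hf⟩ := hG.fmrW hG.fmr w0 i hi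
    obtain ⟨k1, k2⟩ := hf.inner
    obtain ⟨mid, N, n', m1, m2, m3, m4⟩ := js_inn hf.fm k1 k2 hn hj e
    have hi' : i < 20 := by
      simp only [List.mem_cons, List.not_mem_nil, or_false] at hi
      omega
    rw [hG.word w0 hi'] at m4
    exact NodeG_no hG hi (m1.trans' hn) m3 m4
  have hw2 : w = TT p.1 := hw
  have hp' : p = (gX q B1 H s B w0 0, gX q B1 H s B w0 10) ∨
      p = (gX q B1 H s B w0 1, gX q B1 H s B w0 11) ∨
      p = (gX q B1 H s B w0 3, gX q B1 H s B w0 12) ∨
      p = (gX q B1 H s B w0 6, gX q B1 H s B w0 15) ∨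
      p = (gX q B1 H s B w0 8, gX q B1 H s B w0 14) ∨
      p = (gX q B1 H s B w0 9, gX q B1 H s B w0 17) := hp
  rcases hp' with rfl | rfl | rfl | rfl | rfl | rfl
  · exact key 0 (by simp) hw2
  · exact key 1 (by simp) hw2
  · exact key 3 (by simp) hw2
  · exact key 6 (by simp) hw2
  · exact key 8 (by simp) hw2
  · exact key 9 (by simp) hw2

/-- **I-T-J1** -/
theorem TyT.inner_Js (h : TyT F g) (h' : TyJs F' g') (hk : 13 ≤ k) : ∀ p ∈ g.arcs, ∀ w ∈ innA p, w ∉ g'.B := by
  intro p hp w hw hw'
  have h1 := h'.big hk w hw'
  obtain ⟨m, _, hB, _⟩ := h.path p hp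
  obtain ⟨b, m, a, i, _, hi, e⟩ := h.word hB
  have h2 := ht_w3 b m a hi
  rw [← e] at h2
  obtain rfl : w = TT p.1 := by
    obtain ⟨b, m, a, w0, h1, rfl, rfl⟩ := h
    exact hw
  rw [OddHC.ht_eq, H1.cont_TT, ← OddHC.ht_eq] at h1
  omega

end Pool.OddHC
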