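import Pool.Agent.Work.MP_8f87b2_h68.J1I
import Pool.Agent.Work.MP_8f87b2_h77.JVJ1
import Pool.Agent.Work.MP_8f87b2_h25.MatIJV
import Pool.Agent.Work.MP_8f87b2_h3.A0T2

/-!
# MP_8f87b2_co: inner rows INTO the windows `W R nil B S i` of `SqD k R B S` (all 20 words, word 9 = `((R))` included)

* `SRun.NIS.not_sq`: every `NIS` word (inner words 1, 3, 6, 8 of JM, J3V, J2B, JE, ...) is no word of such a window;
* `TyT.inner_sq`: type T;
* `J.J1A.inner_sq`, `J.J1MA.inner_sq`, `J1.TyJs.inner_sq`, `J1.TyJt.inner_sq`: the only coincidence is `((R))` or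
  `((S))` (`B = nil`) with `R` of content `(s, c)`.
-/

set_option autoImplicit false

namespace Pool.OddHC

open Finset Equiv BinaryTree Pool.Agent.Work.MP_8f87b2_co

namespace SRun

open H1

variable {k k' : ℕ} {R B S : BinaryTree Unit}

/-- the first component is not empty and does not start with two beads -/
def Fh74 (R : BinaryTree Unit) : Prop :=
  ∃ A X : BinaryTree Unit, R = A △ X ∧ A ≠ .nil ∧ ∀ Y, A ≠ .nil △ (.nil △ Y)

theorem Fh74_of (h0 : R ≠ .nil) (h1 : (OddHC.cont R).count 1 = 0) : Fh74 R := by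
  have g := (Gd_of h0 h1).1
  obtain ⟨v, hv⟩ := g.start
  have d := g.d2
  cases R with
  | nil => exact absurd rfl h0
  | node u A X =>
    refine ⟨A, X, rfl, ?_, ?_⟩
    · rintro rfl
      simp [wd] at hv
    · rintro Y rfl
      have e : wd (BinaryTree.node u (.nil △ (.nil △ Y)) X) =
          true :: true :: false :: true :: false :: (wd Y ++ false :: wd X) := by simp [wd]
      rw [e] at d
      cases d with
      | two _ l h => exact absurd h.eq (by simp)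

theorem Fh74.ne (h : Fh74 R) : R ≠ .nil := by
  obtain ⟨A, X, rfl, _⟩ := h
  simp

theorem Fh74.one (h : Fh74 R) {Y : BinaryTree Unit} : R ≠ .nil △ Y := by
  obtain ⟨A, X, rfl, h1, _⟩ := h
  intro e
  exact h1 (H1.node_inj e).1

theorem Fh74.hd (h : Fh74 R) (Z : BinaryTree Unit) {Y : BinaryTree Unit} :
    H1.t3hd (app R Z) ≠ .nil △ (.nil △ Y) := by
  obtain ⟨A, X, rfl, _, h2⟩ := h
  exact h2 Y

theorem Fh74.two (h : Fh74 R) (Z : BinaryTree Unit) {Y : BinaryTree Unit} :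
    app R Z ≠ .nil △ (.nil △ Y) := by
  obtain ⟨A, X, rfl, h1, _⟩ := h
  intro e
  exact h1 (H1.node_inj e).1

theorem Fh74.two' (h : Fh74 R) {Y : BinaryTree Unit} : R ≠ .nil △ (.nil △ Y) := by
  obtain ⟨A, X, rfl, h1, _⟩ := h
  intro e
  exact h1 (H1.node_inj e).1

/-- a word whose first component starts with two beads is not in the window -/
theorem two_ne_sq {X Z : BinaryTree Unit} (hR : Fh74 R) (hB : B = .nil ∨ Fh74 B) (hS : Fh74 S)
    {j : ℕ} (hj : j < 20) : (BinaryTree.nil △ (.nil △ X)) △ Z ≠ W R .nil B S j := by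
  intro e
  have e1 := congrArg H1.t3hd e
  have n1 : ∀ Y : BinaryTree Unit, H1.t3hd ((BinaryTree.nil △ (.nil △ X)) △ Z) ≠ H1.t3hd (.nil △ Y) := by
    intro Y; simp [H1.t3hd]
  have e2 : (BinaryTree.nil △ (.nil △ X)) = H1.t3hd (W R .nil B S j) := e1
  interval_cases j
  · exact hR.hd _ e2.symm
  · exact hR.hd _ e2.symm
  · exact n1 _ e1
  · exact hR.two _ e2.symm
  · exact absurd e2 (by simp [W, app, H1.t3hd])
  · exact n1 _ e1
  · exact hR.two' e2.symm
  · exact hR.one (H1.node_inj e2).2.symm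
  · exact n1 _ e1
  · exact absurd (H1.node_inj e2).1.symm hR.ne
  · rcases hB with hB | hB
    · subst hB
      exact absurd e2 (by simp [W, app, H1.t3hd])
    · exact hB.hd _ e2.symm
  · rcases hB with hB | hB
    · subst hB
      exact n1 _ e1
    · exact hB.hd _ e2.symm
  · exact hS.two' e2.symm
  · exact hS.hd _ e2.symm
  · exact hS.one (H1.node_inj e2).2.symm
  · exact n1 _ e1
  · exact hS.hd _ e2.symm
  · exact absurd (H1.node_inj e2).1.symm hS.ne
  · exact n1 _ e1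
  · exact hS.two _ e2.symm

/-- `NIS` words are no words of a window with `Q = nil` -/
theorem NIS.not_sq {w : X k} (h : NIS w) (h' : J3.SqD k' R B S) {i : ℕ} (hi : i < 20) :
    w.1 ≠ W R .nil B S i := fun e =>
  h.not (NJS.of_W h'.ne h'.neS h'.one h'.oneB h'.oneS hi (Or.inl e))

/-- a word `((Y))` in a window with `Q = nil`, word 9 included -/
theorem par2_sq {Y : BinaryTree Unit} (h' : J3.SqD k' R B S) (hY : Y ≠ .nil) {i : ℕ} (hi : i < 20)
    (e : (Y △ .nil) △ .nil = W R .nil B S i) : (i = 9 ∧ R = Y) ∨ (i = 17 ∧ S = Y ∧ B = .nil) := by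
  by_cases h9 : i = 9
  · subst h9
    left
    refine ⟨rfl, ?_⟩
    have e' : (Y △ .nil) △ .nil = (R △ .nil) △ .nil := e
    exact ((H1.node_inj (H1.node_inj e').1).1).symm
  · right
    exact par2_W h'.ne h'.neS hY hi h9 e

end SRun

open SRun H1

variable {k k' : ℕ} {R B S : BinaryTree Unit} {F F' : Set (Cyc k)} {g g' : DG k}

/-- **I-T-J2B** -/
theorem TyT.inner_sq (h : TyT F g) (h' : J3.SqD k' R B S) : ∀ p ∈ g.arcs, ∀ w ∈ innA p, ∀ i < 20,
    w.1 ≠ W R .nil B S i := by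
  intro p hp w hw i hi e
  obtain ⟨b, m, a, j, hm, e1⟩ := h.innerm p hp w hw
  obtain ⟨X, hX⟩ := H1.F3_two hm
  have e2 : H1.t3hd w.1 = .nil △ (.nil △ X) := by rw [e1, H1.Y3_hd, hX]
  have e3 : ∃ Z, w.1 = (.nil △ (.nil △ X)) △ Z := by
    cases hw1 : w.1 with
    | nil => rw [hw1] at e2; simp [H1.t3hd] at e2
    | node u A Z =>
      rw [hw1] at e2
      have e4 : A = .nil △ (.nil △ X) := e2
      exact ⟨Z, by rw [e4]⟩
  obtain ⟨Z, hZ⟩ := e3
  refine two_ne_sq (Fh74_of h'.ne h'.one) ?_ (Fh74_of h'.neS h'.oneS) hi (hZ.symm.trans e)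
  by_cases hB : B = .nil
  · exact Or.inl hB
  · exact Or.inr (Fh74_of hB h'.oneB)

/-- the content of the exceptional words -/
theorem J3.SqD.par2_cont (h' : J3.SqD k' R B S) {Y : BinaryTree Unit} (hY : Y ≠ .nil) {i : ℕ} (hi : i < 20)
    (e : (Y △ .nil) △ .nil = W R .nil B S i) : (i = 9 ∨ (i = 17 ∧ B = .nil)) ∧ OddHC.cont R = OddHC.cont Y := by
  rcases par2_sq h' hY hi e with ⟨h1, h2⟩ | ⟨h1, h2, h3⟩
  · exact ⟨Or.inl h1, by rw [h2]⟩
  · refine ⟨Or.inr ⟨h1, h3⟩, ?_⟩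
    have e3 := h'.cont
    rw [h3, cont_nil, zero_add] at e3
    rw [← e3, h2]

/-- **I-J1-J2B**, right, `s ≥ c + 2` -/
theorem J.J1A.inner_sq {s c : ℕ} (hc : 2 ≤ c) (hs : c + 2 ≤ s) (hA : J.J1A s c g) (h' : J3.SqD k' R B S) :
    ∀ p ∈ g.arcs, ∀ w ∈ innA p, ∀ i < 20, w.1 = W R .nil B S i →
      (i = 9 ∨ (i = 17 ∧ B = .nil)) ∧ OddHC.cont R = {c} + {s} := by
  intro p hp w hw i hi e
  rcases J1A.nis (by omega) hc hA p hp w hw with h | ⟨x, hx, rfl⟩
  · exact absurd e (h.not_sq h' hi)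
  · obtain ⟨m, rfl⟩ : ∃ m, s = m + 2 + c := ⟨s - c - 2, by omega⟩
    have e1 := TT_nine hx
    have hY := (cont_prn (m := m) (c := c) (by omega)).1
    have hY0 : prn m (app (ch c) (ch (c + 2))) ≠ .nil := by
      intro e0
      rw [e0, cont_nil] at hY
      have := congrArg Multiset.card hY
      simp at this
    obtain ⟨h1, h2⟩ := h'.par2_cont hY0 hi (e1.symm.trans e)
    refine ⟨h1, ?_⟩
    rw [h2, hY, show c + 2 + m = m + 2 + c by omega]

/-- **I-J1M-J2B**, mirrored, `s ≥ c + 2` -/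
theorem J.J1MA.inner_sq {s c : ℕ} (hc : 2 ≤ c) (hs : c + 2 ≤ s) (hA : J.J1MA s c g) (h' : J3.SqD k' R B S) :
    ∀ p ∈ g.arcs, ∀ w ∈ innA p, ∀ i < 20, w.1 = W R .nil B S i →
      (i = 9 ∨ (i = 17 ∧ B = .nil)) ∧ OddHC.cont R = {c} + {s} := by
  intro p hp w hw i hi e
  rcases J1MA.nis (by omega) hc hA p hp w hw with h | ⟨x, hx, rfl⟩
  · exact absurd e (h.not_sq h' hi)
  · obtain ⟨m, rfl⟩ : ∃ m, s = m + 2 + c := ⟨s - c - 2, by omega⟩
    have e1 := TT_nine hx
    have hY := (cont_prn (m := m) (c := c) (by omega)).2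
    have hY0 : prn m (app (ch (c + 2)) (ch c)) ≠ .nil := by
      intro e0
      rw [e0, cont_nil] at hY
      have := congrArg Multiset.card hY
      simp at this
    have e' : (Tsq.mirX (TT x)).1 = (prn m (app (ch (c + 2)) (ch c)) △ .nil) △ .nil := by
      change Tsq.mir (TT x).1 = _
      rw [e1]
      change Tsq.mir (prn (m + 2) (app (ch c) (ch (c + 2)))) = prn (m + 2) (app (ch (c + 2)) (ch c))
      rw [mir_prn, Tsq.mir_app, mir_ch, mir_ch]
    obtain ⟨h1, h2⟩ := h'.par2_cont hY0 hi (e'.symm.trans e)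
    refine ⟨h1, ?_⟩
    rw [h2, hY, show c + 2 + m = m + 2 + c by omega]

/-- **I-J1-J2B** for `TyJs` -/
theorem J1.TyJs.inner_sq (hk : 10 ≤ k) (h : J1.TyJs F g) (h' : J3.SqD k' R B S) :
    ∀ p ∈ g.arcs, ∀ w ∈ innA p, ∀ i < 20, w.1 = W R .nil B S i →
      (i = 9 ∨ (i = 17 ∧ B = .nil)) ∧ OddHC.cont R = {3} + {k - 5} := by
  obtain ⟨s, rfl, _, hA⟩ := h.isJ1
  simpa using hA.inner_sq (by norm_num) (by omega) h'

/-- **I-J1M-J2B** for `TyJt` -/
theorem J1.TyJt.inner_sq (hk : 12 ≤ k) (h : J1.TyJt F g) (h' : J3.SqD k' R B S) :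
    ∀ p ∈ g.arcs, ∀ w ∈ innA p, ∀ i < 20, w.1 = W R .nil B S i →
      (i = 9 ∨ (i = 17 ∧ B = .nil)) ∧ OddHC.cont R = {4} + {k - 6} := by
  obtain ⟨s, _, rfl, _, hA⟩ := h.isJ1M
  simpa using hA.inner_sq (by norm_num) (by omega) h'

end Pool.OddHC
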