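import Pool.Agent.Work.MP_8f87b2_h74.LRun
import Pool.Agent.Work.MP_8f87b2_h60.InRT
import Pool.Agent.Work.MP_8f87b2_h25.JEIn

/-!
# MP_8f87b2_co: inner words of the windows A, A0, B0, R3, S3, T against the J1 gadgets `TyJs` (right, `(s, 3, 2)`) and
`TyJt` (mirrored, `(s, 4, 2)`), `k ≥ 13`
-/

set_option autoImplicit false

namespace Pool.OddHC

open Finset Equiv BinaryTree Pool.Agent.Work.MP_8f87b2_co

namespace J1

open H1

variable {k : ℕ} {F F' : Set (Cyc k)} {g g' : DG k}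

/-- a window word against `TyJs`, both orientations -/
theorem win_not_Js {x : X k} {a b : List Bool} (hf : FM x.1 a b) {R Q B S : BinaryTree Unit} {i : ℕ}
    (hx : x.1 = W R Q B S i) (hR : R ≠ .nil) (hQ : Q ≠ .nil) (hi : i ∈ [0, 1, 3, 6, 8, 9])
    (h' : TyJs F' g') (hk : 13 ≤ k) : TT x ∉ g'.B ∧ Tsq.mirX (TT x) ∉ g'.B := by
  obtain ⟨n, h1, h2, h3, -⟩ := h'.words
  constructor
  · intro hw
    obtain ⟨j, hj, e⟩ := h3 _ hw
    obtain ⟨mid, N, n', cr, m1, m2, m3⟩ := LR_word hf (LR_js (by omega) hj e)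
    rw [hx] at m3
    exact W_noLR hR hQ hi (Or.inl m1) m2 m3
  · intro hw
    obtain ⟨j, hj, e⟩ := h3 _ hw
    have h4 := LR_jsm (by omega) hj e
    rw [show Tsq.mir (Tsq.mirX (TT x)).1 = (TT x).1 from Tsq.mir_mir _] at h4
    obtain ⟨mid, N, n', cr, m1, m2, m3⟩ := LR_word hf h4
    rw [hx] at m3
    exact W_noLR hR hQ hi (Or.inl m1) m2 m3

/-- a right window word against `TyJt` -/
theorem win_not_Jt {x : X k} {a b : List Bool} (hf : FM x.1 a b) {R Q B S : BinaryTree Unit} {i : ℕ}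
    (hx : x.1 = W R Q B S i) (hR : R ≠ .nil) (hQ : Q ≠ .nil) (hi : i ∈ [0, 1, 3, 6, 8, 9])
    (h' : TyJt F' g') (hk : 13 ≤ k) : TT x ∉ g'.B := by
  obtain ⟨n, h1, h2, h3, -⟩ := h'.words
  intro hw
  obtain ⟨j, hj, e⟩ := h3 _ hw
  have h4 := LR_jtm (by omega) hj e
  rw [Tsq.mir_mir] at h4
  obtain ⟨mid, N, n', cr, m1, m2, m3⟩ := LR_word hf h4
  rw [hx] at m3
  exact W_noLR hR hQ hi (Or.inl m1) m2 m3

theorem js74_ct1 {n : ℕ} (hn : 1 ≤ n) : (OddHC.cont ((ch n △ (ch 4 △ .nil)) △ .nil)).count 1 = 0 := by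
  obtain ⟨m, rfl⟩ : ∃ m, n = m + 1 := ⟨n - 1, by omega⟩
  have c4 : OddHC.cont (ch 4) = {4} := ch_cont 3
  have r1 : raise ({m + 1} : Multiset ℕ) = {m + 2} := raise_single _
  have r2 : raise ({4} : Multiset ℕ) = {5} := raise_single _
  rw [cont_node, cont_node, cont_node, c4, ch_cont, cont_nil, r1, r2, add_zero, add_zero]
  have hs : 5 ≤ ({m + 2} + {5} : Multiset ℕ).sup := Multiset.le_sup (by simp)
  rw [count_raise 1 (by omega) (by omega), Multiset.count_add, Multiset.count_singleton, Multiset.count_singleton,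
    if_neg (by omega), if_neg (by omega)]

theorem js74_ct2 {R Q : BinaryTree Unit} (hR : 2 ≤ OddHC.ht R) :
    1 ≤ (OddHC.cont (app R (.nil △ Q) △ .nil)).count 1 := by
  have hs : 2 ≤ (OddHC.cont (app R (.nil △ Q))).sup := by
    rw [← OddHC.ht_eq, OddHC.ht_app]
    omega
  rw [cont_node, cont_nil, add_zero, count_raise 1 (by omega) (by omega), cont_app, cont_node, cont_nil, raise_zero,
    Multiset.count_add, Multiset.count_add]
  simp
  omega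

/-- a mirrored window word against `TyJt` -/
theorem win_not_Jt' {x : X k} {a b : List Bool} (hf : FM x.1 a b) {R Q B S : BinaryTree Unit} {i : ℕ}
    (hx : x.1 = W R Q B S i) (hR : 2 ≤ OddHC.ht R) (hQ : Q ≠ .nil) (hi : i ∈ [0, 1, 3, 6, 8, 9]) {g0 : ℕ}
    (hin : InnP g0 (TT x).1) (h' : TyJt F' g') (hk : 13 ≤ k) : Tsq.mirX (TT x) ∉ g'.B := by
  obtain ⟨n, h1, h2, h3, -⟩ := h'.words
  have hR0 : R ≠ .nil := by
    rintro rfl
    rw [OddHC.ht] at hR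
    omega
  intro hw
  obtain ⟨j, hj, e⟩ := h3 _ hw
  rw [show Tsq.mir (Tsq.mirX (TT x)).1 = (TT x).1 from Tsq.mir_mir _] at e
  obtain ⟨h5, h6⟩ := LR_jt (by omega) hj e
  have g3 := hin.g3
  have key : ∀ t' : BinaryTree Unit, comps t' = jt n j → (TT x).1 = t' := fun t' h => comps_inj (e.trans h.symm)
  by_cases hj' : j ≠ 13 ∧ j ≠ 16 ∧ j ≠ 18 ∧ j ≠ 19
  · obtain ⟨mid, N, n', cr, m1, m2, m3⟩ := LR_word hf (h6 hj'.1 hj'.2.1 hj'.2.2.1 hj'.2.2.2)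
    rw [hx] at m3
    exact W_noLR hR0 hQ hi (Or.inl m1) m2 m3
  · obtain rfl | rfl | rfl | rfl : j = 13 ∨ j = 16 ∨ j = 18 ∨ j = 19 := by omega
    · have e1 := key (ch n △ ((ch 3 △ (.nil △ .nil)) △ .nil)) rfl
      have := hin.stop (n := 2) (v := wd (ch n △ .nil) ++ true :: wd (ch 3 △ .nil)) (by
        rw [e1, wd_node, wd_node, wd_node, wd_node, wd_node, wd_node]; simp [wd])
      omega
    · have e1 := key (ch n △ (ch 4 △ (.nil △ .nil))) rfl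
      exact hin.not_last (Y := ch n △ (ch 4 △ .nil)) e1
    · have e1 := key (.nil △ (ch n △ (ch 4 △ .nil))) rfl
      exact hin.not_first e1
    · by_cases h3 : i = 3
      · subst h3
        have e1 := key ((ch n △ (ch 4 △ .nil)) △ .nil) rfl
        have c1 := js74_ct1 (n := n) (by omega)
        rw [← e1, H1.cont_TT, hx] at c1
        have c2 := js74_ct2 (R := R) (Q := Q) hR
        change 1 ≤ (OddHC.cont (W R Q B S 3)).count 1 at c2
        omega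
      · obtain ⟨mid, N, n', cr, m1, m2, m3⟩ := LR_word hf h5
        rw [hx] at m3
        exact W_noLR hR0 hQ hi (Or.inr ⟨m1, h3⟩) m2 m3

theorem js74_ch_ne (q : ℕ) : ch (q + 1) ≠ .nil := by rw [ch_succ]; simp

/-- **the bare windows, both orientations, against `TyJs`** -/
theorem _root_.Pool.OddHC.HM.NodeM.not_Js {q : ℕ} {R B S : BinaryTree Unit} (h : HM.NodeM k q R B S) (w0 : X k) {i : ℕ}
    (hi : i ∈ [0, 1, 3, 6, 8, 9]) (h' : TyJs F' g') (hk : 13 ≤ k) :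
    TT (wX R B S q w0 i) ∉ g'.B ∧ Tsq.mirX (TT (wX R B S q w0 i)) ∉ g'.B := by
  obtain ⟨a, b, hf⟩ := h.fmt
  have hi' : i < 20 := by
    simp only [List.mem_cons, List.not_mem_nil, or_false] at hi
    omega
  obtain ⟨a', b', hf'⟩ := FMT_W (q := q) (B := B) (S := S) hf (by rw [H1.ht_eq]; exact h.top.le) i hi
  have hx := wX_eq h.dat h.size w0 hi'
  rw [← hx] at hf'
  exact win_not_Js hf'.fm hx h.ne (js74_ch_ne q) hi h' hk

/-- **the bare windows, both orientations, against `TyJt`** -/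
theorem _root_.Pool.OddHC.HM.NodeM.not_Jt {q : ℕ} {R B S : BinaryTree Unit} (h : HM.NodeM k q R B S) (w0 : X k) {i : ℕ}
    (hi : i ∈ [0, 1, 3, 6, 8, 9]) (h' : TyJt F' g') (hk : 13 ≤ k) :
    TT (wX R B S q w0 i) ∉ g'.B ∧ Tsq.mirX (TT (wX R B S q w0 i)) ∉ g'.B := by
  obtain ⟨a, b, hf⟩ := h.fmt
  have hi' : i < 20 := by
    simp only [List.mem_cons, List.not_mem_nil, or_false] at hi
    omega
  obtain ⟨a', b', hf'⟩ := FMT_W (q := q) (B := B) (S := S) hf (by rw [H1.ht_eq]; exact h.top.le) i hi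
  have hx := wX_eq h.dat h.size w0 hi'
  have htop := h.top
  rw [← hx] at hf'
  exact ⟨win_not_Jt hf'.fm hx h.ne (js74_ch_ne q) hi h' hk,
    win_not_Jt' hf'.fm hx (by omega) (js74_ch_ne q) hi (h.inn w0 hi).1 h' hk⟩

/-- **the windows of type A against `TyJs`, `TyJt`** -/
theorem _root_.Pool.OddHC.H1.NodeG.not_Js {q : ℕ} {B1 H s B : BinaryTree Unit} (h : NodeG k q B1 H s B) (w0 : X k) {i : ℕ}
    (hi : i ∈ [0, 1, 3, 6, 8, 9]) (h' : TyJs F' g') (hk : 13 ≤ k) : TT (gX q B1 H s B w0 i) ∉ g'.B := by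
  obtain ⟨u, v, hf⟩ := h.fmrW h.fmr w0 i hi
  have hi' : i < 20 := by
    simp only [List.mem_cons, List.not_mem_nil, or_false] at hi
    omega
  exact (win_not_Js hf.fm (h.word w0 hi') (by unfold gR; exact app_ne (by simp)) (js74_ch_ne q) hi h' hk).1

theorem _root_.Pool.OddHC.H1.NodeG.not_Jt {q : ℕ} {B1 H s B : BinaryTree Unit} (h : NodeG k q B1 H s B) (w0 : X k) {i : ℕ}
    (hi : i ∈ [0, 1, 3, 6, 8, 9]) (h' : TyJt F' g') (hk : 13 ≤ k) : TT (gX q B1 H s B w0 i) ∉ g'.B := by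
  obtain ⟨u, v, hf⟩ := h.fmrW h.fmr w0 i hi
  have hi' : i < 20 := by
    simp only [List.mem_cons, List.not_mem_nil, or_false] at hi
    omega
  exact win_not_Jt hf.fm (h.word w0 hi') (by unfold gR; exact app_ne (by simp)) (js74_ch_ne q) hi h' hk

/-- height of the words -/
theorem jt_ht {n j : ℕ} (hj : j < 20) {t : BinaryTree Unit} (e : comps t = jt n j) : n + 1 ≤ OddHC.ht t := by
  have key : ∀ t' : BinaryTree Unit, comps t' = jt n j → t = t' := fun t' h => comps_inj (e.trans h.symm)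
  have h0 : OddHC.ht (.nil : BinaryTree Unit) = 0 := rfl
  interval_cases j
  · rw [key (ch n △ (ch 3 △ (ch 1 △ .nil))) rfl]
    simp only [OddHC.ht_node, H1.ch_ht, h0]
    omega
  · rw [key (ch n △ (ch 3 △ (.nil △ (.nil △ .nil)))) rfl]
    simp only [OddHC.ht_node, H1.ch_ht, h0]
    omega
  · rw [key (.nil △ (ch n △ (ch 3 △ (.nil △ .nil)))) rfl]
    simp only [OddHC.ht_node, H1.ch_ht, h0]
    omega
  · rw [key ((ch n △ (ch 3 △ (.nil △ .nil))) △ .nil) rfl]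
    simp only [OddHC.ht_node, H1.ch_ht, h0]
    omega
  · rw [key (ch 1 △ (ch n △ (ch 3 △ .nil))) rfl]
    simp only [OddHC.ht_node, H1.ch_ht, h0]
    omega
  · rw [key (.nil △ (.nil △ (ch n △ (ch 3 △ .nil)))) rfl]
    simp only [OddHC.ht_node, H1.ch_ht, h0]
    omega
  · rw [key ((ch n △ ch 4) △ (.nil △ .nil)) rfl]
    simp only [OddHC.ht_node, H1.ch_ht, h0]
    omega
  · rw [key ((.nil △ (ch n △ ch 4)) △ .nil) rfl]
    simp only [OddHC.ht_node, H1.ch_ht, h0]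
    omega
  · rw [key (.nil △ ((ch n △ ch 4) △ .nil)) rfl]
    simp only [OddHC.ht_node, H1.ch_ht, h0]
    omega
  · rw [key (((ch n △ ch 4) △ .nil) △ .nil) rfl]
    simp only [OddHC.ht_node, H1.ch_ht, h0]
    omega
  · rw [key (ch 3 △ (ch 1 △ (ch n △ .nil))) rfl]
    simp only [OddHC.ht_node, H1.ch_ht, h0]
    omega
  · rw [key (ch 3 △ (.nil △ (.nil △ (ch n △ .nil)))) rfl]
    simp only [OddHC.ht_node, H1.ch_ht, h0]
    omega
  · rw [key (ch (n + 1) △ (ch 3 △ (.nil △ .nil))) rfl]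
    simp only [OddHC.ht_node, H1.ch_ht, h0]
    omega
  · rw [key (ch n △ ((ch 3 △ (.nil △ .nil)) △ .nil)) rfl]
    simp only [OddHC.ht_node, H1.ch_ht, h0]
    omega
  · rw [key ((.nil △ ch (n + 1)) △ (ch 3 △ .nil)) rfl]
    simp only [OddHC.ht_node, H1.ch_ht, h0]
    omega
  · rw [key (.nil △ (ch (n + 1) △ (ch 3 △ .nil))) rfl]
    simp only [OddHC.ht_node, H1.ch_ht, h0]
    omega
  · rw [key (ch n △ (ch 4 △ (.nil △ .nil))) rfl]
    simp only [OddHC.ht_node, H1.ch_ht, h0]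
    omega
  · rw [key ((ch (n + 1) △ ch 4) △ .nil) rfl]
    simp only [OddHC.ht_node, H1.ch_ht, h0]
    omega
  · rw [key (.nil △ (ch n △ (ch 4 △ .nil))) rfl]
    simp only [OddHC.ht_node, H1.ch_ht, h0]
    omega
  · rw [key ((ch n △ (ch 4 △ .nil)) △ .nil) rfl]
    simp only [OddHC.ht_node, H1.ch_ht, h0]
    omega

theorem TyJt.big (h : TyJt F g) (hk : 13 ≤ k) : ∀ w ∈ g.B, 7 ≤ OddHC.ht w.1 := by
  obtain ⟨n, h1, h2, h3, -⟩ := h.words
  intro w hw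
  obtain ⟨j, hj, e⟩ := h3 w hw
  have h4 := jt_ht hj e
  rw [HM.ht_mir] at h4
  omega

end J1

open J1 H1 HM

variable {k : ℕ} {F F' : Set (Cyc k)} {g g' : DG k}

/-- **I-A-J1m** -/
theorem TyA.inner_Jt (h : TyA F g) (h' : TyJt F' g') (hk : 13 ≤ k) : ∀ p ∈ g.arcs, ∀ w ∈ innA p, w ∉ g'.B := by
  obtain ⟨q, B1, H, s, B, w0, hG, rfl, rfl⟩ := h
  intro p hp w hw
  have hw2 : w = TT p.1 := hw
  subst hw2
  have hp' : p = (gX q B1 H s B w0 0, gX q B1 H s B w0 10) ∨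
      p = (gX q B1 H s B w0 1, gX q B1 H s B w0 11) ∨
      p = (gX q B1 H s B w0 3, gX q B1 H s B w0 12) ∨
      p = (gX q B1 H s B w0 6, gX q B1 H s B w0 15) ∨
      p = (gX q B1 H s B w0 8, gX q B1 H s B w0 14) ∨
      p = (gX q B1 H s B w0 9, gX q B1 H s B w0 17) := hp
  rcases hp' with rfl | rfl | rfl | rfl | rfl | rfl
  · exact hG.not_Jt w0 (i := 0) (by simp) h' hk
  · exact hG.not_Jt w0 (i := 1) (by simp) h' hk
  · exact hG.not_Jt w0 (i := 3) (by simp) h' hk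
  · exact hG.not_Jt w0 (i := 6) (by simp) h' hk
  · exact hG.not_Jt w0 (i := 8) (by simp) h' hk
  · exact hG.not_Jt w0 (i := 9) (by simp) h' hk

/-- **I-A0-J1** -/
theorem TyA0.inner_Js (h : TyA0 F g) (h' : TyJs F' g') (hk : 13 ≤ k) : ∀ p ∈ g.arcs, ∀ w ∈ innA p, w ∉ g'.B := by
  obtain ⟨q, R, B, S, w0, h1, -, hA⟩ := h.inn
  intro p hp w hw
  obtain ⟨i, hi, e⟩ := hA p hp
  rw [e] at hw
  obtain rfl : w = Tsq.mirX (TT (wX R B S q w0 i)) := hw
  exact (h1.not_Js w0 hi h' hk).2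

/-- **I-A0-J1m** -/
theorem TyA0.inner_Jt (h : TyA0 F g) (h' : TyJt F' g') (hk : 13 ≤ k) : ∀ p ∈ g.arcs, ∀ w ∈ innA p, w ∉ g'.B := by
  obtain ⟨q, R, B, S, w0, h1, -, hA⟩ := h.inn
  intro p hp w hw
  obtain ⟨i, hi, e⟩ := hA p hp
  rw [e] at hw
  obtain rfl : w = Tsq.mirX (TT (wX R B S q w0 i)) := hw
  exact (h1.not_Jt w0 hi h' hk).2

/-- **I-B0-J1** -/
theorem TyB0.inner_Js (h : TyB0 F g) (h' : TyJs F' g') (hk : 13 ≤ k) : ∀ p ∈ g.arcs, ∀ w ∈ innA p, w ∉ g'.B := by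
  obtain ⟨q, R, B, S, w0, h1, -, hA⟩ := h.inn
  intro p hp w hw
  obtain ⟨i, hi, e⟩ := hA p hp
  rw [e] at hw
  obtain rfl : w = Tsq.mirX (TT (wX R B S q w0 i)) := hw
  have hi2 : i ∈ [0, 1, 3, 6, 8, 9] := by
    simp only [List.mem_cons, List.not_mem_nil, or_false] at hi ⊢
    omega
  exact (h1.not_Js w0 hi2 h' hk).2

/-- **I-B0-J1m** -/
theorem TyB0.inner_Jt (h : TyB0 F g) (h' : TyJt F' g') (hk : 13 ≤ k) : ∀ p ∈ g.arcs, ∀ w ∈ innA p, w ∉ g'.B := by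
  obtain ⟨q, R, B, S, w0, h1, -, hA⟩ := h.inn
  intro p hp w hw
  obtain ⟨i, hi, e⟩ := hA p hp
  rw [e] at hw
  obtain rfl : w = Tsq.mirX (TT (wX R B S q w0 i)) := hw
  have hi2 : i ∈ [0, 1, 3, 6, 8, 9] := by
    simp only [List.mem_cons, List.not_mem_nil, or_false] at hi ⊢
    omega
  exact (h1.not_Jt w0 hi2 h' hk).2

/-- **I-R3-J1, I-R3-J1m** -/
theorem TyR3.inner_Js (h : TyR3 F g) (h' : TyJs F' g') (hk : 13 ≤ k) : ∀ p ∈ g.arcs, ∀ w ∈ innA p, w ∉ g'.B := by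
  intro p hp w hw
  obtain ⟨R, B, S, w0, i, h1, -, -, hi, e1, -⟩ := h.inn p hp
  have hw2 : w = TT p.1 := hw
  rw [e1] at hw2
  rw [hw2]
  exact (h1.not_Js w0 hi h' hk).1

theorem TyR3.inner_Jt (h : TyR3 F g) (h' : TyJt F' g') (hk : 13 ≤ k) : ∀ p ∈ g.arcs, ∀ w ∈ innA p, w ∉ g'.B := by
  intro p hp w hw
  obtain ⟨R, B, S, w0, i, h1, -, -, hi, e1, -⟩ := h.inn p hp
  have hw2 : w = TT p.1 := hw
  rw [e1] at hw2
  rw [hw2]
  exact (h1.not_Jt w0 hi h' hk).1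

/-- **I-S3-J1, I-S3-J1m** -/
theorem TyS3.inner_Js (h : TyS3 F g) (h' : TyJs F' g') (hk : 13 ≤ k) : ∀ p ∈ g.arcs, ∀ w ∈ innA p, w ∉ g'.B := by
  intro p hp w hw
  obtain ⟨R, B, S, w0, i, h1, -, hi, e1, -⟩ := h.inn p hp
  have hw2 : w = TT p.1 := hw
  rw [e1] at hw2
  rw [hw2]
  have hi2 : i ∈ [0, 1, 3, 6, 8, 9] := by
    simp only [List.mem_cons, List.not_mem_nil, or_false] at hi ⊢
    omega
  exact (h1.not_Js w0 hi2 h' hk).1

theorem TyS3.inner_Jt (h : TyS3 F g) (h' : TyJt F' g') (hk : 13 ≤ k) : ∀ p ∈ g.arcs, ∀ w ∈ innA p, w ∉ g'.B := by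
  intro p hp w hw
  obtain ⟨R, B, S, w0, i, h1, -, hi, e1, -⟩ := h.inn p hp
  have hw2 : w = TT p.1 := hw
  rw [e1] at hw2
  rw [hw2]
  have hi2 : i ∈ [0, 1, 3, 6, 8, 9] := by
    simp only [List.mem_cons, List.not_mem_nil, or_false] at hi ⊢
    omega
  exact (h1.not_Jt w0 hi2 h' hk).1

/-- **I-T-J1m** -/
theorem TyT.inner_Jt (h : TyT F g) (h' : TyJt F' g') (hk : 13 ≤ k) : ∀ p ∈ g.arcs, ∀ w ∈ innA p, w ∉ g'.B := by
  intro p hp w hw hw'
  have h1 := h'.big hk w hw'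
  obtain ⟨m, _, hB, _⟩ := h.path p hp
  obtain ⟨b, m, a, i, _, hi, e⟩ := h.word hB
  have h2 := ht_w3 b m a hi
  rw [← e] at h2
  obtain rfl : w = TT p.1 := by
    obtain ⟨b, m, a, w0, h1, rfl, rfl⟩ := h
    exact hw
  rw [OddHC.ht_eq, H1.cont_TT, ← OddHC.ht_eq] at h1
  omega

end Pool.OddHC
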