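import Pool.Agent.Work.MP_8f87b2_h58.InA0
import Pool.Agent.Work.MP_8f87b2_h20.S5Ty

/-!
# MP_8f87b2_co: rows W-A0-S5 and I-A0-S5

* `TyA0.disS5`: a word of a window of type A0 is not a word of a link of type S5 (the contents differ, except for one word
  with `d = 0`, which is excluded by the first light component);
* `TyA0.inner_S5`: the inner words of the arcs of a window of type A0 are not words of a link of type S5
  (they start with `1^g` and end with `0^g`, `g ≥ 3`).
-/

set_option autoImplicit false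

namespace Pool.OddHC

open BinaryTree Multiset Equiv Pool.Agent.Work.MP_8f87b2_co HM

variable {k : ℕ} {F F' : Set (Cyc k)} {g g' : DG k}

theorem a5_count_smc (d κ : ℕ) : (smc d κ).count 1 ≤ 3 ∧ ((smc d κ).count 1 = 3 → d = 0 ∧ κ = 1) ∧
    (smc d κ).count 2 ≤ 1 ∧ ((smc d κ).count 1 = 3 → (smc d κ).count 2 = 0) := by
  rcases d with _ | _ | d <;> rcases κ with _ | _ | _ | _ | _ | κ <;>
    simp [smc, Multiset.count_singleton] <;> omega

/-- beads and parts 2 of the words of a bead free absorber -/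
theorem A0D.a5_count_aw {d : ℕ} {R B S : BinaryTree Unit} (h : A0D d R B S) {i : ℕ} (hi : i < 20) :
    (cont (aw R (pc (d + 1)) B S i)).count 1 ≤ 3 ∧
      (cont (aw R (pc (d + 1)) B S i)).count 2 ≤ 1 ∧
      ((cont (aw R (pc (d + 1)) B S i)).count 1 = 3 → (cont (aw R (pc (d + 1)) B S i)).count 2 = 0 ∧
        d = 0 ∧ (i = 1 ∨ i = 2 ∨ i = 11 ∨ (i = 18 ∧ B = .nil))) := by
  obtain ⟨e, he⟩ : ∃ e : Bool, e = true ↔ B = .nil := by
    by_cases hB : B = .nil
    · exact ⟨true, by simp [hB]⟩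
    · exact ⟨false, by simp [hB]⟩
  obtain ⟨H, h1, h2, -, -⟩ := cont_aw h he hi
  have c1 : H.count 1 = 0 := Multiset.count_eq_zero.2 fun hm => by have := h2 _ hm; omega
  have c2 : H.count 2 = 0 := Multiset.count_eq_zero.2 fun hm => by have := h2 _ hm; omega
  obtain ⟨s1, s2, s3, s4⟩ := a5_count_smc d (kap e i)
  rw [h1, Multiset.count_add, Multiset.count_add, c1, c2, add_zero, add_zero]
  refine ⟨s1, s3, fun hc => ⟨s4 hc, (s2 hc).1, ?_⟩⟩
  have hk := (s2 hc).2
  clear h1 s1 s2 s3 s4 hc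
  interval_cases i <;> cases e <;> simp [kap] at hk ⊢
  exact he.1 rfl

theorem a5_no {d : ℕ} {R B S t : BinaryTree Unit} (h : A0D d R B S) {i : ℕ} (hi : i < 20)
    (e : t = aw R (pc (d + 1)) B S i)
    (hc : 4 ≤ (cont t).count 1 ∨ 2 ≤ (cont t).count 2 ∨ ((cont t).count 1 = 3 ∧ 1 ≤ (cont t).count 2)) :
    False := by
  obtain ⟨h1, h2, h3⟩ := h.a5_count_aw hi
  rw [← e] at h1 h2 h3
  rcases hc with hc | hc | ⟨hc, hc'⟩
  · omega
  · omega
  · have := (h3 hc).1
    omega

theorem a5_raise_rep (m : ℕ) : raise (Multiset.replicate (m + 1) 1) = Multiset.replicate m 1 + {2} := by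
  have h0 : (Multiset.replicate (m + 1) 1).sup = 1 := by
    rw [Multiset.replicate_succ, Multiset.sup_cons]
    apply le_antisymm
    · apply sup_le le_rfl
      apply Multiset.sup_le.2
      intro x hx
      rw [Multiset.eq_of_mem_replicate hx]
    · exact le_sup_left
  unfold raise
  rw [h0, Multiset.replicate_succ, Multiset.erase_cons_head, ← Multiset.singleton_add, add_comm]

theorem a5_cont_lp (m : ℕ) : cont (lp m) = Multiset.replicate m 1 := by
  unfold lp
  rw [cont_lv, cont_nil, add_zero]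

theorem a5_raise_S {s m : ℕ} (hs : 1 < s) :
    raise ({s} + Multiset.replicate m 1) = {s + 1} + Multiset.replicate m 1 := by
  have h0 : (({s} : Multiset ℕ) + Multiset.replicate m 1).sup = s := by
    rw [sup_add', Multiset.sup_singleton]
    apply max_eq_left
    apply Multiset.sup_le.2
    intro x hx
    rw [Multiset.eq_of_mem_replicate hx]
    exact hs.le
  unfold raise
  rw [h0, Multiset.erase_add_left_pos _ (Multiset.mem_singleton_self _), Multiset.erase_singleton, zero_add,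
    ← Multiset.singleton_add]

theorem a5_lpS (m : ℕ) : lp (m + 1) = app (lp m) (.nil △ .nil) := by
  induction m with
  | zero => rfl
  | succ m ih =>
    change (.nil △ lp (m + 1)) = .nil △ app (lp m) (.nil △ .nil)
    rw [ih]

/-- the words of S5 are not words of a bead free absorber -/
theorem a5_word {s n : ℕ} (hs : 3 ≤ s) (hn : 2 ≤ n) {P Q T t : BinaryTree Unit}
    (hP : (P = lp (n + 2) ∧ Q = H1.ch s ∧ T = .nil) ∨ (P = .nil ∧ Q = H1.ch s ∧ T = lp (n + 2)) ∨
      (P = lp 1 ∧ Q = app (H1.ch s) (lp n) ∧ T = H1.ch 2))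
    (ht : t = w1 P Q T ∨ t = w1 Q T P ∨ t = w1 T P Q)
    {d : ℕ} {R B S : BinaryTree Unit} (h : A0D d R B S) {i : ℕ} (hi : i < 20)
    (e : t = aw R (pc (d + 1)) B S i) : False := by
  obtain ⟨s, rfl⟩ : ∃ s', s = s' + 1 := ⟨s - 1, by omega⟩
  have cs := H1.ch_cont s
  have c1 : cont (H1.ch 2) = {2} := H1.ch_cont 1
  have r1 : raise ({s + 1} : Multiset ℕ) = {s + 2} := raise_single _
  have r2 : raise ({2} : Multiset ℕ) = {3} := raise_single _
  have r3 := a5_raise_rep (n + 1)
  have r4 : raise ({1} : Multiset ℕ) = {2} := raise_single _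
  have r5 := a5_raise_S (s := s + 1) (m := n) (by omega)
  have r6 : (Multiset.replicate 1 1 : Multiset ℕ) = {1} := rfl
  have n1 : ∀ a b : ℕ, a ≠ b → Multiset.count a ({b} : Multiset ℕ) = 0 := by
    intro a b hab
    rw [Multiset.count_singleton, if_neg hab]
  have n2 : ∀ a : ℕ, Multiset.count a ({a} : Multiset ℕ) = 1 := fun a => Multiset.count_singleton_self a
  have n3 : ∀ m : ℕ, Multiset.count 1 (Multiset.replicate m 1) = m := fun m => Multiset.count_replicate_self _ _
  have n4 : ∀ m : ℕ, Multiset.count 2 (Multiset.replicate m 1) = 0 := fun m => by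
    rw [Multiset.count_replicate, if_neg (by norm_num)]
  have a1 := n1 1 (s + 1) (by omega)
  have a2 := n1 2 (s + 1) (by omega)
  have a3 := n1 1 (s + 2) (by omega)
  have a4 := n1 2 (s + 2) (by omega)
  have a5 := n1 1 2 (by omega)
  have a6 := n1 2 1 (by omega)
  have a7 := n1 1 3 (by omega)
  have a8 := n1 2 3 (by omega)
  rcases hP with ⟨rfl, rfl, rfl⟩ | ⟨rfl, rfl, rfl⟩ | ⟨rfl, rfl, rfl⟩
  · rcases ht with rfl | rfl | rfl <;> apply a5_no h hi e <;>
      simp only [w1, cont_app, cont_node, cont_nil, a5_cont_lp, cs, r1, r3, raise_zero, Multiset.count_add, a1, a2, a3, a4,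
        a5, a6, n2, n3, n4, Multiset.count_zero, add_zero, zero_add] <;> omega
  · rcases ht with rfl | rfl | rfl <;> apply a5_no h hi e <;>
      simp only [w1, cont_app, cont_node, cont_nil, a5_cont_lp, cs, r1, r3, raise_zero, Multiset.count_add, a1, a2, a3, a4,
        a5, a6, n2, n3, n4, Multiset.count_zero, add_zero, zero_add] <;> omega
  · rcases ht with rfl | rfl | rfl
    · apply a5_no h hi e
      simp only [w1, cont_app, cont_node, cont_nil, a5_cont_lp, cs, c1, r5, r6, Multiset.count_add, a3, a4, a5, a6,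
        n2, n3, n4, add_zero, zero_add]
      omega
    · by_cases hn2 : n = 2
      · subst hn2
        have k1 : (cont (w1 (app (H1.ch (s + 1)) (lp 2)) (H1.ch 2) (lp 1))).count 1 = 3 := by
          simp only [w1, cont_app, cont_node, cont_nil, a5_cont_lp, cs, c1, r2, r6, Multiset.count_add, a1, a7, n2, n3,
            add_zero, zero_add]
        obtain ⟨-, -, h3⟩ := h.a5_count_aw hi
        rw [← e] at h3
        obtain ⟨-, rfl, h4⟩ := h3 k1
        have f1 : fs (w1 (app (H1.ch (s + 1)) (lp 2)) (H1.ch 2) (lp 1)) = H1.ch s := rfl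
        have f2 : H1.ch s ≠ .nil := by
          obtain ⟨m, rfl⟩ : ∃ m, s = m + 1 := ⟨s - 1, by omega⟩
          exact fun hh => by cases hh
        rcases h4 with rfl | rfl | rfl | ⟨rfl, rfl⟩
        · apply f2
          rw [← f1, e]; rfl
        · apply f2
          rw [← f1, e]; rfl
        · have e1 : app (H1.ch (s + 1)) (.nil △ (.nil △ (H1.ch 2 △ lp 1))) =
              app S (.nil △ app (pc (0 + 1)) (.nil △ B)) := e
          have hH : Hv 0 (H1.ch (s + 1)) := by
            intro x hx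
            rw [cs, Multiset.mem_singleton] at hx
            omega
          have hl : lo 0 .nil ≠ 0 := by rw [lo_nil]; omega
          obtain ⟨-, -, e2⟩ := hv_split hl hl hH h.hvS e1
          have e3 : (H1.ch 2 △ lp 1) = (.nil △ B) := congrArg tl e2
          have e4 : H1.ch 2 = .nil := congrArg fs e3
          cases e4
        · apply f2
          rw [← f1, e]; rfl
      · apply a5_no h hi e
        simp only [w1, cont_app, cont_node, cont_nil, a5_cont_lp, cs, c1, r2, r6, Multiset.count_add, a1, a2, a6, a7, a8,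
          n2, n3, n4, add_zero, zero_add]
        omega
    · apply a5_no h hi e
      simp only [w1, cont_app, cont_node, cont_nil, a5_cont_lp, cs, c1, r4, r6, Multiset.count_add, a1, a2, a5, a6,
        n2, n3, n4, add_zero, zero_add]
      omega

/-- the forms of the words of S5 -/
theorem TyS5.a5_words (h : TyS5 F g) : ∃ s n : ℕ, 3 ≤ s ∧ 2 ≤ n ∧ ∃ P Q T : BinaryTree Unit,
    ((P = lp (n + 2) ∧ Q = H1.ch s ∧ T = .nil) ∨ (P = .nil ∧ Q = H1.ch s ∧ T = lp (n + 2)) ∨
      (P = lp 1 ∧ Q = app (H1.ch s) (lp n) ∧ T = H1.ch 2)) ∧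
    ∀ w ∈ g.B, w.1 = w1 P Q T ∨ w.1 = w1 Q T P ∨ w.1 = w1 T P Q := by
  obtain ⟨s, n, hs, hn, h | h | h⟩ := h
  · refine ⟨s, n, hs, hn, _, _, _, Or.inl ⟨rfl, rfl, rfl⟩, ?_⟩
    intro w hw
    exact (h.words w hw).imp_right And.right
  · refine ⟨s, n, hs, hn, _, _, _, Or.inr (Or.inl ⟨rfl, rfl, rfl⟩), ?_⟩
    intro w hw
    exact (h.words w hw).imp_right And.right
  · refine ⟨s, n, hs, hn, _, _, _, Or.inr (Or.inr ⟨rfl, rfl, rfl⟩), ?_⟩
    intro w hw
    exact (h.words w hw).imp_right And.right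

/-- **W-A0-S5** -/
theorem TyA0.disS5 (h : TyA0 F g) (h' : TyS5 F' g') : ∀ w ∈ g.B, w ∉ g'.B := by
  obtain ⟨q, R, B, S, w0, h1, hne, rfl, rfl⟩ := h
  obtain ⟨s, n, hs, hn, P, Q, T, hP, h2⟩ := h'.a5_words
  intro w hw hw'
  obtain ⟨i, hi, rfl⟩ := mem_gad20M.1 hw
  exact a5_word hs hn hP (h2 _ hw') h1.a0d hi (h1.word' w0 hi)

theorem dj_A0S5 : Dj (k := k) TyA0 TyS5 := fun _ _ _ _ h h' _ => h.disS5 h'

/-- an inner word of a bare window is not a word of S5 -/
theorem H1.InnP.js74_not_S5 {g0 : ℕ} {w : X k} (h : H1.InnP g0 w.1) (h' : TyS5 F' g') : w ∉ g'.B := by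
  have g3 := h.g3
  obtain ⟨s, n, hs, hn, P, Q, T, hP, h2⟩ := h'.a5_words
  intro hw
  have h3 := h2 w hw
  have wl : ∀ m, wd (lp (m + 1)) = true :: false :: wd (lp m) := by
    intro m
    change wd (.nil △ lp m) = _
    rw [wd_node]
    rfl
  rcases hP with ⟨rfl, rfl, rfl⟩ | ⟨rfl, rfl, rfl⟩ | ⟨rfl, rfl, rfl⟩
  · rcases h3 with e | e | e
    · exact h.not_first (Y := app (lp (n + 1)) (H1.ch s △ .nil)) e
    · obtain ⟨Y, hY⟩ : ∃ Y, lp (n + 2) = app Y (.nil △ .nil) := ⟨lp (n + 1), a5_lpS _⟩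
      apply h.not_last (Y := app (H1.ch s) (.nil △ Y))
      rw [e, w1, hY, app_assoc]
      rfl
    · have h4 := h.start (n := 2) (v := wd (lp (n + 1)) ++ false :: wd (H1.ch s)) (by
        rw [e]
        change wd (lp (n + 2) △ H1.ch s) = _
        rw [wd_node, wl]
        simp)
      omega
  · rcases h3 with e | e | e
    · obtain ⟨Y, hY⟩ : ∃ Y, lp (n + 2) = app Y (.nil △ .nil) := ⟨lp (n + 1), a5_lpS _⟩
      apply h.not_last (Y := H1.ch s △ Y)
      rw [e]
      change H1.ch s △ lp (n + 2) = H1.ch s △ app Y (.nil △ .nil)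
      rw [hY]
    · obtain ⟨Y, hY⟩ : ∃ Y, lp (n + 2) = app Y (.nil △ .nil) := ⟨lp (n + 1), a5_lpS _⟩
      have h4 := h.stop (n := 2) (v := wd (H1.ch s) ++ true :: wd Y) (by
        rw [e]
        change wd (app (H1.ch s) (lp (n + 2) △ .nil)) = _
        rw [wd_app, wd_node, hY, wd_app, wd_node]
        simp [wd])
      omega
    · exact h.not_first (Y := app (lp (n + 1)) (.nil △ H1.ch s)) e
  · rcases h3 with e | e | e
    · exact h.not_first (Y := app (H1.ch s) (lp n) △ H1.ch 2) e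
    · apply h.not_last (Y := app (app (H1.ch s) (lp n)) (H1.ch 2 △ .nil))
      rw [e, w1, app_assoc, app_assoc, app_assoc]
      rfl
    · have h4 := h.start (n := 2) (v := false :: wd (lp 1 △ app (H1.ch s) (lp n))) (by
        rw [e]
        change wd ((.nil △ .nil) △ (lp 1 △ app (H1.ch s) (lp n))) = _
        rw [wd_node, wd_node]
        simp [wd])
      omega

/-- **I-A0-S5** -/
theorem TyA0.inner_S5 (h : TyA0 F g) (h' : TyS5 F' g') : ∀ p ∈ g.arcs, ∀ w ∈ innA p, w ∉ g'.B := by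
  obtain ⟨q, h1⟩ := h.inn1
  intro p hp w hw
  exact (h1 p hp w hw).1.js74_not_S5 h'

end Pool.OddHC
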