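import Pool.Agent.Work.MP_8f87b2_t2.Arcs
import Pool.Agent.Work.MP_8f87b2_base.Gad9M
import Pool.Agent.Work.MP_8f87b2_h35.Links

/-!
MP_8f87b2_co: the 9-word pair gadget in a general block `[A4; A0, A1, A2, A3]` with a general triple (`gad9g_abs`,
mirror `gad9Mg_abs`), and the LEVEL 3 gadget: block `[S; e, P, Q, e]`, new words `S((P)Q)`, `(P(Q))S`; triple
`P(QX)`, `QX()P`, `(P)QX`, `X = xT S`.
-/

set_option autoImplicit false

namespace Pool.OddHC

open Finset BinaryTree Equiv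

variable {k : ℕ}

/-! ### The general block -/

/-- star positions -/
def s9g (n0 n1 n2 n3 p q : ℕ) (i : ℕ) : ℕ := if i < 6 then bs n0 n1 n2 n3 (ix9 i) else ts p q (i - 6)

theorem hfr9g {A0 A1 A2 A3 A4 P Q R : BinaryTree Unit}
    (hA : A0.numNodes + A1.numNodes + A2.numNodes + A3.numNodes + A4.numNodes + 2 = k)
    (hP : P.numNodes + Q.numNodes + R.numNodes + 1 = k)
    {w : ℕ → X k} (hw : ∀ i < 6, (w i).1 = bw A0 A1 A2 A3 A4 (ix9 i))
    (hw' : ∀ i < 3, (w (6 + i)).1 = tw P Q R i) :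
    ∀ i < Cert9.al.length, ∀ j < Cert9.al.length, Abs.bit (Cert9.al.getD i 0) j = true →
      io (w i) ((s9g A0.numNodes A1.numNodes A2.numNodes A3.numNodes P.numNodes Q.numNodes i : ℕ) :
        ZMod (2 * k + 1)) ⊆
        insert ((s9g A0.numNodes A1.numNodes A2.numNodes A3.numNodes P.numNodes Q.numNodes j : ℕ) :
          ZMod (2 * k + 1))
          (io (w j) ((s9g A0.numNodes A1.numNodes A2.numNodes A3.numNodes P.numNodes Q.numNodes j :
            ℕ) : ZMod (2 * k + 1))) := by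
  intro i hi j hj hb
  have hi9 : i < 9 := hi
  have hj9 : j < 9 := hj
  rcases al9_cases ⟨i, hi9⟩ ⟨j, hj9⟩ hb with ⟨h1, h2, h3⟩ | ⟨h1, h2, h3⟩
  · have h1' : i < 6 := h1
    have h2' : j < 6 := h2
    have h4 := block_al (k := k) A0 A1 A2 A3 A4 hA (ix9_lt i) (ix9_lt j) (hw i h1') (hw j h2') h3 0
    unfold s9g
    rw [if_pos h1', if_pos h2']
    rw [zero_add, zero_add] at h4
    exact h4
  · have h1' : 6 ≤ i := h1
    have h2' : 6 ≤ j := h2
    have e1 : w i = w (6 + (i - 6)) := by congr 1; omega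
    have e2 : w j = w (6 + (j - 6)) := by congr 1; omega
    have h4 := triple_al (k := k) (x := w i) (y := w j) P Q R hP (show i - 6 < 3 by omega)
      (show j - 6 < 3 by omega) (by rw [e1]; exact hw' (i - 6) (by omega))
      (by rw [e2]; exact hw' (j - 6) (by omega)) h3 0
    unfold s9g
    rw [if_neg (by omega), if_neg (by omega)]
    rw [zero_add, zero_add] at h4
    exact h4

/-- THE 9-WORD PAIR GADGET IN A GENERAL BLOCK -/
theorem gad9g_abs {A0 A1 A2 A3 A4 P Q R : BinaryTree Unit}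
    (hA : A0.numNodes + A1.numNodes + A2.numNodes + A3.numNodes + A4.numNodes + 2 = k)
    (hP : P.numNodes + Q.numNodes + R.numNodes + 1 = k)
    {w : ℕ → X k} (hw : ∀ i < 6, (w i).1 = bw A0 A1 A2 A3 A4 (ix9 i))
    (hw' : ∀ i < 3, (w (6 + i)).1 = tw P Q R i)
    (hinj : ∀ i < 9, ∀ j < 9, w i = w j → i = j) (h01 : ¬ TT.SameCycle (w 0) (w 1))
    (hold : ∀ i, 2 ≤ i → i < 9 → ¬ TT.SameCycle (w 0) (w i) ∧ ¬ TT.SameCycle (w 1) (w i)) :
    (gad9 w).Abs := by
  classical
  have hBm : ∀ x, x ∈ (gad9 w).B ↔ ∃ i < Cert9.al.length, w i = x := by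
    intro x
    change x ∈ (range 9).image w ↔ _
    rw [mem_image]
    constructor
    · rintro ⟨i, hi, rfl⟩
      exact ⟨i, mem_range.1 hi, rfl⟩
    · rintro ⟨i, hi, rfl⟩
      exact ⟨i, mem_range.2 hi, rfl⟩
  have hFi : ∀ i < 9, (w i ∈ (gad9 w).F ↔ i < 2) := by
    intro i hi
    change (TT.SameCycle (w 0) (w i) ∨ TT.SameCycle (w 1) (w i)) ↔ _
    constructor
    · intro h
      by_contra h2
      have h3 := hold i (by omega) hi
      rcases h with h | h
      · exact h3.1 h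
      · exact h3.2 h
    · intro h
      interval_cases i
      · exact Or.inl (Perm.SameCycle.refl _ _)
      · exact Or.inr (Perm.SameCycle.refl _ _)
  have hbit : ∀ i : ℕ, Abs.bit Cert9.F i = decide (i < 2) := by
    intro i
    rw [Abs.bit_eq]
    have : Cert9.F = 2 ^ 2 - 1 := rfl
    rw [this, Nat.testBit_two_pow_sub_one]
  apply Abs.cert_abs (gad9 w) w (fun i => ((s9g A0.numNodes A1.numNodes A2.numNodes A3.numNodes
    P.numNodes Q.numNodes i : ℕ) : ZMod (2 * k + 1))) Cert9.A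
    Cert9.F Cert9.Z 2 0 2 Cert9.al Cert9.code hBm
  · intro i hi j hj h
    exact hinj i hi j hj h
  · intro i hi
    rw [hFi i hi, hbit, decide_eq_true_iff]
  · intro i h
    rw [hbit, decide_eq_true_iff] at h
    change i < 9
    omega
  · intro x y hxy hx
    rcases hx with hx | hx
    · exact Or.inl (hx.trans hxy)
    · exact Or.inr (hx.trans hxy)
  · intro i hi hd
    have hi9 : i < 9 := hi
    change (w i, w (Abs.dig Cert9.A i)) ∈ ({(w 3, w 6), (w 4, w 7), (w 5, w 8)} : Set (X k × X k))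
    have hd' : Abs.dig Cert9.A i < 9 := hd
    interval_cases i
    · exact absurd hd' (by decide)
    · exact absurd hd' (by decide)
    · exact absurd hd' (by decide)
    · exact Or.inl rfl
    · exact Or.inr (Or.inl rfl)
    · exact Or.inr (Or.inr rfl)
    · exact absurd hd' (by decide)
    · exact absurd hd' (by decide)
    · exact absurd hd' (by decide)
  · intro i h
    rw [hbit, decide_eq_true_iff] at h
    interval_cases i
    · refine ⟨by decide, ?_⟩
      change FR TT (gad9 w).B (w 0) (w 0)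
      apply FR_self
      intro v hv hs
      obtain ⟨j, hj, rfl⟩ := (hBm v).1 hv
      have hj9 : j < 9 := hj
      rcases Nat.lt_or_ge j 2 with h2 | h2
      · interval_cases j
        · rfl
        · exact absurd hs h01
      · exact absurd hs (hold j h2 hj9).1
    · refine ⟨by decide, ?_⟩
      change FR TT (gad9 w).B (w 1) (w 1)
      apply FR_self
      intro v hv hs
      obtain ⟨j, hj, rfl⟩ := (hBm v).1 hv
      have hj9 : j < 9 := hj
      rcases Nat.lt_or_ge j 2 with h2 | h2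
      · interval_cases j
        · exact absurd hs.symm h01
        · rfl
      · exact absurd hs (hold j h2 hj9).2
  · exact hfr9g hA hP hw hw'
  · decide
  · decide
  · decide
  · exact Cert9.run9

/-! ### The mirror -/

/-- star positions of the mirror -/
def s9Mg (n0 n1 n2 n3 p q : ℕ) (i : ℕ) : ℕ :=
  if i < 6 then bs n0 n1 n2 n3 (ix9M i) else ts p q (jx9M i)

theorem hfr9Mg {A0 A1 A2 A3 A4 P Q R : BinaryTree Unit}
    (hA : A0.numNodes + A1.numNodes + A2.numNodes + A3.numNodes + A4.numNodes + 2 = k)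
    (hP : P.numNodes + Q.numNodes + R.numNodes + 1 = k)
    {w : ℕ → X k} (hw : ∀ i < 6, (w i).1 = bw A0 A1 A2 A3 A4 (ix9M i))
    (hw' : ∀ i, 6 ≤ i → i < 9 → (w i).1 = tw P Q R (jx9M i)) :
    ∀ i < Cert9M.al.length, ∀ j < Cert9M.al.length, Abs.bit (Cert9M.al.getD i 0) j = true →
      io (w i) ((s9Mg A0.numNodes A1.numNodes A2.numNodes A3.numNodes P.numNodes Q.numNodes i : ℕ) :
        ZMod (2 * k + 1)) ⊆
        insert ((s9Mg A0.numNodes A1.numNodes A2.numNodes A3.numNodes P.numNodes Q.numNodes j : ℕ) :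
          ZMod (2 * k + 1))
          (io (w j) ((s9Mg A0.numNodes A1.numNodes A2.numNodes A3.numNodes P.numNodes Q.numNodes j :
            ℕ) : ZMod (2 * k + 1))) := by
  intro i hi j hj hb
  have hi9 : i < 9 := hi
  have hj9 : j < 9 := hj
  rcases al9M_cases ⟨i, hi9⟩ ⟨j, hj9⟩ hb with ⟨h1, h2, h3⟩ | ⟨h1, h2, h3⟩
  · have h1' : i < 6 := h1
    have h2' : j < 6 := h2
    have h4 := block_al (k := k) A0 A1 A2 A3 A4 hA (ix9M_lt i) (ix9M_lt j) (hw i h1') (hw j h2')
      h3 0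
    unfold s9Mg
    rw [if_pos h1', if_pos h2']
    rw [zero_add, zero_add] at h4
    exact h4
  · have h1' : 6 ≤ i := h1
    have h2' : 6 ≤ j := h2
    have h4 := triple_al (k := k) P Q R hP (jx9M_lt i) (jx9M_lt j) (hw' i h1' hi9)
      (hw' j h2' hj9) h3 0
    unfold s9Mg
    rw [if_neg (by omega), if_neg (by omega)]
    rw [zero_add, zero_add] at h4
    exact h4

/-- THE MIRROR IN A GENERAL BLOCK -/
theorem gad9Mg_abs {A0 A1 A2 A3 A4 P Q R : BinaryTree Unit}
    (hA : A0.numNodes + A1.numNodes + A2.numNodes + A3.numNodes + A4.numNodes + 2 = k)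
    (hP : P.numNodes + Q.numNodes + R.numNodes + 1 = k)
    {w : ℕ → X k} (hw : ∀ i < 6, (w i).1 = bw A0 A1 A2 A3 A4 (ix9M i))
    (hw' : ∀ i, 6 ≤ i → i < 9 → (w i).1 = tw P Q R (jx9M i))
    (hinj : ∀ i < 9, ∀ j < 9, w i = w j → i = j) (h01 : ¬ TT.SameCycle (w 0) (w 1))
    (hold : ∀ i, 2 ≤ i → i < 9 → ¬ TT.SameCycle (w 0) (w i) ∧ ¬ TT.SameCycle (w 1) (w i)) :
    (gad9M w).Abs := by
  classical
  have hBm : ∀ x, x ∈ (gad9M w).B ↔ ∃ i < Cert9M.al.length, w i = x := by
    intro x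
    change x ∈ (range 9).image w ↔ _
    rw [mem_image]
    constructor
    · rintro ⟨i, hi, rfl⟩
      exact ⟨i, mem_range.1 hi, rfl⟩
    · rintro ⟨i, hi, rfl⟩
      exact ⟨i, mem_range.2 hi, rfl⟩
  have hFi : ∀ i < 9, (w i ∈ (gad9M w).F ↔ i < 2) := by
    intro i hi
    change (TT.SameCycle (w 0) (w i) ∨ TT.SameCycle (w 1) (w i)) ↔ _
    constructor
    · intro h
      by_contra h2
      have h3 := hold i (by omega) hi
      rcases h with h | h
      · exact h3.1 h
      · exact h3.2 h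
    · intro h
      interval_cases i
      · exact Or.inl (Perm.SameCycle.refl _ _)
      · exact Or.inr (Perm.SameCycle.refl _ _)
  have hbit : ∀ i : ℕ, Abs.bit Cert9M.F i = decide (i < 2) := by
    intro i
    rw [Abs.bit_eq]
    have : Cert9M.F = 2 ^ 2 - 1 := rfl
    rw [this, Nat.testBit_two_pow_sub_one]
  apply Abs.cert_abs (gad9M w) w (fun i => ((s9Mg A0.numNodes A1.numNodes A2.numNodes A3.numNodes
    P.numNodes Q.numNodes i : ℕ) : ZMod (2 * k + 1))) Cert9M.A
    Cert9M.F Cert9M.Z 2 0 2 Cert9M.al Cert9M.code hBm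
  · intro i hi j hj h
    exact hinj i hi j hj h
  · intro i hi
    rw [hFi i hi, hbit, decide_eq_true_iff]
  · intro i h
    rw [hbit, decide_eq_true_iff] at h
    change i < 9
    omega
  · intro x y hxy hx
    rcases hx with hx | hx
    · exact Or.inl (hx.trans hxy)
    · exact Or.inr (hx.trans hxy)
  · intro i hi hd
    have hi9 : i < 9 := hi
    change (w i, w (Abs.dig Cert9M.A i)) ∈ ({(w 6, w 3), (w 7, w 4), (w 8, w 5)} : Set (X k × X k))
    have hd' : Abs.dig Cert9M.A i < 9 := hd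
    interval_cases i
    · exact absurd hd' (by decide)
    · exact absurd hd' (by decide)
    · exact absurd hd' (by decide)
    · exact absurd hd' (by decide)
    · exact absurd hd' (by decide)
    · exact absurd hd' (by decide)
    · exact Or.inl rfl
    · exact Or.inr (Or.inl rfl)
    · exact Or.inr (Or.inr rfl)
  · intro i h
    rw [hbit, decide_eq_true_iff] at h
    interval_cases i
    · refine ⟨by decide, ?_⟩
      change FR TT (gad9M w).B (w 0) (w 0)
      apply FR_self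
      intro v hv hs
      obtain ⟨j, hj, rfl⟩ := (hBm v).1 hv
      have hj9 : j < 9 := hj
      rcases Nat.lt_or_ge j 2 with h2 | h2
      · interval_cases j
        · rfl
        · exact absurd hs h01
      · exact absurd hs (hold j h2 hj9).1
    · refine ⟨by decide, ?_⟩
      change FR TT (gad9M w).B (w 1) (w 1)
      apply FR_self
      intro v hv hs
      obtain ⟨j, hj, rfl⟩ := (hBm v).1 hv
      have hj9 : j < 9 := hj
      rcases Nat.lt_or_ge j 2 with h2 | h2
      · interval_cases j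
        · exact absurd hs.symm h01
        · rfl
      · exact absurd hs (hold j h2 hj9).2
  · exact hfr9Mg hA hP hw hw'
  · decide
  · decide
  · decide
  · exact Cert9M.run9

/-! ### Level 3 -/

/-- the nine words of level 3: `S((P)Q)`, `(P(Q))S`, `P(Q()S)`, `Q((S))P`, `(S()P)Q`, `(S)(P)Q`, `P(QX)`, `QX()P`, `(P)QX` -/
def w9L (P Q S X' : BinaryTree Unit) : ℕ → BinaryTree Unit
  | 0 => w1 S (w1 .nil P Q) .nil
  | 1 => w1 .nil (w1 P Q .nil) S
  | 2 => w1 P (w1 Q .nil S) .nil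
  | 3 => w1 Q (w1 .nil S .nil) P
  | 4 => w1 .nil (w1 S .nil P) Q
  | 5 => w1 .nil S (w1 .nil P Q)
  | 6 => w1 P (app Q X') .nil
  | 7 => w1 (app Q X') .nil P
  | _ => w1 .nil P (app Q X')

theorem w9L_block (P Q S X' : BinaryTree Unit) {i : ℕ} (hi : i < 6) :
    w9L P Q S X' i = bw .nil P Q .nil S (ix9 i) := by
  interval_cases i <;> rfl

theorem w9L_triple (P Q S X' : BinaryTree Unit) {i : ℕ} (hi : i < 3) :
    w9L P Q S X' (6 + i) = tw P (app Q X') .nil i := by
  interval_cases i <;> rfl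

theorem app_num' (P Q : BinaryTree Unit) : (app P Q).numNodes = P.numNodes + Q.numNodes := by
  have h := congrArg List.length (wd_app P Q)
  rw [wd_length, List.length_append, wd_length, wd_length] at h
  omega

theorem xT_num {S : BinaryTree Unit} (hS : S ≠ .nil) : (xT S).numNodes = S.numNodes + 1 := by
  obtain ⟨Z, X', h1, h2, _⟩ := fm_dec S hS
  have e1 := congrArg List.length h1
  have e2 := congrArg List.length h2
  have e3 := congrArg List.length (wd_xT S)
  rw [wd_length, List.length_append, List.length_cons, List.length_append, List.length_cons,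
    wd_length] at e1
  rw [wd_length, List.length_cons, List.length_append, List.length_cons] at e2
  rw [wd_length, List.length_cons, List.length_append, List.length_cons, wd_length,
    wd_length] at e3
  omega

/-- THE LEVEL 3 GADGET ABSORBS -/
theorem gad9L_abs {P Q S : BinaryTree Unit} (hS : S ≠ .nil)
    (hk : P.numNodes + Q.numNodes + S.numNodes + 2 = k)
    {w : ℕ → X k} (hw : ∀ i < 9, (w i).1 = w9L P Q S (xT S) i)
    (hinj : ∀ i < 9, ∀ j < 9, w i = w j → i = j) (h01 : ¬ TT.SameCycle (w 0) (w 1))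
    (hold : ∀ i, 2 ≤ i → i < 9 → ¬ TT.SameCycle (w 0) (w i) ∧ ¬ TT.SameCycle (w 1) (w i)) :
    (gad9 w).Abs := by
  refine gad9g_abs (A0 := .nil) (A1 := P) (A2 := Q) (A3 := .nil) (A4 := S) (P := P)
    (Q := app Q (xT S)) (R := .nil) ?_ ?_ ?_ ?_ hinj h01 hold
  · change 0 + P.numNodes + Q.numNodes + 0 + S.numNodes + 2 = k
    omega
  · rw [app_num', xT_num hS]
    change P.numNodes + (Q.numNodes + (S.numNodes + 1)) + 0 + 1 = k
    omega
  · intro i hi
    rw [hw i (by omega), w9L_block P Q S (xT S) hi]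
  · intro i hi
    rw [hw (6 + i) (by omega), w9L_triple P Q S (xT S) hi]

/-- `F ((R)) G → G (F (S') B)`, `hgt G ≤ hgt R + 2`, `hgt F ≤ hgt R + 1` -/
theorem arc_2g {R F G : BinaryTree Unit} (hR : R ≠ .nil) (hG : hgt G ≤ hgt R + 2)
    (hF : hgt F ≤ hgt R + 1) {w w' : X k}
    (hw : wd w.1 = wd F ++ true :: true :: (wd R ++ false :: false :: wd G))
    (hw' : wd w'.1 = wd G ++ true :: (wd F ++ true :: (wd (sT R) ++ false :: (wd (bT R) ++
      [false])))) :
    TT (TT w) = w' := by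
  have hG' : (hgt G : ℤ) ≤ (hgt R : ℤ) + 2 := by exact_mod_cast hG
  have hF' : (hgt F : ℤ) ≤ (hgt R : ℤ) + 1 := by exact_mod_cast hF
  have h1 := T2b (w := w) (R := R) (α := wd F ++ [true]) (γ1 := [false]) (γ2 := wd G) hR
    (by rw [hw]; simp)
    (by
      rw [Ub_append, hs_append, hs_wd]
      refine ⟨Ub_wd' (by simp; omega), ?_⟩
      refine ⟨by simp; positivity, ?_⟩
      change (0 : ℤ) ≤ _
      simp)
    (by rw [hs_append, hs_wd]; simp)
    (by
      rw [hs_append, hs_wd]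
      exact ⟨by simp, by change (0 : ℤ) ≤ _; simp⟩)
    ⟨by positivity, by change (0 : ℤ) ≤ _; simp; positivity⟩
    (Ub_wd' (by rw [hs_append, hs_wd]; simp; omega))
  rw [TT_apply, TT_apply]
  apply eq_of_wd h1
  rw [hw']
  simp

/-- the arcs of the level 3 gadget -/
theorem arcs9L {P Q S : BinaryTree Unit} (hS : S ≠ .nil) (hP : hgt P ≤ hgt S)
    (hQ : hgt Q ≤ hgt S + 1) {w : ℕ → X k} (hw : ∀ i < 9, (w i).1 = w9L P Q S (xT S) i) :
    TT (TT (w 3)) = w 6 ∧ TT (TT (w 4)) = w 7 ∧ TT (TT (w 5)) = w 8 := by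
  have hS1 : 1 ≤ hgt S := by
    cases S with
    | nil => exact absurd rfl hS
    | node _ A B =>
      change 1 ≤ max _ _
      omega
  refine ⟨?_, ?_, ?_⟩
  · refine arc_2g (F := Q) (G := P) hS (by omega) (by omega) ?_ ?_
    · rw [hw 3 (by norm_num)]; simp [w9L, wd_w1, wd]
    · rw [hw 6 (by norm_num)]; simp [w9L, wd_w1, wd, wd_xT, wd_app]
  · refine arc_1 (G := w1 .nil .nil P) (H := Q) hS ?_ hQ ?_ ?_
    · change max (0 + 1) (hgt P) ≤ _
      omega
    · rw [hw 4 (by norm_num)]; simp [w9L, wd_w1, wd]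
    · rw [hw 7 (by norm_num)]; simp [w9L, wd_w1, wd, wd_xT, wd_app]
  · refine arc_1 (G := .nil) (H := w1 .nil P Q) hS (by change 0 ≤ _; omega) ?_ ?_ ?_
    · change max (hgt P + 1) (hgt Q) ≤ _
      omega
    · rw [hw 5 (by norm_num)]; simp [w9L, wd_w1, wd]
    · rw [hw 8 (by norm_num)]; simp [w9L, wd_w1, wd, wd_xT, wd_app]

/-! ### Level 3, mirror -/

/-- the mirror words: `(P(Q))S`, `S((P)Q)`, `(S()P)Q`, `Q((S))P`, `P(Q()S)`, `P(Q)(S)`, `(XP)Q`, `Q()XP`, `XP(Q)` -/
def w9LM (P Q S X' : BinaryTree Unit) : ℕ → BinaryTree Unit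
  | 0 => w1 .nil (w1 P Q .nil) S
  | 1 => w1 S (w1 .nil P Q) .nil
  | 2 => w1 .nil (w1 S .nil P) Q
  | 3 => w1 Q (w1 .nil S .nil) P
  | 4 => w1 P (w1 Q .nil S) .nil
  | 5 => w1 P Q (w1 .nil S .nil)
  | 6 => w1 .nil (app X' P) Q
  | 7 => w1 Q .nil (app X' P)
  | _ => w1 (app X' P) Q .nil

theorem w9LM_block (P Q S X' : BinaryTree Unit) {i : ℕ} (hi : i < 6) :
    w9LM P Q S X' i = bw .nil P Q .nil S (ix9M i) := by
  interval_cases i <;> rfl

theorem w9LM_triple (P Q S X' : BinaryTree Unit) {i : ℕ} (h6 : 6 ≤ i) (hi : i < 9) :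
    w9LM P Q S X' i = tw .nil (app X' P) Q (jx9M i) := by
  interval_cases i <;> rfl

/-- the word `X` of the mirror -/
def xTM (S : BinaryTree Unit) : BinaryTree Unit := Tsq.mir (xT (Tsq.mir S))

theorem mir_ne {S : BinaryTree Unit} (hS : S ≠ .nil) : Tsq.mir S ≠ .nil := by
  intro h
  apply hS
  rw [← Tsq.mir_mir S, h]
  rfl

/-- THE MIRROR OF THE LEVEL 3 GADGET ABSORBS -/
theorem gad9LM_abs {P Q S : BinaryTree Unit} (hS : S ≠ .nil)
    (hk : P.numNodes + Q.numNodes + S.numNodes + 2 = k)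
    {w : ℕ → X k} (hw : ∀ i < 9, (w i).1 = w9LM P Q S (xTM S) i)
    (hinj : ∀ i < 9, ∀ j < 9, w i = w j → i = j) (h01 : ¬ TT.SameCycle (w 0) (w 1))
    (hold : ∀ i, 2 ≤ i → i < 9 → ¬ TT.SameCycle (w 0) (w i) ∧ ¬ TT.SameCycle (w 1) (w i)) :
    (gad9M w).Abs := by
  refine gad9Mg_abs (A0 := .nil) (A1 := P) (A2 := Q) (A3 := .nil) (A4 := S) (P := .nil)
    (Q := app (xTM S) P) (R := Q) ?_ ?_ ?_ ?_ hinj h01 hold
  · change 0 + P.numNodes + Q.numNodes + 0 + S.numNodes + 2 = k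
    omega
  · rw [app_num']
    unfold xTM
    rw [Tsq.mir_num, xT_num (mir_ne hS), Tsq.mir_num]
    change 0 + (S.numNodes + 1 + P.numNodes) + Q.numNodes + 1 = k
    omega
  · intro i hi
    rw [hw i (by omega), w9LM_block P Q S (xTM S) hi]
  · intro i h6 hi
    rw [hw i hi, w9LM_triple P Q S (xTM S) h6 hi]

theorem mir_w1 (P Q R : BinaryTree Unit) :
    Tsq.mir (w1 P Q R) = w1 (Tsq.mir R) (Tsq.mir Q) (Tsq.mir P) := by
  apply wd_ext
  rw [wd_w1, Tsq.wd_mir, wd_w1, Tsq.wd_mir, Tsq.wd_mir, Tsq.wd_mir]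
  simp

theorem mir_app' (P Q : BinaryTree Unit) :
    Tsq.mir (app P Q) = app (Tsq.mir Q) (Tsq.mir P) := by
  apply wd_ext
  simp only [Tsq.wd_mir, wd_app, List.map_append, List.reverse_append]

theorem w1_w1 (A B C : BinaryTree Unit) :
    w1 (w1 .nil A .nil) B C = w1 .nil A (w1 .nil B C) := by
  apply wd_ext
  simp [wd_w1, wd]

theorem mir_w9LM (P Q S X' : BinaryTree Unit) : ∀ i < 9,
    Tsq.mir (w9LM P Q S (Tsq.mir X') i) = w9L (Tsq.mir Q) (Tsq.mir P) (Tsq.mir S) X' i := by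
  have h0 : Tsq.mir (.nil : BinaryTree Unit) = .nil := rfl
  intro i hi
  interval_cases i <;>
    simp only [w9LM, w9L, mir_w1, mir_app', h0, Tsq.mir_mir, w1_w1]

theorem hgt_mir (t : BinaryTree Unit) : hgt (Tsq.mir t) = hgt t := by
  induction t with
  | nil => rfl
  | node _ A B ihA ihB =>
    change hgt (app (Tsq.mir B) (Tsq.mir A △ .nil)) = max (hgt A + 1) (hgt B)
    rw [hgt_app, ihB]
    change max (hgt B) (max (hgt (Tsq.mir A) + 1) 0) = _
    rw [ihA]
    omega

/-- the arcs of the mirror -/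
theorem arcs9LM {P Q S : BinaryTree Unit} (hS : S ≠ .nil) (hP : hgt P ≤ hgt S + 1)
    (hQ : hgt Q ≤ hgt S) {w : ℕ → X k} (hw : ∀ i < 9, (w i).1 = w9LM P Q S (xTM S) i) :
    TT (TT (w 6)) = w 3 ∧ TT (TT (w 7)) = w 4 ∧ TT (TT (w 8)) = w 5 := by
  have h1 := arcs9L (P := Tsq.mir Q) (Q := Tsq.mir P) (S := Tsq.mir S)
    (w := fun i => Tsq.mirX (w i)) (mir_ne hS) (by rw [hgt_mir, hgt_mir]; exact hQ)
    (by rw [hgt_mir, hgt_mir]; exact hP) (by
      intro i hi
      change Tsq.mir (w i).1 = _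
      rw [hw i hi]
      exact mir_w9LM P Q S (xT (Tsq.mir S)) i hi)
  have hmm : ∀ x : X k, Tsq.mirX (Tsq.mirX x) = x := by
    intro x
    apply Subtype.ext
    exact Tsq.mir_mir x.1
  refine ⟨?_, ?_, ?_⟩
  · have h2 := Tsq.TT_mir2 h1.1
    rw [hmm, hmm] at h2
    exact h2
  · have h2 := Tsq.TT_mir2 h1.2.1
    rw [hmm, hmm] at h2
    exact h2
  · have h2 := Tsq.TT_mir2 h1.2.2
    rw [hmm, hmm] at h2
    exact h2

end Pool.OddHC
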