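import Pool.Agent.Work.MP_8f87b2_h74.InJt

/-!
# MP_8f87b2_co: inner words of ANY window `W R [q+1] B S` (any `R ≠ nil` of height at least `q + 3`, parts 2 allowed)
against the J1 gadgets `TyJs`, `TyJt`
-/

set_option autoImplicit false

namespace Pool.OddHC

open Finset Equiv BinaryTree Pool.Agent.Work.MP_8f87b2_co

namespace J1

open H1

variable {k : ℕ} {F F' : Set (Cyc k)} {g g' : DG k}

/-- a nonempty word has a first maximum -/
theorem FM_ex {R : BinaryTree Unit} (hR : R ≠ .nil) : ∃ a b, FM R a b := by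
  obtain ⟨a0, c, h1, h2, h3, h4, h5, h6, h7⟩ := Tsq.sq_spec R hR
  exact ⟨a0, _, ⟨h1, h3, h4⟩⟩

/-- the first maximum of the linked words of any window -/
theorem W_FM {q : ℕ} {R : BinaryTree Unit} (hR : R ≠ .nil) (hq : q + 3 ≤ OddHC.ht R) (B S : BinaryTree Unit) :
    ∀ i ∈ [0, 1, 3, 6, 8, 9], ∃ a b, FM (W R (ch (q + 1)) B S i) a b := by
  intro i hi
  obtain ⟨a, b, h⟩ := FM_ex hR
  rw [← H1.ht_eq] at hq
  have hn : Tsq.ht (.nil : BinaryTree Unit) = 0 := rfl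
  have hc : ∀ n, Tsq.ht (ch n) = n := fun n => by rw [H1.ht_eq, ch_ht]
  simp only [List.mem_cons, List.not_mem_nil, or_false] at hi
  rcases hi with rfl | rfl | rfl | rfl | rfl | rfl
  · exact ⟨_, _, h.app_right (Z := ch (q + 3)) (by rw [hc]; exact hq)⟩
  · exact ⟨_, _, h.app_right (Z := .nil △ app (ch (q + 1)) (.nil △ .nil)) (by
      rw [Tsq.ht_node, Tsq.ht_app, Tsq.ht_node, hc, hn]; omega)⟩
  · exact ⟨_, _, (h.app_right (Z := .nil △ ch (q + 1)) (by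
      rw [Tsq.ht_node, hc, hn]; omega)).node (Z := .nil) (by rw [hn]; omega)⟩
  · exact ⟨_, _, h.node (Z := ch (q + 2)) (by rw [hc]; omega)⟩
  · have k3 := (h.node (Z := .nil) (by rw [hn]; omega)).app_left
      (P := app (ch (q + 1)) (.nil △ .nil)) (by
        rw [Tsq.ht_node, Tsq.ht_app, Tsq.ht_node, hc, hn]; omega)
    have e : W R (ch (q + 1)) B S 8 = app (app (ch (q + 1)) (.nil △ .nil)) (R △ .nil) := by
      rw [app_assoc]; rfl
    rw [e]
    exact ⟨_, _, k3⟩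
  · exact ⟨_, _, (h.node (Z := .nil) (by rw [hn]; omega)).node (Z := ch (q + 1)) (by
      rw [Tsq.ht_node, hc, hn]; omega)⟩

/-- **any window, inner words `T (w i)` and their mirror images, against `TyJs`** -/
theorem any_not_Js {x : X k} {q : ℕ} {R B S : BinaryTree Unit} {i : ℕ} (hi : i ∈ [0, 1, 3, 6, 8, 9])
    (hx : x.1 = W R (ch (q + 1)) B S i) (hR : R ≠ .nil) (hq : q + 3 ≤ OddHC.ht R)
    (h' : TyJs F' g') (hk : 13 ≤ k) : TT x ∉ g'.B ∧ Tsq.mirX (TT x) ∉ g'.B := by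
  obtain ⟨a, b, hf⟩ := W_FM hR hq B S i hi
  rw [← hx] at hf
  exact win_not_Js hf hx hR (js74_ch_ne q) hi h' hk

/-- **any right window, inner words `T (w i)`, against `TyJt`** -/
theorem any_not_Jt {x : X k} {q : ℕ} {R B S : BinaryTree Unit} {i : ℕ} (hi : i ∈ [0, 1, 3, 6, 8, 9])
    (hx : x.1 = W R (ch (q + 1)) B S i) (hR : R ≠ .nil) (hq : q + 3 ≤ OddHC.ht R)
    (h' : TyJt F' g') (hk : 13 ≤ k) : TT x ∉ g'.B := by
  obtain ⟨a, b, hf⟩ := W_FM hR hq B S i hi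
  rw [← hx] at hf
  exact win_not_Jt hf hx hR (js74_ch_ne q) hi h' hk

/-- the arcs of a right 20-word gadget with window words -/
theorem gad20_inn {w : ℕ → X k} {p : X k × X k} (hp : p ∈ (gad20 w).arcs) :
    ∃ i ∈ [0, 1, 3, 6, 8, 9], p.1 = w i := by
  have hp' : p = (w 0, w 10) ∨ p = (w 1, w 11) ∨ p = (w 3, w 12) ∨ p = (w 6, w 15) ∨ p = (w 8, w 14) ∨
      p = (w 9, w 17) := hp
  rcases hp' with rfl | rfl | rfl | rfl | rfl | rfl
  · exact ⟨0, by simp, rfl⟩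
  · exact ⟨1, by simp, rfl⟩
  · exact ⟨3, by simp, rfl⟩
  · exact ⟨6, by simp, rfl⟩
  · exact ⟨8, by simp, rfl⟩
  · exact ⟨9, by simp, rfl⟩

/-- **row for any type of right windows**: all words `w i = W R [q+1] B S i` -/
theorem gad20_not_Js {w : ℕ → X k} {q : ℕ} {R B S : BinaryTree Unit}
    (hw : ∀ i < 20, (w i).1 = W R (ch (q + 1)) B S i) (hR : R ≠ .nil) (hq : q + 3 ≤ OddHC.ht R)
    (h' : TyJs F' g') (hk : 13 ≤ k) : ∀ p ∈ (gad20 w).arcs, ∀ v ∈ innA p, v ∉ g'.B := by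
  intro p hp v hv
  obtain ⟨i, hi, e⟩ := gad20_inn hp
  have hv2 : v = TT p.1 := by
    have hp' : p = (w 0, w 10) ∨ p = (w 1, w 11) ∨ p = (w 3, w 12) ∨ p = (w 6, w 15) ∨ p = (w 8, w 14) ∨
        p = (w 9, w 17) := hp
    rcases hp' with rfl | rfl | rfl | rfl | rfl | rfl <;> exact hv
  have hi' : i < 20 := by
    simp only [List.mem_cons, List.not_mem_nil, or_false] at hi
    omega
  rw [hv2, e]
  exact (any_not_Js hi (hw i hi') hR hq h' hk).1

theorem gad20_not_Jt {w : ℕ → X k} {q : ℕ} {R B S : BinaryTree Unit}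
    (hw : ∀ i < 20, (w i).1 = W R (ch (q + 1)) B S i) (hR : R ≠ .nil) (hq : q + 3 ≤ OddHC.ht R)
    (h' : TyJt F' g') (hk : 13 ≤ k) : ∀ p ∈ (gad20 w).arcs, ∀ v ∈ innA p, v ∉ g'.B := by
  intro p hp v hv
  obtain ⟨i, hi, e⟩ := gad20_inn hp
  have hv2 : v = TT p.1 := by
    have hp' : p = (w 0, w 10) ∨ p = (w 1, w 11) ∨ p = (w 3, w 12) ∨ p = (w 6, w 15) ∨ p = (w 8, w 14) ∨
        p = (w 9, w 17) := hp
    rcases hp' with rfl | rfl | rfl | rfl | rfl | rfl <;> exact hv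
  have hi' : i < 20 := by
    simp only [List.mem_cons, List.not_mem_nil, or_false] at hi
    omega
  rw [hv2, e]
  exact any_not_Jt hi (hw i hi') hR hq h' hk

end J1

end Pool.OddHC
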