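import Pool.Agent.Work.MP_8f87b2_h74.InJs
import Pool.Agent.Work.MP_8f87b2_h63.J4

/-!
# MP_8f87b2_co: words of the J1 gadgets `TyJs`, `TyJt` (right and mirrored) have long runs

`LR b L`: `L = z1 1^N 0 0^n' z2` with short `z1`, `z2`. If `T x = L` then `x = 1^n' mid 0^N`, and no word
`W R Q B S i`, `i = 0, 1, 3, 6, 8, 9`, of a window has this form.
-/

set_option autoImplicit false
set_option linter.unusedSimpArgs false

namespace Pool.OddHC

open Finset Equiv BinaryTree Pool.Agent.Work.MP_8f87b2_co

namespace J1

open H1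

variable {k : ℕ}

/-- `z1 1^N 0 0^n' z2` -/
def LR (b : ℕ) (L : List Bool) : Prop :=
  ∃ (z1 z2 : List Bool) (N n' δ cr : ℕ), z1.count true = z1.count false + δ ∧ z1.count true < N + δ ∧
    z2.count true ≤ n' ∧ cr + b ≤ n' ∧ js74_gcr cr (z2.map not ++ true :: z1.map not) = true ∧
    L = (z1 ++ List.replicate N true) ++ false :: (List.replicate n' false ++ z2)

theorem LR.one {L : List Bool} (h : LR 2 L) : LR 1 L := by
  obtain ⟨z1, z2, N, n', δ, cr, h1, h2, h3, h4, h5, h6⟩ := h
  exact ⟨z1, z2, N, n', δ, cr, h1, h2, h3, by omega, h5, h6⟩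

/-- the cut of `T w` at its last maximum -/
theorem js74_cut2 {N H n' δ : ℕ} {z1 z2 u v : List Bool}
    (e : u ++ false :: v = (z1 ++ List.replicate N true) ++ false :: (List.replicate n' false ++ z2))
    (hu : u.count true = u.count false + H) (hN : N + δ ≤ H) (hz : z1.count true = z1.count false + δ)
    (h1 : z1.count true < N + δ) (h2 : z2.count true ≤ n') :
    u = z1 ++ List.replicate N true ∧ v = List.replicate n' false ++ z2 := by
  rcases List.append_eq_append_iff.1 e with ⟨c, k1, k2⟩ | ⟨c, k1, k2⟩
  · cases c with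
    | nil =>
      rw [List.append_nil] at k1
      rw [List.nil_append, List.cons.injEq] at k2
      exact ⟨k1.symm, k2.2⟩
    | cons x c =>
      exfalso
      rw [List.cons_append, List.cons.injEq] at k2
      obtain ⟨rfl, -⟩ := k2
      rcases List.append_eq_append_iff.1 k1 with ⟨d, m1, m2⟩ | ⟨d, m1, m2⟩
      · have : false ∈ List.replicate N true := by rw [m2]; simp
        rw [List.mem_replicate] at this
        exact absurd this.2 (by simp)
      · rw [m1, List.count_append] at h1
        omega
  · cases c with
    | nil =>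
      rw [List.append_nil] at k1
      rw [List.nil_append, List.cons.injEq] at k2
      exact ⟨k1, k2.2.symm⟩
    | cons x c =>
      exfalso
      rw [List.cons_append, List.cons.injEq] at k2
      obtain ⟨rfl, k2⟩ := k2
      rw [k1] at hu
      simp only [List.count_append, List.count_cons, List.count_replicate] at hu
      simp at hu
      rcases List.append_eq_append_iff.1 k2 with ⟨d, m1, m2⟩ | ⟨d, m1, m2⟩
      · rw [m1] at hu
        simp only [List.count_append, List.count_replicate] at hu
        rw [m2, List.count_append] at h2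
        simp at hu
        omega
      · have : c.count true = 0 := by
          rw [List.count_eq_zero]
          intro h
          have h3 : true ∈ List.replicate n' false := by rw [m1]; exact List.mem_append_left _ h
          rw [List.mem_replicate] at h3
          exact absurd h3.2 (by simp)
        omega

theorem LR_word {x : X k} {a b : List Bool} (h : FM x.1 a b) {β : ℕ}
    (hL : LR β (wd (TT x).1)) : ∃ (mid : List Bool) (N n' cr : ℕ), cr + β ≤ n' ∧ js74_gcr cr mid = true ∧
      wd x.1 = List.replicate n' true ++ (mid ++ List.replicate N false) := by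
  obtain ⟨z1, z2, N, n', δ, cr, c3, c4, c5, c1, c6, c7⟩ := hL
  have e := h.wdT
  have hb : (b.map not).count true = (b.map not).count false + Tsq.ht x.1 := by
    have h1 := wd_counts x.1
    rw [h.eq, List.count_append, List.count_append, List.count_cons, List.count_cons] at h1
    have h2 := h.top
    rw [Tsq.count_not_true, Tsq.count_not_false]
    simp at h1
    omega
  have hN : N + δ ≤ Tsq.ht x.1 := by
    have h1 := Tsq.ht_take (TT x).1 (z1 ++ List.replicate N true).length
    rw [c7, List.take_left' rfl, List.count_append, List.count_append, List.count_replicate_self,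
      List.count_replicate, js74_htT] at h1
    simp at h1
    omega
  rw [e] at c7
  obtain ⟨e1, e2⟩ := js74_cut2 c7 hb hN c3 (by omega) (by omega)
  have e3 : b = z1.map not ++ List.replicate N false := by
    have := congrArg (List.map not) e1
    simpa [Function.comp_def] using this
  have e4 : a = List.replicate n' true ++ z2.map not := by
    have := congrArg (List.map not) e2
    simpa [Function.comp_def] using this
  refine ⟨z2.map not ++ true :: z1.map not, N, n', cr, c1, c6, ?_⟩
  rw [h.eq, e3, e4]
  simp

/-- a word `1^n' mid 0^N` has no low letter `1` after its start -/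
theorem js74_low2 {n' N d cr : ℕ} {mid p r : List Bool} (hn : cr + d < n') (hm : js74_gcr cr mid = true)
    (e : p ++ true :: r = List.replicate n' true ++ (mid ++ List.replicate N false))
    (hp : p.count true = p.count false + d) : p.count false = 0 := by
  rcases List.append_eq_append_iff.1 e with ⟨c, k1, -⟩ | ⟨c, k1, k2⟩
  · rw [List.count_eq_zero]
    intro h
    have h3 : false ∈ List.replicate n' true := by rw [k1]; exact List.mem_append_left _ h
    rw [List.mem_replicate] at h3
    exact absurd h3.2 (by simp)
  · exfalso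
    rcases List.append_eq_append_iff.1 k2 with ⟨c2, m1, m2⟩ | ⟨c2, m1, m2⟩
    · have h3 : true ∈ List.replicate N false := by rw [m2]; simp
      rw [List.mem_replicate] at h3
      exact absurd h3.2 (by simp)
    · have h4 := gcr_le hm m1
      rw [k1, List.count_append, List.count_append, List.count_replicate_self, List.count_replicate] at hp
      simp at hp
      omega

theorem js74_num {P : BinaryTree Unit} (h : P ≠ .nil) : (wd P).count false ≠ 0 := by
  rw [(wd_counts P).2]
  cases P with
  | nil => exact absurd rfl h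
  | node _ A C =>
    intro e
    change A.numNodes + C.numNodes + 1 = 0 at e
    omega

/-- **no word of a window has the form `1^n' mid 0^N`** -/
theorem W_noLR {R Q B S : BinaryTree Unit} (hR : R ≠ .nil) (hQ : Q ≠ .nil) {i : ℕ} (hi : i ∈ [0, 1, 3, 6, 8, 9])
    {n' N cr : ℕ} {mid : List Bool} (hc : cr + 2 ≤ n' ∨ (cr + 1 ≤ n' ∧ i ≠ 3)) (hm : js74_gcr cr mid = true)
    (e : wd (W R Q B S i) = List.replicate n' true ++ (mid ++ List.replicate N false)) : False := by
  simp only [List.mem_cons, List.not_mem_nil, or_false] at hi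
  have c : ∀ P : BinaryTree Unit, (wd P).count true = (wd P).count false + 0 := fun P => by
    rw [(wd_counts P).1, (wd_counts P).2]; rfl
  rcases hi with rfl | rfl | rfl | rfl | rfl | rfl
  · refine js74_num hR (js74_low2 (cr := cr) (n' := n') (N := N) (d := 0) (p := wd R) (r := wd (Q △ .nil) ++ [false]) (by omega) hm ?_ (c R))
    rw [← e]
    change _ = wd (app R ((Q △ .nil) △ .nil))
    rw [wd_app, wd_node (Q △ .nil)]
    simp [wd]
  · refine js74_num hR (js74_low2 (cr := cr) (n' := n') (N := N) (d := 0) (p := wd R) (r := false :: wd (app Q (.nil △ .nil))) (by omega) hm ?_ (c R))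
    rw [← e]
    change _ = wd (app R (.nil △ app Q (.nil △ .nil)))
    simp [wd, wd_app]
  · refine js74_num (P := R) hR ?_
    have h1 := js74_low2 (cr := cr) (n' := n') (N := N) (d := 1) (p := true :: wd R) (r := false :: (wd Q ++ [false])) (by omega) hm (by
      rw [← e]
      change _ = wd (app R (.nil △ Q) △ .nil)
      rw [wd_node, wd_app, wd_node]
      simp [wd]) (by
      rw [List.count_cons, List.count_cons, c R]; simp)
    rw [List.count_cons] at h1
    simpa using h1
  · refine js74_num (P := R △ .nil) (by simp) (js74_low2 (cr := cr) (n' := n') (N := N) (d := 0) (p := wd (R △ .nil))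
      (r := wd Q ++ [false]) (by omega) hm ?_ (c _))
    rw [← e]
    change _ = wd (R △ (Q △ .nil))
    rw [wd_node, wd_node, wd_node]
    simp [wd]
  · refine js74_num hQ (js74_low2 (cr := cr) (n' := n') (N := N) (d := 0) (p := wd Q) (r := false :: wd (R △ .nil)) (by omega) hm ?_ (c Q))
    rw [← e]
    change _ = wd (app Q (.nil △ (R △ .nil)))
    rw [wd_app, wd_node .nil]
    simp [wd]
  · cases Q with
    | nil => exact hQ rfl
    | node _ A C =>
      refine js74_num (P := (R △ .nil) △ .nil) (by simp) (js74_low2 (cr := cr) (n' := n') (N := N) (d := 0) (p := wd ((R △ .nil) △ .nil))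
        (r := wd A ++ false :: wd C) (by omega) hm ?_ (c _))
      rw [← e]
      change _ = wd ((R △ .nil) △ (A △ C))
      rw [wd_node, wd_node, wd_node, wd_node]
      simp [wd]

/-- all twenty words of `jl` have long runs -/
theorem LR_js {n j : ℕ} (hn : 7 ≤ n) (hj : j < 20) {t : BinaryTree Unit} (e : comps t = jl n j) :
    LR 2 (wd (t)) := by
  have key : ∀ t' : BinaryTree Unit, comps t' = jl n j → t = t' := fun t' h => comps_inj (e.trans h.symm)
  have w1 : wd (ch 1) = [true, false] := rfl
  have w2 : wd (ch 2) = [true, true, false, false] := rfl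
  have w3 : wd (ch 3) = [true, true, true, false, false, false] := rfl
  interval_cases j
  · rw [key (ch n △ (ch 2 △ (ch 1 △ .nil))) rfl]
    refine ⟨[], [true, true, true, false, false, false, true, true, false, false], n + 1, n, 0, 3, by decide,
      lt_of_le_of_lt (show _ ≤ 0 by decide) (by omega), (show _ ≤ 5 by decide).trans (by omega), by omega,
      by decide, ?_⟩
    simp [wd, wd_ch n, wd_ch (n + 1), w1, w2, w3, List.replicate_succ, js74_rsw, js74_tsw]
  · rw [key (ch n △ (ch 2 △ (.nil △ (.nil △ .nil)))) rfl]
    refine ⟨[], [true, true, true, false, false, false, true, false, true, false], n + 1, n, 0, 3, by decide,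
      lt_of_le_of_lt (show _ ≤ 0 by decide) (by omega), (show _ ≤ 5 by decide).trans (by omega), by omega,
      by decide, ?_⟩
    simp [wd, wd_ch n, wd_ch (n + 1), w1, w2, w3, List.replicate_succ, js74_rsw, js74_tsw]
  · rw [key (.nil △ (ch n △ (ch 2 △ (.nil △ .nil)))) rfl]
    refine ⟨[true, false], [true, true, true, false, false, false, true, false], n + 1, n, 0, 3, by decide,
      lt_of_le_of_lt (show _ ≤ 1 by decide) (by omega), (show _ ≤ 4 by decide).trans (by omega), by omega,
      by decide, ?_⟩
    simp [wd, wd_ch n, wd_ch (n + 1), w1, w2, w3, List.replicate_succ, js74_rsw, js74_tsw]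
  · rw [key ((ch n △ (ch 2 △ (.nil △ .nil))) △ .nil) rfl]
    refine ⟨[], [true, true, true, false, false, false, true, false, false], n + 2, n, 0, 3, by decide,
      lt_of_le_of_lt (show _ ≤ 0 by decide) (by omega), (show _ ≤ 4 by decide).trans (by omega), by omega,
      by decide, ?_⟩
    simp [wd, wd_ch n, wd_ch (n + 1), w1, w2, w3, List.replicate_succ, js74_rsw, js74_tsw]
  · rw [key (ch 1 △ (ch n △ (ch 2 △ .nil))) rfl]
    refine ⟨[true, true, false, false], [true, true, true, false, false, false], n + 1, n, 0, 3, by decide,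
      lt_of_le_of_lt (show _ ≤ 2 by decide) (by omega), (show _ ≤ 3 by decide).trans (by omega), by omega,
      by decide, ?_⟩
    simp [wd, wd_ch n, wd_ch (n + 1), w1, w2, w3, List.replicate_succ, js74_rsw, js74_tsw]
  · rw [key (.nil △ (.nil △ (ch n △ (ch 2 △ .nil)))) rfl]
    refine ⟨[true, false, true, false], [true, true, true, false, false, false], n + 1, n, 0, 3, by decide,
      lt_of_le_of_lt (show _ ≤ 2 by decide) (by omega), (show _ ≤ 3 by decide).trans (by omega), by omega,
      by decide, ?_⟩
    simp [wd, wd_ch n, wd_ch (n + 1), w1, w2, w3, List.replicate_succ, js74_rsw, js74_tsw]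
  · rw [key ((ch n △ ch 3) △ (.nil △ .nil)) rfl]
    refine ⟨[], [true, true, true, false, false, false, false, true, false], n + 2, n, 0, 3, by decide,
      lt_of_le_of_lt (show _ ≤ 0 by decide) (by omega), (show _ ≤ 4 by decide).trans (by omega), by omega,
      by decide, ?_⟩
    simp [wd, wd_ch n, wd_ch (n + 1), w1, w2, w3, List.replicate_succ, js74_rsw, js74_tsw]
  · rw [key ((.nil △ (ch n △ ch 3)) △ .nil) rfl]
    refine ⟨[true, true, false], [true, true, true, false, false, false, false], n + 1, n, 1, 3, by decide,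
      lt_of_le_of_lt (show _ ≤ 2 by decide) (by omega), (show _ ≤ 3 by decide).trans (by omega), by omega,
      by decide, ?_⟩
    simp [wd, wd_ch n, wd_ch (n + 1), w1, w2, w3, List.replicate_succ, js74_rsw, js74_tsw]
  · rw [key (.nil △ ((ch n △ ch 3) △ .nil)) rfl]
    refine ⟨[true, false], [true, true, true, false, false, false, false], n + 2, n, 0, 3, by decide,
      lt_of_le_of_lt (show _ ≤ 1 by decide) (by omega), (show _ ≤ 3 by decide).trans (by omega), by omega,
      by decide, ?_⟩
    simp [wd, wd_ch n, wd_ch (n + 1), w1, w2, w3, List.replicate_succ, js74_rsw, js74_tsw]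
  · rw [key (((ch n △ ch 3) △ .nil) △ .nil) rfl]
    refine ⟨[], [true, true, true, false, false, false, false, false], n + 3, n, 0, 3, by decide,
      lt_of_le_of_lt (show _ ≤ 0 by decide) (by omega), (show _ ≤ 3 by decide).trans (by omega), by omega,
      by decide, ?_⟩
    simp [wd, wd_ch n, wd_ch (n + 1), w1, w2, w3, List.replicate_succ, js74_rsw, js74_tsw]
  · rw [key (ch 2 △ (ch 1 △ (ch n △ .nil))) rfl]
    refine ⟨[true, true, true, false, false, false, true, true, false, false], [], n + 1, n, 0, 2, by decide,
      lt_of_le_of_lt (show _ ≤ 5 by decide) (by omega), (show _ ≤ 0 by decide).trans (by omega), by omega,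
      by decide, ?_⟩
    simp [wd, wd_ch n, wd_ch (n + 1), w1, w2, w3, List.replicate_succ, js74_rsw, js74_tsw]
  · rw [key (ch 2 △ (.nil △ (.nil △ (ch n △ .nil)))) rfl]
    refine ⟨[true, true, true, false, false, false, true, false, true, false], [], n + 1, n, 0, 2, by decide,
      lt_of_le_of_lt (show _ ≤ 5 by decide) (by omega), (show _ ≤ 0 by decide).trans (by omega), by omega,
      by decide, ?_⟩
    simp [wd, wd_ch n, wd_ch (n + 1), w1, w2, w3, List.replicate_succ, js74_rsw, js74_tsw]
  · rw [key (ch (n + 1) △ (ch 2 △ (.nil △ .nil))) rfl]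
    refine ⟨[], [true, true, true, false, false, false, true, false], n + 2, n + 1, 0, 3, by decide,
      lt_of_le_of_lt (show _ ≤ 0 by decide) (by omega), (show _ ≤ 4 by decide).trans (by omega), by omega,
      by decide, ?_⟩
    simp [wd, wd_ch n, wd_ch (n + 1), w1, w2, w3, List.replicate_succ, js74_rsw, js74_tsw]
  · rw [key (ch n △ ((ch 2 △ (.nil △ .nil)) △ .nil)) rfl]
    refine ⟨[], [true, true, true, true, false, false, false, true, false, false], n + 1, n, 0, 4, by decide,
      lt_of_le_of_lt (show _ ≤ 0 by decide) (by omega), (show _ ≤ 5 by decide).trans (by omega), by omega,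
      by decide, ?_⟩
    simp [wd, wd_ch n, wd_ch (n + 1), w1, w2, w3, List.replicate_succ, js74_rsw, js74_tsw]
  · rw [key ((.nil △ ch (n + 1)) △ (ch 2 △ .nil)) rfl]
    refine ⟨[true, true, false], [true, true, true, false, false, false], n + 1, n + 1, 1, 3, by decide,
      lt_of_le_of_lt (show _ ≤ 2 by decide) (by omega), (show _ ≤ 3 by decide).trans (by omega), by omega,
      by decide, ?_⟩
    simp [wd, wd_ch n, wd_ch (n + 1), w1, w2, w3, List.replicate_succ, js74_rsw, js74_tsw]
  · rw [key (.nil △ (ch (n + 1) △ (ch 2 △ .nil))) rfl]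
    refine ⟨[true, false], [true, true, true, false, false, false], n + 2, n + 1, 0, 3, by decide,
      lt_of_le_of_lt (show _ ≤ 1 by decide) (by omega), (show _ ≤ 3 by decide).trans (by omega), by omega,
      by decide, ?_⟩
    simp [wd, wd_ch n, wd_ch (n + 1), w1, w2, w3, List.replicate_succ, js74_rsw, js74_tsw]
  · rw [key (ch n △ (ch 3 △ (.nil △ .nil))) rfl]
    refine ⟨[], [true, true, true, true, false, false, false, false, true, false], n + 1, n, 0, 4, by decide,
      lt_of_le_of_lt (show _ ≤ 0 by decide) (by omega), (show _ ≤ 5 by decide).trans (by omega), by omega,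
      by decide, ?_⟩
    simp [wd, wd_ch n, wd_ch (n + 1), w1, w2, w3, List.replicate_succ, js74_rsw, js74_tsw]
  · rw [key ((ch (n + 1) △ ch 3) △ .nil) rfl]
    refine ⟨[], [true, true, true, false, false, false, false], n + 3, n + 1, 0, 3, by decide,
      lt_of_le_of_lt (show _ ≤ 0 by decide) (by omega), (show _ ≤ 3 by decide).trans (by omega), by omega,
      by decide, ?_⟩
    simp [wd, wd_ch n, wd_ch (n + 1), w1, w2, w3, List.replicate_succ, js74_rsw, js74_tsw]
  · rw [key (.nil △ (ch n △ (ch 3 △ .nil))) rfl]
    refine ⟨[true, false], [true, true, true, true, false, false, false, false], n + 1, n, 0, 4, by decide,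
      lt_of_le_of_lt (show _ ≤ 1 by decide) (by omega), (show _ ≤ 4 by decide).trans (by omega), by omega,
      by decide, ?_⟩
    simp [wd, wd_ch n, wd_ch (n + 1), w1, w2, w3, List.replicate_succ, js74_rsw, js74_tsw]
  · rw [key ((ch n △ (ch 3 △ .nil)) △ .nil) rfl]
    refine ⟨[], [true, true, true, true, false, false, false, false, false], n + 2, n, 0, 4, by decide,
      lt_of_le_of_lt (show _ ≤ 0 by decide) (by omega), (show _ ≤ 4 by decide).trans (by omega), by omega,
      by decide, ?_⟩
    simp [wd, wd_ch n, wd_ch (n + 1), w1, w2, w3, List.replicate_succ, js74_rsw, js74_tsw]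

/-- all twenty mirrored words of `jl` have long runs -/
theorem LR_jsm {n j : ℕ} (hn : 7 ≤ n) (hj : j < 20) {t : BinaryTree Unit} (e : comps t = jl n j) :
    LR 2 (wd (Tsq.mir t)) := by
  have key : ∀ t' : BinaryTree Unit, comps t' = jl n j → t = t' := fun t' h => comps_inj (e.trans h.symm)
  have w1 : wd (ch 1) = [true, false] := rfl
  have w2 : wd (ch 2) = [true, true, false, false] := rfl
  have w3 : wd (ch 3) = [true, true, true, false, false, false] := rfl
  interval_cases j
  · rw [key (ch n △ (ch 2 △ (ch 1 △ .nil))) rfl, Tsq.wd_mir]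
    refine ⟨[true, true, false, false, true, true, true, false, false, false], [], n + 1, n, 0, 2, by decide,
      lt_of_le_of_lt (show _ ≤ 5 by decide) (by omega), (show _ ≤ 0 by decide).trans (by omega), by omega,
      by decide, ?_⟩
    simp [wd, wd_ch n, wd_ch (n + 1), w1, w2, w3, List.replicate_succ, js74_rsw, js74_tsw]
  · rw [key (ch n △ (ch 2 △ (.nil △ (.nil △ .nil)))) rfl, Tsq.wd_mir]
    refine ⟨[true, false, true, false, true, true, true, false, false, false], [], n + 1, n, 0, 2, by decide,
      lt_of_le_of_lt (show _ ≤ 5 by decide) (by omega), (show _ ≤ 0 by decide).trans (by omega), by omega,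
      by decide, ?_⟩
    simp [wd, wd_ch n, wd_ch (n + 1), w1, w2, w3, List.replicate_succ, js74_rsw, js74_tsw]
  · rw [key (.nil △ (ch n △ (ch 2 △ (.nil △ .nil)))) rfl, Tsq.wd_mir]
    refine ⟨[true, false, true, true, true, false, false, false], [true, false], n + 1, n, 0, 2, by decide,
      lt_of_le_of_lt (show _ ≤ 4 by decide) (by omega), (show _ ≤ 1 by decide).trans (by omega), by omega,
      by decide, ?_⟩
    simp [wd, wd_ch n, wd_ch (n + 1), w1, w2, w3, List.replicate_succ, js74_rsw, js74_tsw]
  · rw [key ((ch n △ (ch 2 △ (.nil △ .nil))) △ .nil) rfl, Tsq.wd_mir]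
    refine ⟨[true, true, false, true, true, true, false, false, false], [], n + 1, n + 1, 1, 3, by decide,
      lt_of_le_of_lt (show _ ≤ 5 by decide) (by omega), (show _ ≤ 0 by decide).trans (by omega), by omega,
      by decide, ?_⟩
    simp [wd, wd_ch n, wd_ch (n + 1), w1, w2, w3, List.replicate_succ, js74_rsw, js74_tsw]
  · rw [key (ch 1 △ (ch n △ (ch 2 △ .nil))) rfl, Tsq.wd_mir]
    refine ⟨[true, true, true, false, false, false], [true, true, false, false], n + 1, n, 0, 2, by decide,
      lt_of_le_of_lt (show _ ≤ 3 by decide) (by omega), (show _ ≤ 2 by decide).trans (by omega), by omega,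
      by decide, ?_⟩
    simp [wd, wd_ch n, wd_ch (n + 1), w1, w2, w3, List.replicate_succ, js74_rsw, js74_tsw]
  · rw [key (.nil △ (.nil △ (ch n △ (ch 2 △ .nil)))) rfl, Tsq.wd_mir]
    refine ⟨[true, true, true, false, false, false], [true, false, true, false], n + 1, n, 0, 2, by decide,
      lt_of_le_of_lt (show _ ≤ 3 by decide) (by omega), (show _ ≤ 2 by decide).trans (by omega), by omega,
      by decide, ?_⟩
    simp [wd, wd_ch n, wd_ch (n + 1), w1, w2, w3, List.replicate_succ, js74_rsw, js74_tsw]
  · rw [key ((ch n △ ch 3) △ (.nil △ .nil)) rfl, Tsq.wd_mir]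
    refine ⟨[true, false, true, true, true, true, false, false, false], [], n + 1, n + 1, 1, 3, by decide,
      lt_of_le_of_lt (show _ ≤ 5 by decide) (by omega), (show _ ≤ 0 by decide).trans (by omega), by omega,
      by decide, ?_⟩
    simp [wd, wd_ch n, wd_ch (n + 1), w1, w2, w3, List.replicate_succ, js74_rsw, js74_tsw]
  · rw [key ((.nil △ (ch n △ ch 3)) △ .nil) rfl, Tsq.wd_mir]
    refine ⟨[true, true, true, true, false, false, false], [true, false, false], n + 1, n, 1, 2, by decide,
      lt_of_le_of_lt (show _ ≤ 4 by decide) (by omega), (show _ ≤ 1 by decide).trans (by omega), by omega,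
      by decide, ?_⟩
    simp [wd, wd_ch n, wd_ch (n + 1), w1, w2, w3, List.replicate_succ, js74_rsw, js74_tsw]
  · rw [key (.nil △ ((ch n △ ch 3) △ .nil)) rfl, Tsq.wd_mir]
    refine ⟨[true, true, true, true, false, false, false], [true, false], n + 1, n + 1, 1, 3, by decide,
      lt_of_le_of_lt (show _ ≤ 4 by decide) (by omega), (show _ ≤ 1 by decide).trans (by omega), by omega,
      by decide, ?_⟩
    simp [wd, wd_ch n, wd_ch (n + 1), w1, w2, w3, List.replicate_succ, js74_rsw, js74_tsw]
  · rw [key (((ch n △ ch 3) △ .nil) △ .nil) rfl, Tsq.wd_mir]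
    refine ⟨[true, true, true, true, true, false, false, false], [], n + 1, n + 2, 2, 4, by decide,
      lt_of_le_of_lt (show _ ≤ 5 by decide) (by omega), (show _ ≤ 0 by decide).trans (by omega), by omega,
      by decide, ?_⟩
    simp [wd, wd_ch n, wd_ch (n + 1), w1, w2, w3, List.replicate_succ, js74_rsw, js74_tsw]
  · rw [key (ch 2 △ (ch 1 △ (ch n △ .nil))) rfl, Tsq.wd_mir]
    refine ⟨[], [true, true, false, false, true, true, true, false, false, false], n + 1, n, 0, 3, by decide,
      lt_of_le_of_lt (show _ ≤ 0 by decide) (by omega), (show _ ≤ 5 by decide).trans (by omega), by omega,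
      by decide, ?_⟩
    simp [wd, wd_ch n, wd_ch (n + 1), w1, w2, w3, List.replicate_succ, js74_rsw, js74_tsw]
  · rw [key (ch 2 △ (.nil △ (.nil △ (ch n △ .nil)))) rfl, Tsq.wd_mir]
    refine ⟨[], [true, false, true, false, true, true, true, false, false, false], n + 1, n, 0, 3, by decide,
      lt_of_le_of_lt (show _ ≤ 0 by decide) (by omega), (show _ ≤ 5 by decide).trans (by omega), by omega,
      by decide, ?_⟩
    simp [wd, wd_ch n, wd_ch (n + 1), w1, w2, w3, List.replicate_succ, js74_rsw, js74_tsw]
  · rw [key (ch (n + 1) △ (ch 2 △ (.nil △ .nil))) rfl, Tsq.wd_mir]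
    refine ⟨[true, false, true, true, true, false, false, false], [], n + 2, n + 1, 0, 2, by decide,
      lt_of_le_of_lt (show _ ≤ 4 by decide) (by omega), (show _ ≤ 0 by decide).trans (by omega), by omega,
      by decide, ?_⟩
    simp [wd, wd_ch n, wd_ch (n + 1), w1, w2, w3, List.replicate_succ, js74_rsw, js74_tsw]
  · rw [key (ch n △ ((ch 2 △ (.nil △ .nil)) △ .nil)) rfl, Tsq.wd_mir]
    refine ⟨[true, true, false, true, true, true, false, false, false, false], [], n + 1, n, 0, 3, by decide,
      lt_of_le_of_lt (show _ ≤ 5 by decide) (by omega), (show _ ≤ 0 by decide).trans (by omega), by omega,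
      by decide, ?_⟩
    simp [wd, wd_ch n, wd_ch (n + 1), w1, w2, w3, List.replicate_succ, js74_rsw, js74_tsw]
  · rw [key ((.nil △ ch (n + 1)) △ (ch 2 △ .nil)) rfl, Tsq.wd_mir]
    refine ⟨[true, true, true, false, false, false], [true, false, false], n + 2, n, 0, 1, by decide,
      lt_of_le_of_lt (show _ ≤ 3 by decide) (by omega), (show _ ≤ 1 by decide).trans (by omega), by omega,
      by decide, ?_⟩
    simp [wd, wd_ch n, wd_ch (n + 1), w1, w2, w3, List.replicate_succ, js74_rsw, js74_tsw]
  · rw [key (.nil △ (ch (n + 1) △ (ch 2 △ .nil))) rfl, Tsq.wd_mir]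
    refine ⟨[true, true, true, false, false, false], [true, false], n + 2, n + 1, 0, 2, by decide,
      lt_of_le_of_lt (show _ ≤ 3 by decide) (by omega), (show _ ≤ 1 by decide).trans (by omega), by omega,
      by decide, ?_⟩
    simp [wd, wd_ch n, wd_ch (n + 1), w1, w2, w3, List.replicate_succ, js74_rsw, js74_tsw]
  · rw [key (ch n △ (ch 3 △ (.nil △ .nil))) rfl, Tsq.wd_mir]
    refine ⟨[true, false, true, true, true, true, false, false, false, false], [], n + 1, n, 0, 3, by decide,
      lt_of_le_of_lt (show _ ≤ 5 by decide) (by omega), (show _ ≤ 0 by decide).trans (by omega), by omega,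
      by decide, ?_⟩
    simp [wd, wd_ch n, wd_ch (n + 1), w1, w2, w3, List.replicate_succ, js74_rsw, js74_tsw]
  · rw [key ((ch (n + 1) △ ch 3) △ .nil) rfl, Tsq.wd_mir]
    refine ⟨[true, true, true, true, false, false, false], [], n + 2, n + 2, 1, 3, by decide,
      lt_of_le_of_lt (show _ ≤ 4 by decide) (by omega), (show _ ≤ 0 by decide).trans (by omega), by omega,
      by decide, ?_⟩
    simp [wd, wd_ch n, wd_ch (n + 1), w1, w2, w3, List.replicate_succ, js74_rsw, js74_tsw]
  · rw [key (.nil △ (ch n △ (ch 3 △ .nil))) rfl, Tsq.wd_mir]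
    refine ⟨[true, true, true, true, false, false, false, false], [true, false], n + 1, n, 0, 3, by decide,
      lt_of_le_of_lt (show _ ≤ 4 by decide) (by omega), (show _ ≤ 1 by decide).trans (by omega), by omega,
      by decide, ?_⟩
    simp [wd, wd_ch n, wd_ch (n + 1), w1, w2, w3, List.replicate_succ, js74_rsw, js74_tsw]
  · rw [key ((ch n △ (ch 3 △ .nil)) △ .nil) rfl, Tsq.wd_mir]
    refine ⟨[true, true, true, true, true, false, false, false, false], [], n + 1, n + 1, 1, 4, by decide,
      lt_of_le_of_lt (show _ ≤ 5 by decide) (by omega), (show _ ≤ 0 by decide).trans (by omega), by omega,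
      by decide, ?_⟩
    simp [wd, wd_ch n, wd_ch (n + 1), w1, w2, w3, List.replicate_succ, js74_rsw, js74_tsw]

/-- all twenty words of `jt` have long runs -/
theorem LR_jt {n j : ℕ} (hn : 6 ≤ n) (hj : j < 20) {t : BinaryTree Unit} (e : comps t = jt n j) :
    LR 1 (wd t) ∧ (j ≠ 13 → j ≠ 16 → j ≠ 18 → j ≠ 19 → LR 2 (wd t)) := by
  have key : ∀ t' : BinaryTree Unit, comps t' = jt n j → t = t' := fun t' h => comps_inj (e.trans h.symm)
  have w1 : wd (ch 1) = [true, false] := rfl
  have w2 : wd (ch 2) = [true, true, false, false] := rfl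
  have w3 : wd (ch 3) = [true, true, true, false, false, false] := rfl
  have w4 : wd (ch 4) = [true, true, true, true, false, false, false, false] := rfl
  interval_cases j
  · rw [key (ch n △ (ch 3 △ (ch 1 △ .nil))) rfl]
    have h : LR 2 (wd (ch n △ (ch 3 △ (ch 1 △ .nil)))) := by
      refine ⟨[], [true, true, true, true, false, false, false, false, true, true, false, false], n + 1, n, 0, 4, by decide,
        lt_of_le_of_lt (show _ ≤ 0 by decide) (by omega), (show _ ≤ 6 by decide).trans (by omega), by omega,
        by decide, ?_⟩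
      simp [wd, wd_ch n, wd_ch (n + 1), w1, w2, w3, w4, List.replicate_succ, js74_rsw, js74_tsw]
    exact ⟨h.one, fun _ _ _ _ => h⟩
  · rw [key (ch n △ (ch 3 △ (.nil △ (.nil △ .nil)))) rfl]
    have h : LR 2 (wd (ch n △ (ch 3 △ (.nil △ (.nil △ .nil))))) := by
      refine ⟨[], [true, true, true, true, false, false, false, false, true, false, true, false], n + 1, n, 0, 4, by decide,
        lt_of_le_of_lt (show _ ≤ 0 by decide) (by omega), (show _ ≤ 6 by decide).trans (by omega), by omega,
        by decide, ?_⟩
      simp [wd, wd_ch n, wd_ch (n + 1), w1, w2, w3, w4, List.replicate_succ, js74_rsw, js74_tsw]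
    exact ⟨h.one, fun _ _ _ _ => h⟩
  · rw [key (.nil △ (ch n △ (ch 3 △ (.nil △ .nil)))) rfl]
    have h : LR 2 (wd (.nil △ (ch n △ (ch 3 △ (.nil △ .nil))))) := by
      refine ⟨[true, false], [true, true, true, true, false, false, false, false, true, false], n + 1, n, 0, 4, by decide,
        lt_of_le_of_lt (show _ ≤ 1 by decide) (by omega), (show _ ≤ 5 by decide).trans (by omega), by omega,
        by decide, ?_⟩
      simp [wd, wd_ch n, wd_ch (n + 1), w1, w2, w3, w4, List.replicate_succ, js74_rsw, js74_tsw]
    exact ⟨h.one, fun _ _ _ _ => h⟩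
  · rw [key ((ch n △ (ch 3 △ (.nil △ .nil))) △ .nil) rfl]
    have h : LR 2 (wd ((ch n △ (ch 3 △ (.nil △ .nil))) △ .nil)) := by
      refine ⟨[], [true, true, true, true, false, false, false, false, true, false, false], n + 2, n, 0, 4, by decide,
        lt_of_le_of_lt (show _ ≤ 0 by decide) (by omega), (show _ ≤ 5 by decide).trans (by omega), by omega,
        by decide, ?_⟩
      simp [wd, wd_ch n, wd_ch (n + 1), w1, w2, w3, w4, List.replicate_succ, js74_rsw, js74_tsw]
    exact ⟨h.one, fun _ _ _ _ => h⟩
  · rw [key (ch 1 △ (ch n △ (ch 3 △ .nil))) rfl]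
    have h : LR 2 (wd (ch 1 △ (ch n △ (ch 3 △ .nil)))) := by
      refine ⟨[true, true, false, false], [true, true, true, true, false, false, false, false], n + 1, n, 0, 4, by decide,
        lt_of_le_of_lt (show _ ≤ 2 by decide) (by omega), (show _ ≤ 4 by decide).trans (by omega), by omega,
        by decide, ?_⟩
      simp [wd, wd_ch n, wd_ch (n + 1), w1, w2, w3, w4, List.replicate_succ, js74_rsw, js74_tsw]
    exact ⟨h.one, fun _ _ _ _ => h⟩
  · rw [key (.nil △ (.nil △ (ch n △ (ch 3 △ .nil)))) rfl]
    have h : LR 2 (wd (.nil △ (.nil △ (ch n △ (ch 3 △ .nil))))) := by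
      refine ⟨[true, false, true, false], [true, true, true, true, false, false, false, false], n + 1, n, 0, 4, by decide,
        lt_of_le_of_lt (show _ ≤ 2 by decide) (by omega), (show _ ≤ 4 by decide).trans (by omega), by omega,
        by decide, ?_⟩
      simp [wd, wd_ch n, wd_ch (n + 1), w1, w2, w3, w4, List.replicate_succ, js74_rsw, js74_tsw]
    exact ⟨h.one, fun _ _ _ _ => h⟩
  · rw [key ((ch n △ ch 4) △ (.nil △ .nil)) rfl]
    have h : LR 2 (wd ((ch n △ ch 4) △ (.nil △ .nil))) := by
      refine ⟨[], [true, true, true, true, false, false, false, false, false, true, false], n + 2, n, 0, 4, by decide,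
        lt_of_le_of_lt (show _ ≤ 0 by decide) (by omega), (show _ ≤ 5 by decide).trans (by omega), by omega,
        by decide, ?_⟩
      simp [wd, wd_ch n, wd_ch (n + 1), w1, w2, w3, w4, List.replicate_succ, js74_rsw, js74_tsw]
    exact ⟨h.one, fun _ _ _ _ => h⟩
  · rw [key ((.nil △ (ch n △ ch 4)) △ .nil) rfl]
    have h : LR 2 (wd ((.nil △ (ch n △ ch 4)) △ .nil)) := by
      refine ⟨[true, true, false], [true, true, true, true, false, false, false, false, false], n + 1, n, 1, 4, by decide,
        lt_of_le_of_lt (show _ ≤ 2 by decide) (by omega), (show _ ≤ 4 by decide).trans (by omega), by omega,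
        by decide, ?_⟩
      simp [wd, wd_ch n, wd_ch (n + 1), w1, w2, w3, w4, List.replicate_succ, js74_rsw, js74_tsw]
    exact ⟨h.one, fun _ _ _ _ => h⟩
  · rw [key (.nil △ ((ch n △ ch 4) △ .nil)) rfl]
    have h : LR 2 (wd (.nil △ ((ch n △ ch 4) △ .nil))) := by
      refine ⟨[true, false], [true, true, true, true, false, false, false, false, false], n + 2, n, 0, 4, by decide,
        lt_of_le_of_lt (show _ ≤ 1 by decide) (by omega), (show _ ≤ 4 by decide).trans (by omega), by omega,
        by decide, ?_⟩
      simp [wd, wd_ch n, wd_ch (n + 1), w1, w2, w3, w4, List.replicate_succ, js74_rsw, js74_tsw]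
    exact ⟨h.one, fun _ _ _ _ => h⟩
  · rw [key (((ch n △ ch 4) △ .nil) △ .nil) rfl]
    have h : LR 2 (wd (((ch n △ ch 4) △ .nil) △ .nil)) := by
      refine ⟨[], [true, true, true, true, false, false, false, false, false, false], n + 3, n, 0, 4, by decide,
        lt_of_le_of_lt (show _ ≤ 0 by decide) (by omega), (show _ ≤ 4 by decide).trans (by omega), by omega,
        by decide, ?_⟩
      simp [wd, wd_ch n, wd_ch (n + 1), w1, w2, w3, w4, List.replicate_succ, js74_rsw, js74_tsw]
    exact ⟨h.one, fun _ _ _ _ => h⟩
  · rw [key (ch 3 △ (ch 1 △ (ch n △ .nil))) rfl]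
    have h : LR 2 (wd (ch 3 △ (ch 1 △ (ch n △ .nil)))) := by
      refine ⟨[true, true, true, true, false, false, false, false, true, true, false, false], [], n + 1, n, 0, 3, by decide,
        lt_of_le_of_lt (show _ ≤ 6 by decide) (by omega), (show _ ≤ 0 by decide).trans (by omega), by omega,
        by decide, ?_⟩
      simp [wd, wd_ch n, wd_ch (n + 1), w1, w2, w3, w4, List.replicate_succ, js74_rsw, js74_tsw]
    exact ⟨h.one, fun _ _ _ _ => h⟩
  · rw [key (ch 3 △ (.nil △ (.nil △ (ch n △ .nil)))) rfl]
    have h : LR 2 (wd (ch 3 △ (.nil △ (.nil △ (ch n △ .nil))))) := by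
      refine ⟨[true, true, true, true, false, false, false, false, true, false, true, false], [], n + 1, n, 0, 3, by decide,
        lt_of_le_of_lt (show _ ≤ 6 by decide) (by omega), (show _ ≤ 0 by decide).trans (by omega), by omega,
        by decide, ?_⟩
      simp [wd, wd_ch n, wd_ch (n + 1), w1, w2, w3, w4, List.replicate_succ, js74_rsw, js74_tsw]
    exact ⟨h.one, fun _ _ _ _ => h⟩
  · rw [key (ch (n + 1) △ (ch 3 △ (.nil △ .nil))) rfl]
    have h : LR 2 (wd (ch (n + 1) △ (ch 3 △ (.nil △ .nil)))) := by
      refine ⟨[], [true, true, true, true, false, false, false, false, true, false], n + 2, n + 1, 0, 4, by decide,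
        lt_of_le_of_lt (show _ ≤ 0 by decide) (by omega), (show _ ≤ 5 by decide).trans (by omega), by omega,
        by decide, ?_⟩
      simp [wd, wd_ch n, wd_ch (n + 1), w1, w2, w3, w4, List.replicate_succ, js74_rsw, js74_tsw]
    exact ⟨h.one, fun _ _ _ _ => h⟩
  · rw [key (ch n △ ((ch 3 △ (.nil △ .nil)) △ .nil)) rfl]
    refine ⟨⟨[], [true, true, true, true, true, false, false, false, false, true, false, false], n + 1, n, 0, 5, by decide,
      lt_of_le_of_lt (show _ ≤ 0 by decide) (by omega), (show _ ≤ 6 by decide).trans (by omega), by omega,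
      by decide, ?_⟩, by simp⟩
    simp [wd, wd_ch n, wd_ch (n + 1), w1, w2, w3, w4, List.replicate_succ, js74_rsw, js74_tsw]
  · rw [key ((.nil △ ch (n + 1)) △ (ch 3 △ .nil)) rfl]
    have h : LR 2 (wd ((.nil △ ch (n + 1)) △ (ch 3 △ .nil))) := by
      refine ⟨[true, true, false], [true, true, true, true, false, false, false, false], n + 1, n + 1, 1, 4, by decide,
        lt_of_le_of_lt (show _ ≤ 2 by decide) (by omega), (show _ ≤ 4 by decide).trans (by omega), by omega,
        by decide, ?_⟩
      simp [wd, wd_ch n, wd_ch (n + 1), w1, w2, w3, w4, List.replicate_succ, js74_rsw, js74_tsw]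
    exact ⟨h.one, fun _ _ _ _ => h⟩
  · rw [key (.nil △ (ch (n + 1) △ (ch 3 △ .nil))) rfl]
    have h : LR 2 (wd (.nil △ (ch (n + 1) △ (ch 3 △ .nil)))) := by
      refine ⟨[true, false], [true, true, true, true, false, false, false, false], n + 2, n + 1, 0, 4, by decide,
        lt_of_le_of_lt (show _ ≤ 1 by decide) (by omega), (show _ ≤ 4 by decide).trans (by omega), by omega,
        by decide, ?_⟩
      simp [wd, wd_ch n, wd_ch (n + 1), w1, w2, w3, w4, List.replicate_succ, js74_rsw, js74_tsw]
    exact ⟨h.one, fun _ _ _ _ => h⟩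
  · rw [key (ch n △ (ch 4 △ (.nil △ .nil))) rfl]
    refine ⟨⟨[], [true, true, true, true, true, false, false, false, false, false, true, false], n + 1, n, 0, 5, by decide,
      lt_of_le_of_lt (show _ ≤ 0 by decide) (by omega), (show _ ≤ 6 by decide).trans (by omega), by omega,
      by decide, ?_⟩, by simp⟩
    simp [wd, wd_ch n, wd_ch (n + 1), w1, w2, w3, w4, List.replicate_succ, js74_rsw, js74_tsw]
  · rw [key ((ch (n + 1) △ ch 4) △ .nil) rfl]
    have h : LR 2 (wd ((ch (n + 1) △ ch 4) △ .nil)) := by
      refine ⟨[], [true, true, true, true, false, false, false, false, false], n + 3, n + 1, 0, 4, by decide,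
        lt_of_le_of_lt (show _ ≤ 0 by decide) (by omega), (show _ ≤ 4 by decide).trans (by omega), by omega,
        by decide, ?_⟩
      simp [wd, wd_ch n, wd_ch (n + 1), w1, w2, w3, w4, List.replicate_succ, js74_rsw, js74_tsw]
    exact ⟨h.one, fun _ _ _ _ => h⟩
  · rw [key (.nil △ (ch n △ (ch 4 △ .nil))) rfl]
    refine ⟨⟨[true, false], [true, true, true, true, true, false, false, false, false, false], n + 1, n, 0, 5, by decide,
      lt_of_le_of_lt (show _ ≤ 1 by decide) (by omega), (show _ ≤ 5 by decide).trans (by omega), by omega,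
      by decide, ?_⟩, by simp⟩
    simp [wd, wd_ch n, wd_ch (n + 1), w1, w2, w3, w4, List.replicate_succ, js74_rsw, js74_tsw]
  · rw [key ((ch n △ (ch 4 △ .nil)) △ .nil) rfl]
    refine ⟨⟨[], [true, true, true, true, true, false, false, false, false, false, false], n + 2, n, 0, 5, by decide,
      lt_of_le_of_lt (show _ ≤ 0 by decide) (by omega), (show _ ≤ 5 by decide).trans (by omega), by omega,
      by decide, ?_⟩, by simp⟩
    simp [wd, wd_ch n, wd_ch (n + 1), w1, w2, w3, w4, List.replicate_succ, js74_rsw, js74_tsw]

/-- all twenty mirrored words of `jt` have long runs -/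
theorem LR_jtm {n j : ℕ} (hn : 6 ≤ n) (hj : j < 20) {t : BinaryTree Unit} (e : comps t = jt n j) :
    LR 2 (wd (Tsq.mir t)) := by
  have key : ∀ t' : BinaryTree Unit, comps t' = jt n j → t = t' := fun t' h => comps_inj (e.trans h.symm)
  have w1 : wd (ch 1) = [true, false] := rfl
  have w2 : wd (ch 2) = [true, true, false, false] := rfl
  have w3 : wd (ch 3) = [true, true, true, false, false, false] := rfl
  have w4 : wd (ch 4) = [true, true, true, true, false, false, false, false] := rfl
  interval_cases j
  · rw [key (ch n △ (ch 3 △ (ch 1 △ .nil))) rfl, Tsq.wd_mir]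
    refine ⟨[true, true, false, false, true, true, true, true, false, false, false, false], [], n + 1, n, 0, 3, by decide,
      lt_of_le_of_lt (show _ ≤ 6 by decide) (by omega), (show _ ≤ 0 by decide).trans (by omega), by omega,
      by decide, ?_⟩
    simp [wd, wd_ch n, wd_ch (n + 1), w1, w2, w3, w4, List.replicate_succ, js74_rsw, js74_tsw]
  · rw [key (ch n △ (ch 3 △ (.nil △ (.nil △ .nil)))) rfl, Tsq.wd_mir]
    refine ⟨[true, false, true, false, true, true, true, true, false, false, false, false], [], n + 1, n, 0, 3, by decide,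
      lt_of_le_of_lt (show _ ≤ 6 by decide) (by omega), (show _ ≤ 0 by decide).trans (by omega), by omega,
      by decide, ?_⟩
    simp [wd, wd_ch n, wd_ch (n + 1), w1, w2, w3, w4, List.replicate_succ, js74_rsw, js74_tsw]
  · rw [key (.nil △ (ch n △ (ch 3 △ (.nil △ .nil)))) rfl, Tsq.wd_mir]
    refine ⟨[true, false, true, true, true, true, false, false, false, false], [true, false], n + 1, n, 0, 3, by decide,
      lt_of_le_of_lt (show _ ≤ 5 by decide) (by omega), (show _ ≤ 1 by decide).trans (by omega), by omega,
      by decide, ?_⟩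
    simp [wd, wd_ch n, wd_ch (n + 1), w1, w2, w3, w4, List.replicate_succ, js74_rsw, js74_tsw]
  · rw [key ((ch n △ (ch 3 △ (.nil △ .nil))) △ .nil) rfl, Tsq.wd_mir]
    refine ⟨[true, true, false, true, true, true, true, false, false, false, false], [], n + 1, n + 1, 1, 4, by decide,
      lt_of_le_of_lt (show _ ≤ 6 by decide) (by omega), (show _ ≤ 0 by decide).trans (by omega), by omega,
      by decide, ?_⟩
    simp [wd, wd_ch n, wd_ch (n + 1), w1, w2, w3, w4, List.replicate_succ, js74_rsw, js74_tsw]
  · rw [key (ch 1 △ (ch n △ (ch 3 △ .nil))) rfl, Tsq.wd_mir]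
    refine ⟨[true, true, true, true, false, false, false, false], [true, true, false, false], n + 1, n, 0, 3, by decide,
      lt_of_le_of_lt (show _ ≤ 4 by decide) (by omega), (show _ ≤ 2 by decide).trans (by omega), by omega,
      by decide, ?_⟩
    simp [wd, wd_ch n, wd_ch (n + 1), w1, w2, w3, w4, List.replicate_succ, js74_rsw, js74_tsw]
  · rw [key (.nil △ (.nil △ (ch n △ (ch 3 △ .nil)))) rfl, Tsq.wd_mir]
    refine ⟨[true, true, true, true, false, false, false, false], [true, false, true, false], n + 1, n, 0, 3, by decide,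
      lt_of_le_of_lt (show _ ≤ 4 by decide) (by omega), (show _ ≤ 2 by decide).trans (by omega), by omega,
      by decide, ?_⟩
    simp [wd, wd_ch n, wd_ch (n + 1), w1, w2, w3, w4, List.replicate_succ, js74_rsw, js74_tsw]
  · rw [key ((ch n △ ch 4) △ (.nil △ .nil)) rfl, Tsq.wd_mir]
    refine ⟨[true, false, true, true, true, true, true, false, false, false, false], [], n + 1, n + 1, 1, 4, by decide,
      lt_of_le_of_lt (show _ ≤ 6 by decide) (by omega), (show _ ≤ 0 by decide).trans (by omega), by omega,
      by decide, ?_⟩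
    simp [wd, wd_ch n, wd_ch (n + 1), w1, w2, w3, w4, List.replicate_succ, js74_rsw, js74_tsw]
  · rw [key ((.nil △ (ch n △ ch 4)) △ .nil) rfl, Tsq.wd_mir]
    refine ⟨[true, true, true, true, true, false, false, false, false], [true, false, false], n + 1, n, 1, 3, by decide,
      lt_of_le_of_lt (show _ ≤ 5 by decide) (by omega), (show _ ≤ 1 by decide).trans (by omega), by omega,
      by decide, ?_⟩
    simp [wd, wd_ch n, wd_ch (n + 1), w1, w2, w3, w4, List.replicate_succ, js74_rsw, js74_tsw]
  · rw [key (.nil △ ((ch n △ ch 4) △ .nil)) rfl, Tsq.wd_mir]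
    refine ⟨[true, true, true, true, true, false, false, false, false], [true, false], n + 1, n + 1, 1, 4, by decide,
      lt_of_le_of_lt (show _ ≤ 5 by decide) (by omega), (show _ ≤ 1 by decide).trans (by omega), by omega,
      by decide, ?_⟩
    simp [wd, wd_ch n, wd_ch (n + 1), w1, w2, w3, w4, List.replicate_succ, js74_rsw, js74_tsw]
  · rw [key (((ch n △ ch 4) △ .nil) △ .nil) rfl, Tsq.wd_mir]
    refine ⟨[true, true, true, true, true, true, false, false, false, false], [], n + 1, n + 2, 2, 5, by decide,
      lt_of_le_of_lt (show _ ≤ 6 by decide) (by omega), (show _ ≤ 0 by decide).trans (by omega), by omega,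
      by decide, ?_⟩
    simp [wd, wd_ch n, wd_ch (n + 1), w1, w2, w3, w4, List.replicate_succ, js74_rsw, js74_tsw]
  · rw [key (ch 3 △ (ch 1 △ (ch n △ .nil))) rfl, Tsq.wd_mir]
    refine ⟨[], [true, true, false, false, true, true, true, true, false, false, false, false], n + 1, n, 0, 4, by decide,
      lt_of_le_of_lt (show _ ≤ 0 by decide) (by omega), (show _ ≤ 6 by decide).trans (by omega), by omega,
      by decide, ?_⟩
    simp [wd, wd_ch n, wd_ch (n + 1), w1, w2, w3, w4, List.replicate_succ, js74_rsw, js74_tsw]
  · rw [key (ch 3 △ (.nil △ (.nil △ (ch n △ .nil)))) rfl, Tsq.wd_mir]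
    refine ⟨[], [true, false, true, false, true, true, true, true, false, false, false, false], n + 1, n, 0, 4, by decide,
      lt_of_le_of_lt (show _ ≤ 0 by decide) (by omega), (show _ ≤ 6 by decide).trans (by omega), by omega,
      by decide, ?_⟩
    simp [wd, wd_ch n, wd_ch (n + 1), w1, w2, w3, w4, List.replicate_succ, js74_rsw, js74_tsw]
  · rw [key (ch (n + 1) △ (ch 3 △ (.nil △ .nil))) rfl, Tsq.wd_mir]
    refine ⟨[true, false, true, true, true, true, false, false, false, false], [], n + 2, n + 1, 0, 3, by decide,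
      lt_of_le_of_lt (show _ ≤ 5 by decide) (by omega), (show _ ≤ 0 by decide).trans (by omega), by omega,
      by decide, ?_⟩
    simp [wd, wd_ch n, wd_ch (n + 1), w1, w2, w3, w4, List.replicate_succ, js74_rsw, js74_tsw]
  · rw [key (ch n △ ((ch 3 △ (.nil △ .nil)) △ .nil)) rfl, Tsq.wd_mir]
    refine ⟨[true, true, false, true, true, true, true, false, false, false, false, false], [], n + 1, n, 0, 4, by decide,
      lt_of_le_of_lt (show _ ≤ 6 by decide) (by omega), (show _ ≤ 0 by decide).trans (by omega), by omega,
      by decide, ?_⟩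
    simp [wd, wd_ch n, wd_ch (n + 1), w1, w2, w3, w4, List.replicate_succ, js74_rsw, js74_tsw]
  · rw [key ((.nil △ ch (n + 1)) △ (ch 3 △ .nil)) rfl, Tsq.wd_mir]
    refine ⟨[true, true, true, true, false, false, false, false], [true, false, false], n + 2, n, 0, 2, by decide,
      lt_of_le_of_lt (show _ ≤ 4 by decide) (by omega), (show _ ≤ 1 by decide).trans (by omega), by omega,
      by decide, ?_⟩
    simp [wd, wd_ch n, wd_ch (n + 1), w1, w2, w3, w4, List.replicate_succ, js74_rsw, js74_tsw]
  · rw [key (.nil △ (ch (n + 1) △ (ch 3 △ .nil))) rfl, Tsq.wd_mir]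
    refine ⟨[true, true, true, true, false, false, false, false], [true, false], n + 2, n + 1, 0, 3, by decide,
      lt_of_le_of_lt (show _ ≤ 4 by decide) (by omega), (show _ ≤ 1 by decide).trans (by omega), by omega,
      by decide, ?_⟩
    simp [wd, wd_ch n, wd_ch (n + 1), w1, w2, w3, w4, List.replicate_succ, js74_rsw, js74_tsw]
  · rw [key (ch n △ (ch 4 △ (.nil △ .nil))) rfl, Tsq.wd_mir]
    refine ⟨[true, false, true, true, true, true, true, false, false, false, false, false], [], n + 1, n, 0, 4, by decide,
      lt_of_le_of_lt (show _ ≤ 6 by decide) (by omega), (show _ ≤ 0 by decide).trans (by omega), by omega,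
      by decide, ?_⟩
    simp [wd, wd_ch n, wd_ch (n + 1), w1, w2, w3, w4, List.replicate_succ, js74_rsw, js74_tsw]
  · rw [key ((ch (n + 1) △ ch 4) △ .nil) rfl, Tsq.wd_mir]
    refine ⟨[true, true, true, true, true, false, false, false, false], [], n + 2, n + 2, 1, 4, by decide,
      lt_of_le_of_lt (show _ ≤ 5 by decide) (by omega), (show _ ≤ 0 by decide).trans (by omega), by omega,
      by decide, ?_⟩
    simp [wd, wd_ch n, wd_ch (n + 1), w1, w2, w3, w4, List.replicate_succ, js74_rsw, js74_tsw]
  · rw [key (.nil △ (ch n △ (ch 4 △ .nil))) rfl, Tsq.wd_mir]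
    refine ⟨[true, true, true, true, true, false, false, false, false, false], [true, false], n + 1, n, 0, 4, by decide,
      lt_of_le_of_lt (show _ ≤ 5 by decide) (by omega), (show _ ≤ 1 by decide).trans (by omega), by omega,
      by decide, ?_⟩
    simp [wd, wd_ch n, wd_ch (n + 1), w1, w2, w3, w4, List.replicate_succ, js74_rsw, js74_tsw]
  · rw [key ((ch n △ (ch 4 △ .nil)) △ .nil) rfl, Tsq.wd_mir]
    refine ⟨[true, true, true, true, true, true, false, false, false, false, false], [], n + 1, n + 1, 1, 5, by decide,
      lt_of_le_of_lt (show _ ≤ 6 by decide) (by omega), (show _ ≤ 0 by decide).trans (by omega), by omega,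
      by decide, ?_⟩
    simp [wd, wd_ch n, wd_ch (n + 1), w1, w2, w3, w4, List.replicate_succ, js74_rsw, js74_tsw]

end J1

end Pool.OddHC
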