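import Pool.Agent.Work.MP_8f87b2_h74.RowJ1
import Pool.Agent.Work.MP_8f87b2_h73.Row2
import Pool.Agent.Work.MP_8f87b2_h63.BWg

/-!
# MP_8f87b2_co: all right windows with `q ≥ 1` (helper63's `PWb`) against the top, the layer `k - 4` and the bottom

`TyBw` (no square), `TyBwE`, `TyRq`, `TyRqE`, `TyMarB` by `.pw`.
-/

set_option autoImplicit false

namespace Pool.OddHC

open Finset BinaryTree Equiv Pool.OddHop

section

variable {n q : ℕ} {R B S : BinaryTree Unit}

/-- two parts at least 3: the height is small -/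
theorem H1.PD.num74 (h : H1.PD q R B S) : ht R + 3 ≤ R.numNodes := by
  have hsup : ht R = (cont R).sup := OddHC.ht_eq R
  have h0 : cont R ≠ 0 := by
    intro e
    have := h.two
    rw [e] at this
    simp [H1.n2] at this
  have hmem : ht R ∈ cont R := by
    rw [hsup]
    exact sup_mem h0
  obtain ⟨M, hM⟩ := Multiset.exists_cons_of_mem hmem
  have hM0 : M ≠ 0 := by
    intro e
    have := h.two
    rw [hM, e] at this
    have h2 := Multiset.countP_le_card (p := fun x => 2 ≤ x) (ht R ::ₘ (0 : Multiset ℕ))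
    rw [Multiset.card_cons, Multiset.card_zero] at h2
    unfold H1.n2 at this
    omega
  obtain ⟨b, hb⟩ := Multiset.exists_mem_of_ne_zero hM0
  obtain ⟨N, hN⟩ := Multiset.exists_cons_of_mem hb
  have hb3 : 3 ≤ b := h.R3 b (by rw [hM, hN]; simp)
  have hs := cont_sum R
  rw [hM, hN, Multiset.sum_cons, Multiset.sum_cons] at hs
  omega

/-- the heights of the words -/
theorem H1.PD.low74 (h : H1.PD q R B S) (hk : R.numNodes + q + 3 = n + 7) {i : ℕ} (hi : i < 20) :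
    4 ≤ ht (H1.W R (H1.ch (q + 1)) B S i) ∧ ht (H1.W R (H1.ch (q + 1)) B S i) ≤ n + 2 := by
  have h1 := h.dat.htS
  have h2 := h.dat.htB
  have h4 := h.dat.big
  have h5 := h.num74
  have h6 := h.q1
  have hq : ht (H1.ch (q + 1)) = q + 1 := ht_ch74 _
  constructor
  · interval_cases i <;> simp only [H1.W, ht_app, ht_node, T4.ht_nil, hq] <;> omega
  · interval_cases i <;> simp only [H1.W, ht_app, ht_node, T4.ht_nil, hq] <;> omega

end

section

variable {n : ℕ} {F : Set (Cyc (n + 2 + 5))} {g : DG (n + 2 + 5)}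

theorem PWb.word74 {q : ℕ} {R B S : BinaryTree Unit} (h : H1.PD q R B S) {i : ℕ} (hi : i < 20) {w : X (n + 2 + 5)}
    (e : w.1 = H1.W R (H1.ch (q + 1)) B S i) : 4 ≤ ht w.1 ∧ ht w.1 ≤ n + 2 := by
  have hk := X_num w
  rw [e, H1.num_W h.dat _ i hi, H1.ch_num] at hk
  rw [e]
  exact h.low74 (by omega) hi

/-- **TOP ROW of all windows with `q ≥ 1`** -/
theorem PWb.top (hn : 3 ≤ n) (h : PWb g) : ∀ w ∈ g.B, FreeTop n w := by
  intro w hw
  obtain ⟨q, R, B, S, i, h1, hi, e⟩ := h.w w hw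
  exact T4.LowW.freeTop74 (by omega) (Or.inl (PWb.word74 h1.pd hi e).2)

/-- **TOP ROW of all windows with `q ≥ 1`**, inner words -/
theorem PWb.topI (hn : 3 ≤ n) (h : PWb g) : ∀ a ∈ g.arcs, ∀ w ∈ innA a, FreeTop n w := by
  intro p hp w hw
  obtain ⟨q, R, B, S, i, x, h1, hi, e, rfl⟩ := h.a p hp w hw
  have hi20 : i < 20 := by
    simp only [List.mem_cons, List.not_mem_nil, or_false] at hi
    omega
  refine T4.LowW.freeTop74 (by omega) (Or.inl ?_)
  rw [ht_TT74]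
  exact (PWb.word74 h1.pd hi20 e).2

/-- **BOTTOM ROW of all windows with `q ≥ 1`** -/
theorem PWb.bot (s : Bool) (h : PWb g) : ∀ w ∈ g.B, w ∉ botW (n + 2 + 5) s := by
  intro w hw
  obtain ⟨q, R, B, S, i, h1, hi, e⟩ := h.w w hw
  have := (PWb.word74 h1.pd hi e).1
  exact bot_free (by omega) (Or.inl this)

/-- **ROWS of Bw** (no square) -/
theorem TyBw.top (hn : 3 ≤ n) (h : TyBw F g) (h2 : ∀ d ∈ F, 2 ∉ contc d) : ∀ w ∈ g.B, FreeTop n w :=
  (h.pw h2).top hn

theorem TyBw.topI (hn : 3 ≤ n) (h : TyBw F g) (h2 : ∀ d ∈ F, 2 ∉ contc d) : ∀ a ∈ g.arcs, ∀ w ∈ innA a, FreeTop n w :=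
  (h.pw h2).topI hn

theorem TyBw.bot (s : Bool) (h : TyBw F g) (h2 : ∀ d ∈ F, 2 ∉ contc d) : ∀ w ∈ g.B, w ∉ botW (n + 2 + 5) s :=
  (h.pw h2).bot s

end

end Pool.OddHC
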