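import Pool.Agent.Work.MP_8f87b2_h74.RowT
import Pool.Agent.Work.MP_8f87b2_h74.SqInT

/-!
# MP_8f87b2_co: the types J1 (`TyJs`, `TyJt`) against the top, the layer `k - 4` and the bottom (`k = n + 7`)

`TyJs` : F = `(n+2, 3, 2)` (t = 5). The words 12, 15, 17 are the words 16, 18, 19 of `T4.WR n`; everything else is free.
`TyJt` : F = `(n+1, 4, 2)` (t = 6): everything is free.
-/

set_option autoImplicit false

namespace Pool.OddHC

open Finset BinaryTree Equiv Pool.OddHop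

/-- a prime word of height `k - 3` with two peaks in the layer is the word 19 of `WR` -/
theorem T4.prime2_74 {n : ℕ} (hn : 1 ≤ n) {w : X (n + 2 + 5)} (h : w ∈ T4.WAll n) (h1 : ht w.1 = n + 4)
    (h2 : pkn w.1 = 2) {Y : BinaryTree Unit} (e : w.1 = Y △ .nil) : w = T4.wr n 19 := by
  rcases h with ⟨q, h⟩ | h | ⟨a, ha, h⟩ | h | h | h | h | h | h | ⟨q, hq, h⟩
  · have := T4.numH h.1; omega
  · rcases h with rfl | rfl | rfl
    · change pw (n + 3) △ pw 3 = _ at e
      exact absurd (H1.node_inj e).2 (by simp [pw_succ])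
    · have := T4.pB_inv hn; omega
    · have := T4.pC_inv n; omega
  · have := T4.numE h; omega
  · rcases T4.numK h with a | a | a <;> omega
  · rcases T4.numL h with a | a | a <;> omega
  · rcases T4.numM h with a | a | a <;> omega
  · rcases T4.numHr h with a | a | a <;> omega
  · rcases T4.numHl h with a | a | a <;> omega
  · obtain ⟨i, hi, -, rfl⟩ := h
    have hv := T4.wr_inv hn i hi
    have h3 := congrArg Prod.fst hv
    have h4 := congrArg Prod.snd hv
    change ht _ = _ at h3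
    change pkn _ = _ at h4
    rw [h3] at h1
    rw [h4] at h2
    interval_cases i <;> first
      | rfl
      | (exfalso; simp [T4.hr] at h1; done)
      | (exfalso; simp [T4.hr] at h2; done)
  · have := T4.numJ hq h; omega

/-- the words of the layer `k - 4` contain no word of `WR` (true for `n + 3 ≢ 2 mod 4`) -/
def NoWR74 (n : ℕ) : Prop :=
  ∀ (ι : Q3 (n + 2) → Q3 (n + 2)) (W4 : Set (X (n + 2 + 5))), T4.Lay n ι W4 → ∀ w ∈ T4.WR n, w ∉ W4

section tab

open H1

variable {s c : ℕ}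

/-- the heights of the words of J1 minus `s` -/
def jT74 : ℕ → ℕ
  | 3 => 1
  | 6 => 1
  | 7 => 1
  | 8 => 1
  | 9 => 2
  | 12 => 1
  | 14 => 1
  | 15 => 1
  | 17 => 2
  | 19 => 1
  | _ => 0

theorem j1_htT74 (hc : 1 ≤ c) (hs : c + 1 ≤ s) {i : ℕ} (hi : i < 20) : ht (J.j1w s c i) = s + jT74 i := by
  have hS := ht_ch74 s
  have hC := ht_ch74 c
  interval_cases i <;>
    simp only [J.j1w, W, ht_app, ht_node, T4.ht_nil, hS, hC, jT74] <;> omega

/-- the heights of the words of J1 -/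
theorem j1_tab74 (hc : 1 ≤ c) (hs : c + 1 ≤ s) {i : ℕ} (hi : i < 20) :
    s ≤ ht (J.j1w s c i) ∧ (ht (J.j1w s c i) = s ∨ (ht (J.j1w s c i) = s + 1 ∧
      (i = 3 ∨ i = 6 ∨ i = 7 ∨ i = 8 ∨ i = 12 ∨ i = 14 ∨ i = 15 ∨ i = 19)) ∨
      (ht (J.j1w s c i) = s + 2 ∧ (i = 9 ∨ i = 17))) := by
  have e := j1_htT74 hc hs hi
  rw [e]
  interval_cases i <;> simp [jT74]

end tab

section Js

open H1 SRun

variable {n : ℕ} {F : Set (Cyc (n + 2 + 5))} {g : DG (n + 2 + 5)}

theorem pw_ne74 {m : ℕ} (hm : 1 ≤ m) : pw m ≠ .nil := by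
  obtain ⟨m, rfl⟩ : ∃ x, m = x + 1 := ⟨m - 1, by omega⟩
  rw [pw_succ]
  simp

theorem pkn_pw74 (m : ℕ) : leaf (pw (m + 1)) = 0 ∧ pkn (pw (m + 1)) = 1 := by
  induction m with
  | zero => exact ⟨rfl, rfl⟩
  | succ m ih =>
    refine ⟨rfl, ?_⟩
    change leaf (pw (m + 1)) + pkn (pw (m + 1)) + 0 = 1
    rw [ih.1, ih.2]

theorem pkn_two74 (n : ℕ) : pkn (pw (n + 1) △ pw 3) = 2 := by
  change leaf (pw (n + 1)) + pkn (pw (n + 1)) + pkn (pw 3) = 2
  rw [(pkn_pw74 n).1, (pkn_pw74 n).2, (pkn_pw74 2).2]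

/-- the words of `TyJs` -/
theorem J1.TyJs.wds74 (h : J1.TyJs F g) : ∀ w ∈ g.B, ∃ i < 20, w.1 = J.j1w (n + 2) 3 i := by
  obtain ⟨s, hs, hB, _⟩ := h.isJ1
  obtain rfl : s = n + 2 := by omega
  exact hB

/-- **TOP ROW of J1** (t = 5): free, or one of three words of `WR` -/
theorem J1.TyJs.top' (hn : 3 ≤ n) (h : J1.TyJs F g) : ∀ w ∈ g.B, FreeTop n w ∨
    (w ∈ T4.WR n ∧ ∀ ι : Q3 (n + 2) → Q3 (n + 2), w ∉ topW8' (n + 2) ι) := by
  intro w hw
  obtain ⟨i, hi, e⟩ := h.wds74 w hw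
  obtain ⟨h0, h1⟩ := j1_tab74 (s := n + 2) (c := 3) (by norm_num) (by omega) hi
  rw [← e] at h0 h1
  have top : ht w.1 ≤ n + 3 → ∀ ι : Q3 (n + 2) → Q3 (n + 2), w ∉ topW8' (n + 2) ι := by
    intro h2 ι h3
    have := T4.top_low h3
    omega
  have top4 : ht w.1 ≤ n + 4 → (∃ Y, w.1 = Y △ .nil) → ∀ ι : Q3 (n + 2) → Q3 (n + 2), w ∉ topW8' (n + 2) ι := by
    rintro h2 ⟨Y, h4⟩ ι h3
    exact T4.top_np h3 h2 Y h4
  -- two components
  have two : ∀ A B : BinaryTree Unit, w.1 = A △ (B △ .nil) → ht w.1 = n + 3 →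
      (B = .nil → pkn (A △ .nil) ≠ 4) → (A = .nil → pkn (B △ .nil) ≠ 4) →
      (A = pw (n + 2) → B ≠ pw 3) → (A = .nil △ (.nil △ (.nil △ .nil)) → B ≠ pw (n + 2)) →
      (A = .nil △ pw (n + 2) → B ≠ .nil △ (.nil △ .nil)) →
      A ≠ .nil △ (.nil △ .nil) → (A = pw (n + 2) → B ≠ (.nil △ .nil) △ (.nil △ .nil)) →
      B ≠ .nil △ .nil → A ≠ .nil △ .nil → FreeTop n w := by
    intro A B e2 h2 c1 c2 c3 c4 c5 c6 c7 c8 c9
    refine FreeTop.of (top (by omega)) fun h3 => ?_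
    exfalso
    rcases T4.two_cases (by omega) h3 e2 (by omega) with ⟨f, hf, ⟨a, b⟩ | ⟨a, b⟩⟩ | ⟨a, b⟩ | ⟨a, b⟩ | ⟨a, b⟩ | ⟨a, b⟩ |
      ⟨a, b⟩ | ⟨q, -, -, ⟨a, b⟩ | ⟨a, b⟩⟩
    · refine c1 a ?_
      rw [b, T4.pkn_yT4, hf]
    · refine c2 a ?_
      rw [b, T4.pkn_yT4, hf]
    · exact c3 a b
    · exact c4 a b
    · exact c5 a b
    · exact c6 a
    · exact c7 a b
    · exact c8 b
    · exact c9 a
  have low : ht w.1 = n + 2 → FreeTop n w := fun h2 => T4.LowW.freeTop74 (by omega) (Or.inl (by omega))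
  have prm : ht w.1 = n + 3 → (∃ Y, w.1 = Y △ .nil) → FreeTop n w := fun h2 h3 =>
    T4.LowW.freeTop74 (by omega) (Or.inr ⟨h2, h3⟩)
  have eS : ch (n + 2) = pw (n + 2) := ch_pw74 _
  have eR : app (ch (n + 2)) (ch 3) = pw (n + 1) △ pw 3 := by
    rw [ch_pw74, ch_pw74]
    rfl
  have p1 := pw_ne74 (m := n + 1) (by omega)
  have p2 := pw_ne74 (m := n + 2) (by omega)
  rcases h1 with h1 | ⟨h1, h2⟩ | ⟨h1, h2⟩
  · exact Or.inl (low h1)
  · have h1' : ht w.1 = n + 3 := by omega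
    rcases h2 with rfl | rfl | rfl | rfl | rfl | rfl | rfl | rfl
    · exact Or.inl (prm h1' ⟨_, e⟩)
    · left
      have e2 : w.1 = (pw (n + 1) △ pw 3) △ (.nil △ .nil) := by
        rw [e, ← eR]
        rfl
      refine two _ _ e2 h1' ?_ ?_ ?_ ?_ ?_ ?_ ?_ ?_ ?_
      · intro _
        change 0 + pkn (pw (n + 1) △ pw 3) + 0 ≠ 4
        rw [pkn_two74]
        norm_num
      · intro a; simp at a
      · intro _; simp [pw_succ]
      · intro _ a; exact p2 a.symm
      · intro _; simp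
      · intro a; exact p1 (H1.node_inj a).1
      · intro _; simp
      · simp
      · intro a; exact p1 (H1.node_inj a).1
    · exact Or.inl (prm h1' ⟨_, e⟩)
    · left
      have e2 : w.1 = .nil △ ((pw (n + 1) △ pw 3) △ .nil) := by
        rw [e, ← eR]
        rfl
      refine two _ _ e2 h1' ?_ ?_ ?_ ?_ ?_ ?_ ?_ ?_ ?_
      · intro a; simp at a
      · intro _
        change 0 + pkn (pw (n + 1) △ pw 3) + 0 ≠ 4
        rw [pkn_two74]
        norm_num
      · intro a; exact absurd a.symm p2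
      · intro a; simp at a
      · intro a; simp at a
      · simp
      · intro a; exact absurd a.symm p2
      · intro a; exact p1 (H1.node_inj a).1
      · simp
    · right
      have e2 : w = T4.wr n 16 := by
        apply Subtype.ext
        rw [e]
        change ch (n + 2) △ _ = _
        rw [eS]
        rfl
      exact ⟨⟨16, by norm_num, by norm_num, e2⟩, top (by omega)⟩
    · left
      have e2 : w.1 = (.nil △ pw (n + 2)) △ (pw 2 △ .nil) := by
        rw [e]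
        change (.nil △ ch (n + 2)) △ _ = _
        rw [eS]
        rfl
      refine two _ _ e2 h1' ?_ ?_ ?_ ?_ ?_ ?_ ?_ ?_ ?_
      · intro a; simp [pw_succ] at a
      · intro a; simp at a
      · intro a
        rw [pw_succ] at a
        exact absurd (H1.node_inj a).1.symm p1
      · intro a
        have := (H1.node_inj a).2
        rw [pw_succ] at this
        exact absurd (H1.node_inj this).2 (by simp)
      · intro _ a
        rw [pw_succ] at a
        exact absurd (H1.node_inj a).2 (by simp)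
      · intro a
        have := (H1.node_inj a).2
        rw [pw_succ] at this
        exact absurd (H1.node_inj this).1 p1
      · intro _ a
        rw [pw_succ] at a
        exact absurd (H1.node_inj a).2 (by simp)
      · rw [pw_succ]
        intro a
        exact absurd (H1.node_inj a).1 (by simp [pw_succ])
      · intro a
        exact p2 (H1.node_inj a).2
    · right
      have e2 : w = T4.wr n 18 := by
        apply Subtype.ext
        rw [e]
        change .nil △ (ch (n + 2) △ _) = _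
        rw [eS]
        rfl
      exact ⟨⟨18, by norm_num, by norm_num, e2⟩, top (by omega)⟩
    · exact Or.inl (prm h1' ⟨_, e⟩)
  · have h1' : ht w.1 = n + 4 := by omega
    rcases h2 with rfl | rfl
    · left
      refine FreeTop.of (top4 (by omega) ⟨_, e⟩) fun h3 => ?_
      exfalso
      have hp : pkn w.1 = 2 := by
        have e5 : w.1 = ((pw (n + 1) △ pw 3) △ .nil) △ .nil := by
          rw [e, ← eR]
          rfl
        rw [e5]
        change 0 + (0 + pkn (pw (n + 1) △ pw 3) + 0) + 0 = 2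
        rw [pkn_two74]
      have e3 := T4.prime2_74 (by omega) h3 h1' hp e
      have e4 : w.1 = T4.tr n 19 := congrArg Subtype.val e3
      rw [e] at e4
      change (app (ch (n + 2)) (ch 3) △ .nil) △ .nil = (pw (n + 2) △ _) △ .nil at e4
      exact absurd (H1.node_inj (H1.node_inj e4).1).2 (by simp)
    · right
      have e2 : w = T4.wr n 19 := by
        apply Subtype.ext
        rw [e]
        change (ch (n + 2) △ _) △ .nil = _
        rw [eS]
        rfl
      exact ⟨⟨19, by norm_num, by norm_num, e2⟩, top4 (by omega) ⟨_, e⟩⟩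

/-- **TOP ROW of J1**, if the layer has no word of `WR` -/
theorem J1.TyJs.top (hn : 3 ≤ n) (h : J1.TyJs F g) (hW : NoWR74 n) : ∀ w ∈ g.B, FreeTop n w := by
  intro w hw
  rcases h.top' hn w hw with h1 | ⟨h1, h2⟩
  · exact h1
  · exact fun ι W4 hL => ⟨h2 ι, hW ι W4 hL w h1⟩

/-- **BOTTOM ROW of J1** -/
theorem J1.TyJs.bot (hn : 3 ≤ n) (s : Bool) (h : J1.TyJs F g) : ∀ w ∈ g.B, w ∉ botW (n + 2 + 5) s := by
  intro w hw
  obtain ⟨i, hi, e⟩ := h.wds74 w hw
  obtain ⟨h0, -⟩ := j1_tab74 (s := n + 2) (c := 3) (by norm_num) (by omega) hi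
  rw [← e] at h0
  exact bot_free (by omega) (Or.inl (by omega))

theorem repc74 (m : ℕ) (l : List Bool) : List.replicate m true ++ true :: l = true :: (List.replicate m true ++ l) := by
  induction m with
  | zero => rfl
  | succ m ih => rw [List.replicate_succ, List.cons_append, ih]; rfl

theorem ht_TT74 {k : ℕ} (x : X k) : ht (TT x).1 = ht x.1 := by
  rw [OddHC.ht_eq, OddHC.ht_eq, TT_apply, cont_TF]

theorem pkn_TT74 {k : ℕ} (x : X k) : pkn (TT x).1 = pkn x.1 := by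
  rw [← cont_card, ← cont_card, TT_apply, cont_TF]

/-- the inner words 3, 6, 8 of J1 over `[m+4][3]` are prime -/
theorem TT368_74 {k m i : ℕ} {x : X k} (hi : i = 3 ∨ i = 6 ∨ i = 8) (hx : x.1 = J.j1w (m + 4) 3 i) :
    ∃ Y, (TT x).1 = Y △ .nil := by
  have hn : Tsq.ht (.nil : BinaryTree Unit) = 0 := rfl
  have h0 := J.FM_ch (m + 3)
  have hS : Tsq.ht (ch (m + 3 + 1)) = m + 4 := by rw [H1.ht_eq, ch_ht]
  have hC : Tsq.ht (ch 3) = 3 := by rw [H1.ht_eq, ch_ht]
  have hR := h0.app_right (Z := ch 3) (by rw [hS, hC]; omega)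
  have hRh : Tsq.ht (app (ch (m + 3 + 1)) (ch 3)) = m + 4 := by rw [Tsq.ht_app, hS, hC]; omega
  rcases hi with rfl | rfl | rfl
  · have h := (hR.app_right (Z := .nil △ .nil) (by
      rw [hRh, Tsq.ht_node, hn]; omega)).node (Z := .nil) (by rw [hn]; omega)
    have hx' : x.1 = app (app (ch (m + 3 + 1)) (ch 3)) (.nil △ .nil) △ .nil := hx
    rw [← hx'] at h
    have k3 := h.wdT
    refine ⟨prn m (app (ch 3) (((.nil △ ((.nil △ .nil) △ .nil)) △ .nil) △ .nil)), ?_⟩
    have e1 : wd (TT x).1 = wd (prn (m + 1) (app (ch 3) (((.nil △ ((.nil △ .nil) △ .nil)) △ .nil) △ .nil))) := by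
      rw [k3, wd_prn]
      simp [wd, ch, app, List.replicate_succ, repc74]
    exact (wd_inj _ _ [] [] (by rw [e1]; rfl)).1
  · have h := hR.node (Z := .nil △ .nil) (by rw [hRh, Tsq.ht_node, hn]; omega)
    have hx' : x.1 = app (ch (m + 3 + 1)) (ch 3) △ (.nil △ .nil) := hx
    rw [← hx'] at h
    have k3 := h.wdT
    refine ⟨prn m (app (ch 3) ((((.nil △ (.nil △ .nil)) △ .nil) △ .nil) △ .nil)), ?_⟩
    have e1 : wd (TT x).1 = wd (prn (m + 1) (app (ch 3) ((((.nil △ (.nil △ .nil)) △ .nil) △ .nil) △ .nil))) := by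
      rw [k3, wd_prn]
      simp [wd, ch, app, List.replicate_succ, repc74]
    exact (wd_inj _ _ [] [] (by rw [e1]; rfl)).1
  · have h := (hR.node (Z := .nil) (by rw [hn]; omega)).app_left (P := .nil △ .nil) (by
      rw [Tsq.ht_node, Tsq.ht_node, hn, hRh]; omega)
    have hx' : x.1 = app (.nil △ .nil) (app (ch (m + 3 + 1)) (ch 3) △ .nil) := hx
    rw [← hx'] at h
    have k3 := h.wdT
    refine ⟨prn m (app (ch 3) ((((.nil △ .nil) △ (.nil △ .nil)) △ .nil) △ .nil)), ?_⟩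
    have e1 : wd (TT x).1 = wd (prn (m + 1) (app (ch 3) ((((.nil △ .nil) △ (.nil △ .nil)) △ .nil) △ .nil))) := by
      rw [k3, wd_prn]
      simp [wd, ch, app, List.replicate_succ, repc74]
    exact (wd_inj _ _ [] [] (by rw [e1]; rfl)).1

/-- **TOP ROW of J1**, inner words -/
theorem J1.TyJs.topI (hn : 3 ≤ n) (h : J1.TyJs F g) : ∀ a ∈ g.arcs, ∀ w ∈ innA a, FreeTop n w := by
  intro p hp w hw
  obtain ⟨s, hs, _, hA⟩ := h.isJ1
  obtain rfl : s = n + 2 := by omega
  obtain ⟨i, hi, hx⟩ := hA p hp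
  have e : w = TT p.1 := hw
  subst e
  have hi20 : i < 20 := by
    simp only [List.mem_cons, List.not_mem_nil, or_false] at hi
    omega
  obtain ⟨-, h1⟩ := j1_tab74 (s := n + 2) (c := 3) (by norm_num) (by omega) hi20
  rw [← hx, ← ht_TT74] at h1
  obtain ⟨m, rfl⟩ : ∃ m, n = m + 3 := ⟨n - 3, by omega⟩
  rcases h1 with h1 | ⟨h1, h2⟩ | ⟨h1, h2⟩
  · exact T4.LowW.freeTop74 (by omega) (Or.inl (by omega))
  · have h3 : i = 3 ∨ i = 6 ∨ i = 8 := by
      simp only [List.mem_cons, List.not_mem_nil, or_false] at hi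
      omega
    exact T4.LowW.freeTop74 (by omega) (Or.inr ⟨by omega, TT368_74 (m := m + 1) h3 hx⟩)
  · have h9 : i = 9 := by
      simp only [List.mem_cons, List.not_mem_nil, or_false] at hi
      omega
    subst h9
    have hx' : p.1.1 = (app (ch (m + 2 + 3)) (ch 3) △ .nil) △ .nil := hx
    have e1 := TT_nine (m := m) (c := 3) hx'
    refine FreeTop.of (fun ι h4 => T4.top_np h4 (by omega) _ e1) fun h3 => ?_
    exfalso
    have hp2 : pkn (TT p.1).1 = 2 := by
      rw [pkn_TT74, hx', ch_pw74, ch_pw74]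
      change 0 + (0 + pkn (pw (m + 4) △ pw 3) + 0) + 0 = 2
      rw [pkn_two74]
    have e3 := T4.prime2_74 (by omega) h3 (by omega) hp2 e1
    have e4 : (TT p.1).1 = T4.tr (m + 3) 19 := congrArg Subtype.val e3
    rw [e1] at e4
    exact absurd (H1.node_inj (H1.node_inj e4).1).2 (by simp)

end Js

section Jt

open H1 SRun

variable {n : ℕ} {F : Set (Cyc (n + 2 + 5))} {g : DG (n + 2 + 5)}

theorem ht_mir74 (t : BinaryTree Unit) : ht (Tsq.mir t) = ht t := by
  rw [OddHC.ht_eq, OddHC.ht_eq, HM.cont_mir]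

theorem mir_prime74 {t Y : BinaryTree Unit} (h : Tsq.mir t = Y △ .nil) : t = Tsq.mir Y △ .nil := by
  rw [← Tsq.mir_mir t, h, Tsq.mir_node]
  rfl

/-- **TOP ROW of J1M** (t = 6) -/
theorem J1.TyJt.top (hn : 4 ≤ n) (h : J1.TyJt F g) : ∀ w ∈ g.B, FreeTop n w := by
  intro w hw
  obtain ⟨s, _, hs, hB, _⟩ := h.isJ1M
  obtain rfl : s = n + 1 := by omega
  obtain ⟨i, hi, e⟩ := hB w hw
  obtain ⟨-, h1⟩ := j1_tab74 (s := n + 1) (c := 4) (by norm_num) (by omega) hi
  have e0 : Tsq.mir w.1 = J.j1w (n + 1) 4 i := e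
  rw [← e0, ht_mir74] at h1
  rcases h1 with h1 | ⟨h1, -⟩ | ⟨h1, h2⟩
  · exact T4.LowW.freeTop74 (by omega) (Or.inl (by omega))
  · exact T4.LowW.freeTop74 (by omega) (Or.inl (by omega))
  · refine T4.LowW.freeTop74 (by omega) (Or.inr ⟨by omega, ?_⟩)
    rcases h2 with rfl | rfl
    · exact ⟨_, mir_prime74 e0⟩
    · exact ⟨_, mir_prime74 e0⟩

/-- **BOTTOM ROW of J1M** -/
theorem J1.TyJt.bot (hn : 4 ≤ n) (s : Bool) (h : J1.TyJt F g) : ∀ w ∈ g.B, w ∉ botW (n + 2 + 5) s := by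
  intro w hw
  obtain ⟨s', _, hs, hB, _⟩ := h.isJ1M
  obtain rfl : s' = n + 1 := by omega
  obtain ⟨i, hi, e⟩ := hB w hw
  obtain ⟨h0, -⟩ := j1_tab74 (s := n + 1) (c := 4) (by norm_num) (by omega) hi
  have e0 : Tsq.mir w.1 = J.j1w (n + 1) 4 i := e
  rw [← e0, ht_mir74] at h0
  exact bot_free (by omega) (Or.inl (by omega))

/-- **TOP ROW of J1M**, inner words -/
theorem J1.TyJt.topI (hn : 5 ≤ n) (h : J1.TyJt F g) : ∀ a ∈ g.arcs, ∀ w ∈ innA a, FreeTop n w := by
  intro p hp w hw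
  obtain ⟨s, _, hs, _, hA⟩ := h.isJ1M
  obtain rfl : s = n + 1 := by omega
  obtain ⟨h0, i, hi, hx⟩ := hA p hp
  have e : w = TT p.1 := hw
  have e2 : TT w = p.2 := by rw [e, h0]
  have e3 : TT (Tsq.mirX p.2) = Tsq.mirX w := by rw [← e2, Tsq.TT_mir]
  have e4 : w = Tsq.mirX (TT (Tsq.mirX p.2)) := by
    rw [e3]
    exact Subtype.ext (Tsq.mir_mir _).symm
  have hi20 : i < 20 := by
    simp only [List.mem_cons, List.not_mem_nil, or_false] at hi
    omega
  obtain ⟨-, h1⟩ := j1_tab74 (s := n + 1) (c := 4) (by norm_num) (by omega) hi20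
  have hht : ht w.1 = ht (J.j1w (n + 1) 4 i) := by
    rw [← hx, ht_mir74, ← e2, ht_TT74]
  rw [← hht] at h1
  rcases h1 with h1 | ⟨h1, -⟩ | ⟨h1, h2⟩
  · exact T4.LowW.freeTop74 (by omega) (Or.inl (by omega))
  · exact T4.LowW.freeTop74 (by omega) (Or.inl (by omega))
  · have h9 : i = 9 := by
      simp only [List.mem_cons, List.not_mem_nil, or_false] at hi
      omega
    subst h9
    obtain ⟨m, rfl⟩ : ∃ m, n = m + 5 := ⟨n - 5, by omega⟩
    have hx' : (Tsq.mirX p.2).1 = (app (ch (m + 2 + 4)) (ch 4) △ .nil) △ .nil := hx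
    have e1 := TT_nine (m := m) (c := 4) hx'
    refine T4.LowW.freeTop74 (by omega) (Or.inr ⟨by omega, ?_⟩)
    have e5 : Tsq.mir w.1 = (prn m (app (ch 4) (ch (4 + 2))) △ .nil) △ .nil := by
      rw [← e1, e3]
      rfl
    exact ⟨_, mir_prime74 e5⟩

end Jt

end Pool.OddHC
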