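import Pool.Agent.Work.MP_8f87b2_fin.Asm
import Pool.Agent.Work.MP_8f87b2_h73.Row1
import Pool.Agent.Work.MP_8f87b2_h73.RowB
import Pool.Agent.Work.MP_8f87b2_h62.W3g
import Pool.Agent.Work.MP_8f87b2_h20.S5Link

/-!
# MP_8f87b2_co: the types T and S5 against the top, the layer `k - 4` and the bottom (`k = n + 7`)
-/

set_option autoImplicit false

namespace Pool.OddHC

open Finset BinaryTree Equiv Pool.OddHop

/-- a low word (or a prime word of height `k - 4`) is free -/
theorem T4.LowW.freeTop74 {n : ℕ} (hn : 1 ≤ n) {w : X (n + 2 + 5)} (h : T4.LowW n w) : FreeTop n w :=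
  FreeTop.of (fun _ => (h.free hn).2) (fun h' => absurd h' (h.free hn (ι := fun q => q)).1)

section T

variable {n : ℕ} {F : Set (Cyc (n + 2 + 5))} {g : DG (n + 2 + 5)}

/-- **TOP ROW of T** -/
theorem TyT.top (hn : 3 ≤ n) (h : TyT F g) : ∀ w ∈ g.B, FreeTop n w := by
  intro w hw
  have := (h.ht w hw).2
  exact T4.LowW.freeTop74 (by omega) (Or.inl (by omega))

/-- **TOP ROW of T**, inner words -/
theorem TyT.topI (hn : 3 ≤ n) (h : TyT F g) : ∀ a ∈ g.arcs, ∀ w ∈ innA a, FreeTop n w := by
  intro a ha w hw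
  have := (h.inner_ht a ha w hw).2
  exact T4.LowW.freeTop74 (by omega) (Or.inl (by omega))

/-- **BOTTOM ROW of T** -/
theorem TyT.bot (s : Bool) (h : TyT F g) : ∀ w ∈ g.B, w ∉ botW (n + 2 + 5) s := h.not_bot s

end T

section S5

open H1

theorem ch_pw74 (n : ℕ) : ch n = pw n := by
  induction n with
  | zero => rfl
  | succ n ih => rw [pw_succ, ← ih]; rfl

theorem ht_ch74 (n : ℕ) : ht (ch n) = n := by
  induction n with
  | zero => rfl
  | succ n ih =>
    change ht (ch n △ .nil) = _
    rw [ht_node, ih, T4.ht_nil]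
    omega

theorem ch_succ74 (n : ℕ) : ch (n + 1) = ch n △ .nil := rfl

theorem lp_succ74 (n : ℕ) : lp (n + 1) = .nil △ lp n := rfl

variable {n : ℕ} {F : Set (Cyc (n + 2 + 5))} {g : DG (n + 2 + 5)}

/-- **TOP ROW of S5** (final form `TyS5l`): at height `k - 5` only for `n + 3 ≢ 1 mod 4` -/
theorem TyS5l.top (hn : 3 ≤ n) (h : TyS5l F g) (hF : ∀ c ∈ F, htc c < n + 3)
    (h5 : (∃ c ∈ F, htc c = n + 2) → (n + 3) % 4 ≠ 1) : ∀ w ∈ g.B, FreeTop n w := by
  obtain ⟨s, m, hs, hm, h | ⟨hm3, h⟩⟩ := h
  · intro w hw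
    rcases h.words w hw with e | ⟨e, -⟩
    · rcases Nat.lt_or_ge (ht w.1) (n + 3) with h2 | h2
      · exact T4.LowW.freeTop74 (by omega) (Or.inl (by omega))
      · obtain ⟨a, b, c, ha, hb, hc, h3, h4, h5', hFe, hge⟩ := h
        have bF : cyc b ∈ F := by rw [hFe]; exact Or.inl rfl
        have hb1 : ht b.1 = s := by
          rw [hb]
          unfold w1
          have := ht_lp (m + 2)
          rw [ht_app, ht_node, ht_ch74, T4.ht_nil]
          omega
        have hb2 : s ≤ n + 2 := by
          have := hF _ bF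
          rw [htc_cyc, hb1] at this
          omega
        have hw1 : ht w.1 = s + 1 := by
          rw [e]
          unfold w1
          have := ht_lp (m + 2)
          rw [ht_app, ht_node, ht_ch74, T4.ht_nil]
          omega
        have hs2 : s = n + 2 := by omega
        have hN : w.1.numNodes = n + 2 + 5 := X_num w
        have hm4 : m = 2 := by
          rw [e] at hN
          unfold w1 at hN
          rw [num_app, lp_num] at hN
          change m + 2 + ((ch s).numNodes + 0 + 1) = _ at hN
          rw [ch_num] at hN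
          omega
        have hwX : w = T4.oX n := by
          apply Subtype.ext
          rw [e, hs2, hm4, ch_pw74]
          rfl
        refine FreeTop.of (fun ι h6 => ?_) (fun _ => ⟨hwX, h5 ⟨cyc b, bF, ?_⟩⟩)
        · have := T4.top_low h6
          omega
        · rw [htc_cyc, hb1, hs2]
    · have := hF _ e
      rw [htc_cyc] at this
      exact T4.LowW.freeTop74 (by omega) (Or.inl (by omega))
  · have hlow : ∀ c ∈ F, htc c ≤ n + 1 := by
      obtain ⟨a, b, c, ha, hb, hc, h3, h4, h5', hFe, hge⟩ := h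
      have hN : b.1.numNodes = n + 2 + 5 := X_num b
      have hb1 : ht b.1 = s := by
        rw [hb]
        unfold w1
        have h6 := ht_lp m
        have h7 := ht_lp 1
        rw [ht_app, ht_app, ht_node, ht_ch74, ht_ch74]
        omega
      have hs2 : s ≤ n + 1 := by
        rw [hb] at hN
        unfold w1 at hN
        rw [num_app, num_app, ch_num, lp_num] at hN
        change s + m + ((ch 2).numNodes + (lp 1).numNodes + 1) = _ at hN
        rw [ch_num, lp_num] at hN
        omega
      intro d hd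
      rw [hFe] at hd
      rcases hd with rfl | rfl
      · rw [htc_cyc, hb1]; exact hs2
      · rw [← h4, htc_cyc, hb1]; exact hs2
    exact fun w hw => T4.LowW.freeTop74 (by omega) (T4.tri_low h hlow w hw)

/-- S5 has no arcs -/
theorem TyS5l.topI (h : TyS5l F g) : ∀ a ∈ g.arcs, ∀ w ∈ innA a, FreeTop n w := by
  intro a ha
  rw [h.toS5.arcs] at ha
  simp at ha

end S5

section S5b

open H1

variable {k : ℕ} {F : Set (Cyc k)} {g : DG k}

theorem w3R_hd74 {m : ℕ} (hm : 1 ≤ m) {A Y : BinaryTree Unit} (h : A ≠ .nil) : A △ Y ≠ w3R m := by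
  obtain ⟨m, rfl⟩ : ∃ x, m = x + 1 := ⟨m - 1, by omega⟩
  intro e
  change A △ Y = .nil △ _ at e
  exact h (H1.node_inj e).1

/-- **BOTTOM ROW of S5**, with `s = true` -/
theorem TyS5l.bot (hk : 4 ≤ k) (h : TyS5l F g) : ∀ w ∈ g.B, w ∉ botW k true := by
  intro w hw
  obtain ⟨s, m, hs, hm, h | ⟨hm3, h⟩⟩ := h
  · obtain ⟨s, rfl⟩ : ∃ x, s = x + 3 := ⟨s - 3, by omega⟩
    obtain ⟨m, rfl⟩ : ∃ x, m = x + 2 := ⟨m - 2, by omega⟩
    rcases h.words w hw with e | ⟨-, e | e⟩
    · refine bot_free ?_ (Or.inl ?_) <;>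
      · rw [e]
        unfold w1
        have := ht_lp (m + 2 + 2)
        rw [ht_app, ht_node, ht_ch74, T4.ht_nil]
        omega
    · have e2 : w.1 = ch (s + 2) △ (.nil △ (.nil △ (.nil △ lp (m + 2)))) := e
      refine bot_free ?_ (Or.inr ⟨?_, ?_, ?_, ?_⟩)
      · rw [e2, ht_node, ht_ch74]
        omega
      · intro Y h0
        rw [e2] at h0
        exact absurd (H1.node_inj h0).2 (by simp)
      · intro P h0
        rw [e2] at h0
        exact absurd (H1.node_inj (H1.node_inj h0).2).2 (by simp)
      · intro h0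
        exact absurd h0 (by simp)
      · intro _
        rw [e2]
        refine w3R_hd74 (by omega) ?_
        rw [ch_succ74]
        simp
    · have e2 : w.1 = (.nil △ lp (m + 2 + 1)) △ (ch (s + 2) △ .nil) := e
      refine bot_free ?_ (Or.inr ⟨?_, ?_, ?_, ?_⟩)
      · rw [e2, ht_node, ht_node (A := ch (s + 2)), ht_ch74]
        omega
      · intro Y h0
        rw [e2] at h0
        exact absurd (H1.node_inj h0).2 (by simp)
      · intro P h0
        rw [e2] at h0
        have := (H1.node_inj (H1.node_inj h0).2).1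
        rw [ch_succ74] at this
        exact absurd this (by simp)
      · intro h0
        exact absurd h0 (by simp)
      · intro _
        rw [e2]
        exact w3R_hd74 (by omega) (by simp)
  · obtain ⟨s, rfl⟩ : ∃ x, s = x + 3 := ⟨s - 3, by omega⟩
    obtain ⟨m, rfl⟩ : ∃ x, m = x + 3 := ⟨m - 3, by omega⟩
    rcases h.words w hw with e | ⟨-, e | e⟩
    · have e2 : w.1 = .nil △ ((ch (s + 2) △ lp (m + 3)) △ ch 2) := e
      refine bot_free ?_ (Or.inl ?_) <;>
      · rw [e2, ht_node, ht_node (A := ch (s + 2) △ lp (m + 3)), ht_node (A := ch (s + 2)), ht_ch74]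
        omega
    · have e2 : w.1 = ch (s + 2) △ (.nil △ (.nil △ (.nil △ app (lp m) (ch 2 △ lp 1)))) := e
      refine bot_free ?_ (Or.inr ⟨?_, ?_, ?_, ?_⟩)
      · rw [e2, ht_node, ht_ch74]
        omega
      · intro Y h0
        rw [e2] at h0
        exact absurd (H1.node_inj h0).2 (by simp)
      · intro P h0
        rw [e2] at h0
        exact absurd (H1.node_inj (H1.node_inj h0).2).2 (by simp)
      · intro h0
        exact absurd h0 (by simp)
      · intro _
        rw [e2]
        refine w3R_hd74 (by omega) ?_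
        rw [ch_succ74]
        simp
    · have e2 : w.1 = (.nil △ .nil) △ ((.nil △ .nil) △ (ch (s + 2) △ lp (m + 3))) := e
      refine bot_free ?_ (Or.inr ⟨?_, ?_, ?_, ?_⟩)
      · rw [e2, ht_node, ht_node (A := .nil △ .nil), ht_node (A := ch (s + 2)), ht_ch74]
        omega
      · intro Y h0
        rw [e2] at h0
        exact absurd (H1.node_inj h0).2 (by simp)
      · intro P h0
        rw [e2] at h0
        have := (H1.node_inj (H1.node_inj h0).2).1
        exact absurd this (by simp)
      · intro h0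
        exact absurd h0 (by simp)
      · intro _
        rw [e2]
        exact w3R_hd74 (by omega) (by simp)

end S5b

end Pool.OddHC
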